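import Pool.Agent.H49.LS.Defs

/-!
# Simplicial chains: cones

`bs_add`, `bs_bs` as for chains. `cone`: `L` down-closed and `L W → L (insert v W)`. Given a cycle `l` of `L` on sets of size `c`, `w W = l (W.erase v)` if `v ∈ W`, else `0`. `bs w W` for `v ∉ W`:
only `D = v` contributes, `w (insert v W) = l W`. For `v ∈ W`: the sum over `D ∉ W` of `l (insert D (W.erase v))` (`(insert D W).erase v = insert D (W.erase v)`, as `D ≠ v`), and
`0 = bs l (W.erase v) = l (insert v (W.erase v)) + (that sum) = l W + (that sum)`.
-/

set_option autoImplicit false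
set_option linter.unusedSectionVars false

namespace H49.LS

open Finset
open scoped Classical

variable {α : Type} [Fintype α] [DecidableEq α]

lemma bs_add (a b : Finset α → ZMod 2) : bs (a + b) = bs a + bs b := by
  funext W
  exact Finset.sum_add_distrib

lemma bs_bs (a : Finset α → ZMod 2) : bs (bs a) = 0 := by
  funext W
  show ∑ D ∈ univ.filter (fun D => D ∉ W), ∑ D' ∈ univ.filter (fun D' => D' ∉ insert D W),
    a (insert D' (insert D W)) = 0
  rw [Finset.sum_sigma']
  refine Finset.sum_involution (fun x _ => ⟨x.2, x.1⟩) ?_ ?_ ?_ ?_
  · rintro ⟨D, D'⟩ hx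
    dsimp only
    rw [Finset.insert_comm D D' W]
    exact CharTwo.add_self_eq_zero _
  · rintro ⟨D, D'⟩ hx _ h
    simp only [Finset.mem_sigma, Finset.mem_filter, Finset.mem_univ, true_and,
      Finset.mem_insert, not_or] at hx
    have h1 : D' = D := congrArg (fun z : (_ : α) × α => z.1) h
    exact hx.2.1 h1
  · rintro ⟨D, D'⟩ hx
    simp only [Finset.mem_sigma, Finset.mem_filter, Finset.mem_univ, true_and,
      Finset.mem_insert, not_or] at hx ⊢
    exact ⟨hx.2.2, fun h => hx.2.1 h.symm, hx.1⟩
  · rintro ⟨D, D'⟩ hx
    rfl

lemma cone {L : Finset α → Prop} (hL : Down L) {v : α} (hv : ∀ W, L W → L (insert v W)) (c : ℕ) : AcycC c L := by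
  intro l hl hbl
  refine ⟨fun W => if v ∈ W then l (W.erase v) else 0, ?_, ?_⟩
  · intro W hW
    by_cases hvW : v ∈ W
    · have h1 : l (W.erase v) ≠ 0 := by
        have h2 : (if v ∈ W then l (W.erase v) else 0) ≠ 0 := hW
        rwa [if_pos hvW] at h2
      obtain ⟨h2, h3⟩ := hl _ h1
      have h4 := hv _ h2
      rw [Finset.insert_erase hvW] at h4
      refine ⟨h4, ?_⟩
      have h5 := Finset.card_erase_add_one hvW
      omega
    · exact absurd (if_neg hvW) hW
  · funext W
    show ∑ D ∈ univ.filter (fun D => D ∉ W),
      (if v ∈ insert D W then l ((insert D W).erase v) else 0) = l W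
    by_cases hvW : v ∈ W
    · have h1 : ∑ D ∈ univ.filter (fun D => D ∉ W.erase v), l (insert D (W.erase v)) = 0 :=
        congrFun hbl (W.erase v)
      have h2 : (univ.filter (fun D => D ∉ W.erase v)) =
          insert v (univ.filter (fun D => D ∉ W)) := by
        ext D
        simp only [Finset.mem_filter, Finset.mem_univ, true_and, Finset.mem_erase,
          Finset.mem_insert, not_and]
        constructor
        · intro h
          by_cases hD : D = v
          · exact Or.inl hD
          · exact Or.inr (h hD)
        · rintro (h | h)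
          · intro h'
            exact absurd h h'
          · intro _
            exact h
      have h3 : v ∉ univ.filter (fun D => D ∉ W) := by
        simp only [Finset.mem_filter, Finset.mem_univ, true_and, not_not]
        exact hvW
      rw [h2, Finset.sum_insert h3, Finset.insert_erase hvW] at h1
      have h4 : ∑ D ∈ univ.filter (fun D => D ∉ W),
          (if v ∈ insert D W then l ((insert D W).erase v) else 0) =
          ∑ D ∈ univ.filter (fun D => D ∉ W), l (insert D (W.erase v)) := by
        refine Finset.sum_congr rfl fun D hD => ?_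
        rw [Finset.mem_filter] at hD
        have hne : D ≠ v := fun h => hD.2 (h ▸ hvW)
        rw [if_pos (Finset.mem_insert_of_mem hvW), Finset.erase_insert_of_ne hne]
      rw [h4, eq_neg_of_add_eq_zero_right h1, CharTwo.neg_eq]
    · rw [Finset.sum_eq_single_of_mem v (by
        rw [Finset.mem_filter]
        exact ⟨Finset.mem_univ v, hvW⟩)]
      · rw [if_pos (Finset.mem_insert_self v W), Finset.erase_insert hvW]
      · intro D hD hne
        rw [if_neg]
        rw [Finset.mem_insert]
        rintro (h | h)
        · exact hne h.symm
        · exact hvW h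

end H49.LS
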