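import Pool.Agent.H49.LS.AcA

/-!
# Removing a direction

`L` down-closed, `L \ u`: the members without `u`; `link u`: the `W` with `u ∉ W`, `L (insert u W)`. If `L \ u` has property `AcycC c` and `link u` has `AcycC c'` where `c = c' + 1`, then
`AcycC c L`. Let `l` be a cycle of `L` on sets of size `c`. `lu W = l (insert u W)` if `u ∉ W`, else `0`: sets of size `c'` in `link u`, `bs lu = 0` (for `u ∉ W`:
`bs lu W = ∑_{D ∉ W, D ≠ u} l (insert u (insert D W)) = bs l (insert u W) = 0`; for `u ∈ W` all terms are `0`). So `lu = bs p`, `p` on sets of size `c` in `link u`. `p' W = p (W.erase u)` if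
`u ∈ W`, else `0`. `bs p' W`: for `u ∉ W` only `D = u`: `p W`; for `u ∈ W`: `∑_{D ∉ W} p (insert D (W.erase u)) = bs p (W.erase u)` minus the term `D = u`, which is `p W = 0` (`u ∈ W`),
`= lu (W.erase u) = l W`. So `l + bs p'` vanishes on the sets which contain `u`, its support is in `L \ u` (for `u ∉ W` it is `l W + p W`), it is a cycle (`bs_bs`), so it is `bs w'`; take
`w = w' + p'`.
For `c = 0`: `AcycC 0 (L \ u) → AcycC 0 L`: a chain on sets of size `0` is supported on `∅`, which does not contain `u`.
-/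

set_option autoImplicit false
set_option linter.unusedSectionVars false

namespace H49.LS

open Finset
open scoped Classical

variable {α : Type} [Fintype α] [DecidableEq α]

private lemma acb_lu {l : Finset α → ZMod 2} (hl : bs l = 0) (u : α) :
    bs (fun W => if u ∈ W then 0 else l (insert u W)) = 0 := by
  funext W
  show ∑ D ∈ univ.filter (fun D => D ∉ W),
    (if u ∈ insert D W then (0 : ZMod 2) else l (insert u (insert D W))) = 0
  by_cases hu : u ∈ W
  · apply sum_eq_zero
    intro D _
    rw [if_pos (mem_insert_of_mem hu)]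
  · have h := congrFun hl (insert u W)
    change ∑ D ∈ univ.filter (fun D => D ∉ insert u W), l (insert D (insert u W)) = 0 at h
    have hsub : univ.filter (fun D => D ∉ insert u W) ⊆ univ.filter (fun D => D ∉ W) := by
      intro D hD
      rw [mem_filter] at hD ⊢
      exact ⟨mem_univ D, fun hW => hD.2 (mem_insert_of_mem hW)⟩
    rw [← sum_subset hsub, ← h]
    · apply sum_congr rfl
      intro D hD
      have hD' : D ∉ insert u W := (mem_filter.1 hD).2
      have hne : u ∉ insert D W := by
        rw [mem_insert]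
        rintro (h' | h')
        · exact hD' (by rw [h']; exact mem_insert_self _ _)
        · exact hu h'
      rw [if_neg hne, Finset.insert_comm]
    · intro D hD hD2
      have hDW : D ∉ W := (mem_filter.1 hD).2
      have hDu : D ∈ insert u W := by
        by_contra hn
        exact hD2 (mem_filter.2 ⟨mem_univ D, hn⟩)
      have hDe : D = u := by
        rcases mem_insert.1 hDu with h' | h'
        · exact h'
        · exact absurd h' hDW
      rw [if_pos]
      rw [hDe]
      exact mem_insert_self _ _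

private lemma acb_p1 {p : Finset α → ZMod 2} {u : α} (hp : ∀ W, u ∈ W → p W = 0)
    {W : Finset α} (hu : u ∈ W) :
    bs (fun W => if u ∈ W then p (W.erase u) else 0) W = bs p (W.erase u) := by
  show ∑ D ∈ univ.filter (fun D => D ∉ W),
      (if u ∈ insert D W then p ((insert D W).erase u) else 0) =
    ∑ D ∈ univ.filter (fun D => D ∉ W.erase u), p (insert D (W.erase u))
  have hsub : univ.filter (fun D => D ∉ W) ⊆ univ.filter (fun D => D ∉ W.erase u) := by
    intro D hD
    rw [mem_filter] at hD ⊢
    exact ⟨mem_univ D, fun hW => hD.2 (mem_of_mem_erase hW)⟩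
  rw [← sum_subset hsub]
  · apply sum_congr rfl
    intro D hD
    have hD' : D ∉ W := (mem_filter.1 hD).2
    have hne : D ≠ u := fun h' => hD' (by rw [h']; exact hu)
    rw [if_pos (mem_insert_of_mem hu), erase_insert_of_ne hne]
  · intro D hD hD2
    have h1 : D ∉ W.erase u := (mem_filter.1 hD).2
    have h2 : D ∈ W := by
      by_contra hn
      exact hD2 (mem_filter.2 ⟨mem_univ D, hn⟩)
    have hDe : D = u := by
      by_contra hn
      exact h1 (mem_erase.2 ⟨hn, h2⟩)
    rw [hDe, insert_erase hu]
    exact hp W hu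

private lemma acb_p0 {p : Finset α → ZMod 2} {u : α} {W : Finset α} (hu : u ∉ W) :
    bs (fun W => if u ∈ W then p (W.erase u) else 0) W = p W := by
  show ∑ D ∈ univ.filter (fun D => D ∉ W),
      (if u ∈ insert D W then p ((insert D W).erase u) else 0) = p W
  rw [sum_eq_single u]
  · rw [if_pos (mem_insert_self u W), erase_insert hu]
  · intro D _ hD
    apply if_neg
    rw [mem_insert]
    rintro (h' | h')
    · exact hD h'.symm
    · exact hu h'
  · intro h
    exact absurd (mem_filter.2 ⟨mem_univ u, hu⟩) h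

lemma acyc_remove {L : Finset α → Prop} (hL : Down L) (u : α) (c : ℕ)
    (h1 : AcycC (c + 1) fun W => L W ∧ u ∉ W) (h2 : AcycC c fun W => u ∉ W ∧ L (insert u W)) :
    AcycC (c + 1) L := by
  intro l hl hbl
  set lu : Finset α → ZMod 2 := fun W => if u ∈ W then 0 else l (insert u W) with hlu
  have hlu0 : bs lu = 0 := acb_lu hbl u
  have hlus : ∀ W, lu W ≠ 0 → (u ∉ W ∧ L (insert u W)) ∧ W.card = c := by
    intro W hW
    by_cases hu : u ∈ W
    · exact absurd (show lu W = 0 from if_pos hu) hW
    · have e : lu W = l (insert u W) := if_neg hu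
      rw [e] at hW
      obtain ⟨h3, h4⟩ := hl _ hW
      rw [card_insert_of_notMem hu] at h4
      exact ⟨⟨hu, h3⟩, by omega⟩
  obtain ⟨p, hp, hbp⟩ := h2 lu hlus hlu0
  have hp0 : ∀ W, u ∈ W → p W = 0 := by
    intro W hu
    by_contra hn
    exact (hp W hn).1.1 hu
  set p' : Finset α → ZMod 2 := fun W => if u ∈ W then p (W.erase u) else 0 with hp'
  have hA : ∀ W, u ∈ W → bs p' W = l W := by
    intro W hu
    rw [hp', acb_p1 hp0 hu, hbp]
    show (if u ∈ W.erase u then 0 else l (insert u (W.erase u))) = l W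
    rw [if_neg (notMem_erase u W), insert_erase hu]
  have hB : ∀ W, u ∉ W → bs p' W = p W := fun W hu => acb_p0 hu
  have hl' : ∀ W, (l + bs p') W ≠ 0 → (L W ∧ u ∉ W) ∧ W.card = c + 1 := by
    intro W hW
    rw [Pi.add_apply] at hW
    by_cases hu : u ∈ W
    · rw [hA W hu, CharTwo.add_self_eq_zero] at hW
      exact absurd rfl hW
    · rw [hB W hu] at hW
      by_cases h3 : l W = 0
      · have h4 : p W ≠ 0 := by
          intro h4
          rw [h3, h4, add_zero] at hW
          exact hW rfl
        obtain ⟨⟨_, h6⟩, h7⟩ := hp W h4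
        exact ⟨⟨hL _ _ (subset_insert u W) h6, hu⟩, h7⟩
      · obtain ⟨h4, h5⟩ := hl W h3
        exact ⟨⟨h4, hu⟩, h5⟩
  have hbl' : bs (l + bs p') = 0 := by
    rw [bs_add, hbl, bs_bs, add_zero]
  obtain ⟨w', hw', hbw'⟩ := h1 (l + bs p') hl' hbl'
  refine ⟨w' + p', ?_, ?_⟩
  · intro W hW
    rw [Pi.add_apply] at hW
    by_cases h3 : w' W = 0
    · rw [h3, zero_add] at hW
      by_cases hu : u ∈ W
      · have e : p' W = p (W.erase u) := if_pos hu
        rw [e] at hW
        obtain ⟨⟨_, h5⟩, h6⟩ := hp _ hW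
        rw [insert_erase hu] at h5
        refine ⟨h5, ?_⟩
        have h7 := card_erase_add_one hu
        omega
      · exact absurd (show p' W = 0 from if_neg hu) hW
    · obtain ⟨⟨h4, _⟩, h5⟩ := hw' W h3
      exact ⟨h4, h5⟩
  · rw [bs_add, hbw', add_assoc]
    funext W
    simp only [Pi.add_apply]
    rw [CharTwo.add_self_eq_zero, add_zero]

lemma acyc_remove0 {L : Finset α → Prop} (u : α) (h1 : AcycC 0 fun W => L W ∧ u ∉ W) : AcycC 0 L := by
  intro l hl hbl
  have hl' : ∀ W, l W ≠ 0 → (L W ∧ u ∉ W) ∧ W.card = 0 := by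
    intro W hW
    obtain ⟨h3, h4⟩ := hl W hW
    refine ⟨⟨h3, ?_⟩, h4⟩
    rw [card_eq_zero.1 h4]
    exact notMem_empty u
  obtain ⟨w, hw, hbw⟩ := h1 l hl' hbl
  exact ⟨w, fun W hW => ⟨(hw W hW).1.1, (hw W hW).2⟩, hbw⟩

end H49.LS
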