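import Pool.Agent.H49.LS.AcB

/-!
# Complexes with many independent good directions are acyclic

Induction on `c`, for all `L`, `𝓦`; inside, `v ∈ 𝓦` is fixed and the induction is on the number of `u ≠ v` with `L {u}` and `conf u v` (generalise `L`; `𝓦`, `v` stay). If there is no such
`u`: `cone` with apex `v` (`L W → L (insert v W)`: every `u ∈ W`, `u ≠ v`, has `L {u}` by `Down`, so `¬ conf u v`; `hgood`). Otherwise take such a `u`. `u ∉ 𝓦` (`hpair`). `L' W := L W ∧ u ∉ W`
is down-closed and has the same `𝓦` (`w ≠ u` for `w ∈ 𝓦`), and a smaller number of conflicting directions: `AcycC c L'` by the inner induction. `c = 0`: `acyc_remove0`. `c = c' + 1`: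
`link u` with `𝓦' = 𝓦.filter (¬ conf u ·)`, `|𝓦'| ≥ |𝓦| - β > β c'`: `hgood` for `w ∈ 𝓦'`, `W` in the link: `insert u W ∈ L`, `w` is not in conflict with `u` nor with the other members, so
`L (insert w (insert u W))`, and `u ∉ insert w W`. `hβ`: `L {u'}` by `Down`. Outer induction gives `AcycC c' (link u)`; `acyc_remove`.
-/

set_option autoImplicit false
set_option linter.unusedSectionVars false

namespace H49.LS

open Finset
open scoped Classical

variable {α : Type} [Fintype α] [DecidableEq α]

private lemma Acyc_inner (conf : α → α → Prop) (β c : ℕ) (𝓦 : Finset α) (v : α) (hv : v ∈ 𝓦)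
    (hpair : ∀ w ∈ 𝓦, ∀ w' ∈ 𝓦, w ≠ w' → ¬ conf w w') (hcard : β * c < 𝓦.card)
    (hout : ∀ c', c = c' + 1 → ∀ (L : Finset α → Prop), Down L → ∀ (𝓦 : Finset α),
      (∀ w ∈ 𝓦, ∀ W, L W → (∀ u ∈ W, u ≠ w → ¬ conf u w) → L (insert w W)) →
      (∀ w ∈ 𝓦, ∀ w' ∈ 𝓦, w ≠ w' → ¬ conf w w') →
      (∀ u, L {u} → (𝓦.filter fun w => conf u w).card ≤ β) →
      β * c' < 𝓦.card → AcycC c' L) :
    ∀ (N : ℕ) (L : Finset α → Prop), Down L →
      (∀ w ∈ 𝓦, ∀ W, L W → (∀ u ∈ W, u ≠ w → ¬ conf u w) → L (insert w W)) →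
      (∀ u, L {u} → (𝓦.filter fun w => conf u w).card ≤ β) →
      ∀ S : Finset α, (∀ u, u ≠ v → L {u} → conf u v → u ∈ S) → S.card ≤ N → AcycC c L := by
  intro N
  induction N with
  | zero =>
    intro L hL hgood hβ S hS hN
    have hem : S = ∅ := Finset.card_eq_zero.1 (Nat.le_zero.1 hN)
    refine cone hL (v := v) (fun W hW => hgood v hv W hW ?_) c
    intro u hu hne hc
    have hmem : u ∈ S := hS u hne (hL W {u} (Finset.singleton_subset_iff.2 hu) hW) hc
    rw [hem] at hmem
    exact absurd hmem (Finset.notMem_empty u)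
  | succ N ih =>
    intro L hL hgood hβ S hS hN
    by_cases hex : ∃ u, u ≠ v ∧ L {u} ∧ conf u v
    · obtain ⟨u, hne, hLu, hcu⟩ := hex
      have hu𝓦 : u ∉ 𝓦 := fun h => hpair u h v hv hne hcu
      have hr : AcycC c (fun W => L W ∧ u ∉ W) := by
        refine ih (fun W => L W ∧ u ∉ W) ?_ ?_ ?_ (S.erase u) ?_ ?_
        · intro W W' hs hW
          exact ⟨hL W W' hs hW.1, fun h => hW.2 (hs h)⟩
        · intro w hw W hW hh
          refine ⟨hgood w hw W hW.1 hh, ?_⟩
          intro h
          rcases Finset.mem_insert.1 h with h | h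
          · exact hu𝓦 (h ▸ hw)
          · exact hW.2 h
        · intro x hx
          exact hβ x hx.1
        · intro x hx hLx hcx
          refine Finset.mem_erase.2 ⟨?_, hS x hx hLx.1 hcx⟩
          intro h
          exact hLx.2 (Finset.mem_singleton.2 h.symm)
        · rw [Finset.card_erase_of_mem (hS u hne hLu hcu)]
          omega
      rcases Nat.eq_zero_or_pos c with hc | hc
      · subst hc
        exact acyc_remove0 u hr
      · obtain ⟨c', rfl⟩ : ∃ c', c = c' + 1 := ⟨c - 1, by omega⟩
        refine acyc_remove hL u c' hr ?_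
        have hsplit := Finset.card_filter_add_card_filter_not (s := 𝓦) (fun w => conf u w)
        have hb := hβ u hLu
        refine hout c' rfl (fun W => u ∉ W ∧ L (insert u W)) ?_ (𝓦.filter fun w => ¬ conf u w) ?_ ?_ ?_ ?_
        · intro W W' hs hW
          exact ⟨fun h => hW.1 (hs h), hL _ _ (Finset.insert_subset_insert u hs) hW.2⟩
        · intro w hw W hW hh
          have hw1 := (Finset.mem_filter.1 hw).1
          have hw2 := (Finset.mem_filter.1 hw).2
          refine ⟨?_, ?_⟩
          · intro h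
            rcases Finset.mem_insert.1 h with h | h
            · exact hu𝓦 (h ▸ hw1)
            · exact hW.1 h
          · rw [Finset.insert_comm]
            apply hgood w hw1 _ hW.2
            intro x hx hxw
            rcases Finset.mem_insert.1 hx with h | h
            · rw [h]
              exact hw2
            · exact hh x h hxw
        · intro w hw w' hw' hww
          exact hpair w (Finset.mem_filter.1 hw).1 w' (Finset.mem_filter.1 hw').1 hww
        · intro x hx
          refine le_trans (Finset.card_le_card ?_)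
            (hβ x (hL _ _ (Finset.subset_insert u {x}) hx.2))
          intro w hw
          have h1 := Finset.mem_filter.1 hw
          exact Finset.mem_filter.2 ⟨(Finset.mem_filter.1 h1.1).1, h1.2⟩
        · have h3 : β * (c' + 1) = β * c' + β := by ring
          omega
    · refine cone hL (v := v) (fun W hW => hgood v hv W hW ?_) c
      intro u hu hne hc
      exact hex ⟨u, hne, hL W {u} (Finset.singleton_subset_iff.2 hu) hW, hc⟩

theorem acyc (conf : α → α → Prop) (β c : ℕ) (L : Finset α → Prop) (hL : Down L) (𝓦 : Finset α)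
    (hgood : ∀ w ∈ 𝓦, ∀ W, L W → (∀ u ∈ W, u ≠ w → ¬ conf u w) → L (insert w W))
    (hpair : ∀ w ∈ 𝓦, ∀ w' ∈ 𝓦, w ≠ w' → ¬ conf w w')
    (hβ : ∀ u, L {u} → (𝓦.filter fun w => conf u w).card ≤ β)
    (hcard : β * c < 𝓦.card) : AcycC c L := by
  induction c generalizing L 𝓦 with
  | zero =>
    obtain ⟨v, hv⟩ := Finset.card_pos.1 (lt_of_le_of_lt (Nat.zero_le _) hcard)
    exact Acyc_inner conf β 0 𝓦 v hv hpair hcard (fun c' h => absurd h (by omega))
      (Finset.univ : Finset α).card L hL hgood hβ Finset.univ (fun u _ _ _ => Finset.mem_univ u) le_rfl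
  | succ c ih =>
    obtain ⟨v, hv⟩ := Finset.card_pos.1 (lt_of_le_of_lt (Nat.zero_le _) hcard)
    refine Acyc_inner conf β (c + 1) 𝓦 v hv hpair hcard ?_ (Finset.univ : Finset α).card L hL hgood hβ
      Finset.univ (fun u _ _ _ => Finset.mem_univ u) le_rfl
    intro c' h L' h1 𝓦' h2 h3 h4 h5
    obtain rfl : c = c' := by omega
    exact ih L' h1 𝓦' h2 h3 h4 h5

end H49.LS
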