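import Pool.Agent.H49.LS.FewD

/-!
# Bisections with `C √n` unsatisfied vertices

`K = Nat.sqrt n`. `n ≤ 1`: `A = ∅` if `n = 0`; `A = univ` if `n = 1` (no edges, nothing is unsatisfied). `n ≥ 2`: `1 ≤ K < n`, `n ≤ 3 K^2` (`Nat.sqrt_le_add`). `fewD` with `s = r = 1`, `W 0 = univ`:
`X`, `E`, `|E| ≤ (d+1)^2 K`, `K |mag X| ≤ 2 e + K^2 ≤ d n + K^2 ≤ (3 d + 1) K^2` (`th univ X = mag X`, `mag_eq`), so `|mag X| ≤ (3 d + 1) K`. The unsatisfied vertices of `X` (`Uns`) are in `E`: if
`v ∉ E` then `cut X ≤ cut (X ∆ {v})` (see `H97.Int`: how `cut` changes if a vertex is flipped, or `cut_flip_set`, `W_single`). `balance`: `uns A ≤ (d+1)^2 K + (d+1)(3 d+1) K ≤ 4 (d+1)^2 K`.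
-/

set_option autoImplicit false
set_option linter.unusedSectionVars false

namespace H49.LS

open Finset H97.Int H49.NB
open scoped Classical symmDiff

variable {V : Type} [Fintype V] [DecidableEq V] (G : SimpleGraph V) [DecidableRel G.Adj]

/-- flipping an unsatisfied vertex lowers the cut -/
lemma uns_iff (A : Finset V) (v : V) : Uns G A v ↔ H49.NB.W G A {v} < 0 := by
  have key : ∑ u, adj G v u * spin A u = nin G v A - nin G v Aᶜ := by
    rw [← Finset.sum_add_sum_compl A]
    have h1 : ∑ u ∈ A, adj G v u * spin A u = nin G v A := by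
      unfold nin E
      rw [Finset.sum_singleton]
      refine Finset.sum_congr rfl fun u hu => ?_
      simp [spin, hu]
    have h2 : ∑ u ∈ Aᶜ, adj G v u * spin A u = - nin G v Aᶜ := by
      unfold nin E
      rw [Finset.sum_singleton, ← Finset.sum_neg_distrib]
      refine Finset.sum_congr rfl fun u hu => ?_
      simp [spin, Finset.mem_compl.1 hu]
    rw [h1, h2]
    ring
  rw [W_single, key]
  unfold Uns
  by_cases hv : v ∈ A
  · simp [spin, hv]
  · simp [spin, hv]

theorem bis {d : ℕ} (hd : ∀ v, G.degree v ≤ d) :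
    ∃ A : Finset V, imb A ≤ 1 ∧ uns G A ≤ 4 * (d + 1) ^ 2 * Nat.sqrt (Fintype.card V) := by
  rcases Nat.lt_or_ge 1 (Fintype.card V) with hn | hn
  · set n := Fintype.card V with hndef
    set K := Nat.sqrt n with hK
    have hK1 : 1 ≤ K := Nat.sqrt_pos.2 (by omega)
    have hKn : K < n := Nat.sqrt_lt_self hn
    obtain ⟨X, E, hE, hth, hQ⟩ := fewD G (s := 1) (r := 1) (K := K) (W := fun _ => univ) hd le_rfl
      le_rfl hK1 (by simpa using hKn) (fun i hi j hj hij => absurd (by omega) hij)
    have hmag : th univ X = mag X := by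
      unfold th
      rw [mag_eq, Finset.inter_univ]
      rfl
    have hdeg : 2 * G.edgeFinset.card ≤ d * n := by
      rw [← G.sum_degrees_eq_twice_card_edges]
      calc ∑ v, G.degree v ≤ ∑ _v : V, d := Finset.sum_le_sum fun v _ => hd v
        _ = d * n := by rw [Finset.sum_const, smul_eq_mul, Finset.card_univ, mul_comm]
    have hn3 : n ≤ 3 * K ^ 2 := by
      have := Nat.sqrt_le_add n
      rw [← hK] at this
      nlinarith
    have hm : |mag X| ≤ (3 * d + 1) * K := by
      rw [Finset.sum_range_one, hmag] at hth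
      have h1 : ((2 * 1 * G.edgeFinset.card + 1 * (1 * K) ^ 2 : ℕ) : ℤ) ≤ (K : ℤ) * ((3 * d + 1) * K) := by
        have h2 : 2 * 1 * G.edgeFinset.card + 1 * (1 * K) ^ 2 ≤ K * ((3 * d + 1) * K) := by
          have h3 : d * n ≤ d * (3 * K ^ 2) := Nat.mul_le_mul_left _ hn3
          nlinarith
        exact_mod_cast h2
      have hK0 : (0 : ℤ) < K := by exact_mod_cast hK1
      exact le_of_mul_le_mul_left (hth.trans h1) hK0
    have huns : uns G X ≤ (d + 1) ^ 2 * K := by
      have h1 : (univ.filter fun v => Uns G X v) ⊆ E := by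
        intro v hv
        by_contra hvE
        have h2 := hQ {v} (by simp) (Finset.disjoint_singleton_left.2 hvE)
        rw [H49.NB.cut_flip_set] at h2
        have h3 := (uns_iff G X v).1 (Finset.mem_filter.1 hv).2
        linarith
      have h2 := Finset.card_le_card h1
      calc uns G X = (univ.filter fun v => Uns G X v).card := rfl
        _ ≤ E.card := h2
        _ ≤ _ := hE
        _ = (d + 1) ^ 2 * K := by ring
    obtain ⟨A, hA1, hA2⟩ := balance G hd X
    refine ⟨A, hA1, ?_⟩
    have h1 : (uns G A : ℤ) ≤ ((4 * (d + 1) ^ 2 * K : ℕ) : ℤ) := by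
      have h2 : (uns G X : ℤ) ≤ (((d + 1) ^ 2 * K : ℕ) : ℤ) := by exact_mod_cast huns
      have h3 : ((d : ℤ) + 1) * |mag X| ≤ ((d : ℤ) + 1) * ((3 * d + 1) * K) :=
        mul_le_mul_of_nonneg_left hm (by positivity)
      push_cast at h2 ⊢
      have h4 : (0 : ℤ) ≤ (d : ℤ) * K := by positivity
      have h5 : (0 : ℤ) ≤ (K : ℤ) := by positivity
      nlinarith
    exact_mod_cast h1
  · have hsub : Subsingleton V := Fintype.card_le_one_iff_subsingleton.1 hn
    refine ⟨univ, ?_, ?_⟩
    · unfold imb
      rw [Finset.compl_univ, Finset.card_empty, Finset.card_univ, abs_le]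
      constructor <;> push_cast <;> omega
    · have h0 : uns G univ = 0 := by
        unfold uns
        rw [Finset.card_eq_zero, Finset.filter_eq_empty_iff]
        intro v _ hU
        have hz : ∀ S : Finset V, nin G v S = 0 := fun S => by
          rw [nin_eq_zero_iff]
          intro u _ h
          exact G.loopless.irrefl v (by rwa [Subsingleton.elim u v] at h)
        unfold Uns at hU
        rw [hz, hz] at hU
        omega
      rw [h0]
      exact Nat.zero_le _

end H49.LS
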