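import Pool.Agent.H49.LS.Defs

/-!
# Chains (1): linearity, `bd ∘ bd = 0`, supports

`bd_add`, `nu_add`: `Finset.sum_add_distrib`, `rfl`. `nu_nu`: `compl_compl`. `bd_nu`: `rfl`. `cadd_self`: `CharTwo.add_self_eq_zero`. `bd_bd`: the double sum over `D ∉ W`, `D' ∉ insert D W` of
`c A (insert D' (insert D W))`: the involution which swaps `D` and `D'` has no fixed point (`Finset.sum_sigma'` and `Finset.sum_involution`, or: write it as the sum over all pairs `(D, D')` with
`D, D' ∉ W`, `D ≠ D'` of `c A (insert D' (insert D W))`, and use `Finset.Insert.comm`). `isCh_add`: where the sum is not `0` one of the two is not `0`. `isCh_bd`: `inv`: `D ∈ W` implies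
`D ∈ insert D' W`; `sup`: if the sum is not `0` some term `c A (insert D W) ≠ 0` with `D ∉ W` (`Finset.exists_ne_zero_of_sum_ne_zero`), `Adm` is inherited by subsets, `card_insert_of_notMem`.
`isCh_nu`: `(A ∆ D)ᶜ = Aᶜ ∆ D`. `spt_*`: same.
-/

set_option autoImplicit false
set_option linter.unusedSectionVars false

namespace H49.LS

open Finset
open scoped Classical symmDiff

variable {V : Type} [Fintype V] [DecidableEq V]

lemma compl_symmDiff' (A D : Finset V) : (A ∆ D)ᶜ = Aᶜ ∆ D := by
  ext x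
  simp only [Finset.mem_compl, Finset.mem_symmDiff]
  tauto

lemma adm_mono {s : ℕ} {W W' : Finset (Finset V)} (h : W' ⊆ W) (hW : Adm s W) : Adm s W' := by
  exact ⟨fun D hD => hW.1 D (h hD), fun D hD D' hD' => hW.2 D (h hD) D' (h hD')⟩

lemma cadd_self (c : Ch V) : c + c = 0 := by
  funext A W
  exact CharTwo.add_self_eq_zero _

/-- cancel in characteristic two -/
lemma cadd_eq {a b c : Ch V} (h : a + b = c) : a = b + c := by
  rw [← h, add_comm a b, ← add_assoc, cadd_self, zero_add]

lemma bd_add (a b : Ch V) : bd (a + b) = bd a + bd b := by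
  funext A W
  exact Finset.sum_add_distrib

lemma bd_zero : bd (0 : Ch V) = 0 := by
  funext A W
  exact Finset.sum_eq_zero fun _ _ => rfl

lemma nu_add (a b : Ch V) : nu (a + b) = nu a + nu b := by
  rfl

lemma nu_nu (c : Ch V) : nu (nu c) = c := by
  funext A W
  simp only [nu, compl_compl]

lemma bd_nu (c : Ch V) : bd (nu c) = nu (bd c) := by
  rfl

lemma bd_bd (c : Ch V) : bd (bd c) = 0 := by
  funext A W
  show ∑ D ∈ univ.filter (fun D => D ∉ W), ∑ D' ∈ univ.filter (fun D' => D' ∉ insert D W),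
    c A (insert D' (insert D W)) = 0
  rw [Finset.sum_sigma']
  refine Finset.sum_involution (fun x _ => ⟨x.2, x.1⟩) ?_ ?_ ?_ ?_
  · rintro ⟨D, D'⟩ hx
    dsimp only
    rw [Finset.insert_comm D D' W]
    exact CharTwo.add_self_eq_zero _
  · rintro ⟨D, D'⟩ hx _ h
    simp only [Finset.mem_sigma, Finset.mem_filter, Finset.mem_univ, true_and,
      Finset.mem_insert, not_or] at hx
    have h1 : D' = D := congrArg (fun z : (_ : Finset V) × Finset V => z.1) h
    exact hx.2.1 h1
  · rintro ⟨D, D'⟩ hx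
    simp only [Finset.mem_sigma, Finset.mem_filter, Finset.mem_univ, true_and,
      Finset.mem_insert, not_or] at hx ⊢
    exact ⟨hx.2.2, fun h => hx.2.1 h.symm, hx.1⟩
  · rintro ⟨D, D'⟩ hx
    rfl

/-- `c + nu c` is symmetric -/
lemma nu_sym (c : Ch V) : nu (c + nu c) = c + nu c := by
  rw [nu_add, nu_nu, add_comm]

lemma isCh_add {s j : ℕ} {a b : Ch V} (ha : IsCh s j a) (hb : IsCh s j b) : IsCh s j (a + b) := by
  refine ⟨fun A W D hD => ?_, fun A W h => ?_⟩
  · show a (A ∆ D) W + b (A ∆ D) W = a A W + b A W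
    rw [ha.inv A W D hD, hb.inv A W D hD]
  · by_cases h1 : a A W = 0
    · refine hb.sup A W fun h2 => h ?_
      show a A W + b A W = 0
      rw [h1, h2, add_zero]
    · exact ha.sup A W h1

lemma isCh_bd {s j : ℕ} {c : Ch V} (hc : IsCh s (j + 1) c) : IsCh s j (bd c) := by
  refine ⟨fun A W D hD => ?_, fun A W h => ?_⟩
  · exact Finset.sum_congr rfl fun D' _ => hc.inv A _ D (Finset.mem_insert_of_mem hD)
  · obtain ⟨D, hD, hne⟩ := Finset.exists_ne_zero_of_sum_ne_zero h
    rw [Finset.mem_filter] at hD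
    obtain ⟨h1, h2⟩ := hc.sup A _ hne
    refine ⟨adm_mono (Finset.subset_insert D W) h1, ?_⟩
    rw [Finset.card_insert_of_notMem hD.2] at h2
    omega

lemma isCh_nu {s j : ℕ} {c : Ch V} (hc : IsCh s j c) : IsCh s j (nu c) := by
  refine ⟨fun A W D hD => ?_, fun A W h => hc.sup _ W h⟩
  show c (A ∆ D)ᶜ W = c Aᶜ W
  rw [compl_symmDiff', hc.inv _ W D hD]

lemma spt_add {P : Finset V → Prop} {a b : Ch V} (ha : Spt P a) (hb : Spt P b) : Spt P (a + b) := by
  intro A W h
  by_cases h1 : a A W = 0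
  · refine hb A W fun h2 => h ?_
    show a A W + b A W = 0
    rw [h1, h2, add_zero]
  · exact ha A W h1

lemma spt_bd {P : Finset V → Prop} {c : Ch V} (hc : Spt P c) : Spt P (bd c) := by
  intro A W h
  obtain ⟨D, _, hne⟩ := Finset.exists_ne_zero_of_sum_ne_zero h
  exact hc A _ hne

lemma spt_nu {P : Finset V → Prop} (hP : Sym P) {c : Ch V} (hc : Spt P c) : Spt P (nu c) := by
  intro A W h
  have h1 := hP _ (hc _ W h)
  rwa [compl_compl] at h1

lemma spt_mono {P Q : Finset V → Prop} (h : ∀ A, P A → Q A) {c : Ch V} (hc : Spt P c) : Spt Q c := by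
  exact fun A W hne => h A (hc A W hne)

lemma spt_true (c : Ch V) : Spt (fun _ => True) c := by
  exact fun _ _ _ => trivial

end H49.LS
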