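import Pool.Agent.H49.LS.ChA

/-!
# Chains (2): corners, counting states, towers

`un_insert`, `card_un_le`: `Finset.biUnion_insert`, `Finset.card_biUnion_le`. `spt_corner`: `un T` is the symmetric difference of the members of `T ⊆ W`; induction on `T`
(`Finset.induction_on` inside `W`, the members are disjoint by `Adm`, so `un (insert D T) = un T ∆ D`), using `inv`. `sum_bd_zero`: `∑_A (bd g) A ∅ = ∑_D ∑_A g A {D}`; for every `D` the inner
sum is `0`: if `g A {D} ≠ 0` for some `A`, then `D` is nonempty (`sup`), and `A ↦ A ∆ D` is an involution without fixed points which keeps `g A {D}` (`Finset.sum_involution`).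
`sum_sym_zero`: `∑_A g Aᶜ ∅ = ∑_A g A ∅` (`Equiv.sum_comp` with complement) and `x + x = 0`. `hasT_mono`, `not_hasT_false`: in a tower supported on `False`, `h 0 A ∅ = 0` for all `A`.
`top_cycle`: `bd (h_(m+1) + nu h_(m+1)) = (h_m + nu h_m) + nu (h_m + nu h_m) = 0`.
-/

set_option autoImplicit false
set_option linter.unusedSectionVars false

namespace H49.LS

open Finset
open scoped Classical symmDiff

variable {V : Type} [Fintype V] [DecidableEq V]

lemma un_empty : un (∅ : Finset (Finset V)) = ∅ := by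
  simp [un]

lemma un_insert (D : Finset V) (W : Finset (Finset V)) : un (insert D W) = D ∪ un W := by
  simp [un, Finset.biUnion_insert]

lemma sub_un {D : Finset V} {W : Finset (Finset V)} (h : D ∈ W) : D ⊆ un W := by
  intro x hx
  exact Finset.mem_biUnion.2 ⟨D, h, hx⟩

lemma un_mono {T W : Finset (Finset V)} (h : T ⊆ W) : un T ⊆ un W := by
  intro x hx
  obtain ⟨D, hD, hxD⟩ := Finset.mem_biUnion.1 hx
  exact Finset.mem_biUnion.2 ⟨D, h hD, hxD⟩

lemma card_un_le {s : ℕ} {W : Finset (Finset V)} (h : Adm s W) : (un W).card ≤ s * W.card := by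
  rw [Nat.mul_comm]
  exact Finset.card_biUnion_le_card_mul W id s (fun D hD => (h.1 D hD).2)

/-- `insert D T` is admissible: the union is a symmetric difference -/
lemma un_insert_symmDiff {s : ℕ} {D : Finset V} {T : Finset (Finset V)} (h : Adm s (insert D T)) (hD : D ∉ T) :
    un (insert D T) = un T ∆ D := by
  rw [un_insert]
  have hd : Disjoint (un T) D := by
    rw [Finset.disjoint_left]
    intro x hx hxD
    obtain ⟨D', hD', hxD'⟩ := Finset.mem_biUnion.1 hx
    have hne : D' ≠ D := fun e => hD (e ▸ hD')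
    exact Finset.disjoint_left.1 (h.2 D' (Finset.mem_insert_of_mem hD') D (Finset.mem_insert_self _ _) hne) hxD' hxD
  rw [hd.symmDiff_eq_sup]
  exact Finset.union_comm _ _

lemma corner_eq {s j : ℕ} {c : Ch V} (hc : IsCh s j c) {A : Finset V} {W T : Finset (Finset V)} (hT : T ⊆ W)
    (hW : Adm s W) : c (A ∆ un T) W = c A W := by
  revert hT
  induction T using Finset.induction_on with
  | empty =>
    intro _
    rw [un_empty]
    congr 1
    exact symmDiff_bot A
  | insert D T hD ih =>
    intro hT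
    have hT' : T ⊆ W := fun x hx => hT (Finset.mem_insert_of_mem hx)
    rw [un_insert_symmDiff (adm_mono hT hW) hD, ← symmDiff_assoc,
      hc.inv _ W D (hT (Finset.mem_insert_self _ _))]
    exact ih hT'

lemma sum_bd_zero {s : ℕ} {g : Ch V} (hg : IsCh s 1 g) : ∑ A, bd g A ∅ = 0 := by
  unfold bd
  rw [Finset.sum_comm]
  refine Finset.sum_eq_zero fun D _ => ?_
  by_cases hD : D.Nonempty
  · refine Finset.sum_involution (fun A _ => A ∆ D) ?_ ?_ ?_ ?_
    · intro A _
      rw [hg.inv A _ D (Finset.mem_insert_self _ _)]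
      exact CharTwo.add_self_eq_zero _
    · intro A _ _ he
      have h1 : A ∆ (A ∆ D) = A ∆ A := by rw [he]
      rw [symmDiff_symmDiff_cancel_left, symmDiff_self] at h1
      exact hD.ne_empty h1
    · intro A _
      exact Finset.mem_univ _
    · intro A _
      exact symmDiff_symmDiff_cancel_right D A
  · refine Finset.sum_eq_zero fun A _ => ?_
    by_contra h
    exact hD ((hg.sup A _ h).1.1 D (Finset.mem_insert_self _ _)).1

lemma sum_sym_zero (g : Ch V) : ∑ A, (g + nu g) A ∅ = 0 := by
  have h1 : ∀ A, (g + nu g) A ∅ = g A ∅ + g Aᶜ ∅ := fun A => rfl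
  simp_rw [h1]
  rw [Finset.sum_add_distrib]
  have h2 : ∑ A : Finset V, g Aᶜ ∅ = ∑ A : Finset V, g A ∅ :=
    Equiv.sum_comp (⟨fun A => Aᶜ, fun A => Aᶜ, fun A => compl_compl A, fun A => compl_compl A⟩ : Finset V ≃ Finset V)
      (fun A => g A ∅)
  rw [h2]
  exact CharTwo.add_self_eq_zero _

lemma hasT_mono {s m : ℕ} {P Q : Finset V → Prop} (h : ∀ A, P A → Q A) (ht : HasT s m P) : HasT s m Q := by
  obtain ⟨g, hg⟩ := ht
  exact ⟨g, hg.ch, hg.one, hg.bdy, fun i hi => spt_mono h (hg.spt i hi)⟩

lemma not_hasT_false {s m : ℕ} : ¬ HasT (V := V) s m (fun _ => False) := by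
  rintro ⟨g, hg⟩
  have h0 : ∑ A, g 0 A ∅ = 0 := by
    refine Finset.sum_eq_zero fun A _ => ?_
    by_contra h
    exact hg.spt 0 (Nat.zero_le _) A ∅ h
  rw [hg.one] at h0
  exact one_ne_zero h0

lemma hasT_le {s m m' : ℕ} (hm : m' ≤ m) {P : Finset V → Prop} (ht : HasT s m P) : HasT s m' P := by
  obtain ⟨g, hg⟩ := ht
  exact ⟨g, fun i hi => hg.ch i (hi.trans hm), hg.one, fun i hi => hg.bdy i (lt_of_lt_of_le hi hm),
    fun i hi => hg.spt i (hi.trans hm)⟩

/-- the top of a tower is a symmetric cycle -/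
lemma top_cycle {s m : ℕ} {P : Finset V → Prop} {h : ℕ → Ch V} (ht : Tow s (m + 1) P h) :
    bd (h (m + 1) + nu (h (m + 1))) = 0 := by
  rw [bd_add, bd_nu, ht.bdy m (Nat.lt_succ_self m), nu_sym]
  exact cadd_self _

end H49.LS
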