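import Pool.Agent.H49.LS.Star
import Pool.Agent.H49.LS.Acyc

/-!
# Far families of improvable moves are small when the link is not acyclic

`acyc` with `conf u w := ¬ Disjoint u (N w)`, `β`: for a move `u` with `|u| ≤ s` at most `β` members `w` of a far family have `¬ Disjoint u (N w)` (hypothesis `hβ`). `hpair` from `Far`.
`L {u}` means that `{u}` is in the link, so `u` is nonempty, `|u| ≤ s`.
`far_max`: take a far family with the largest number of members (`∅` is far; there are finitely many families). If `|Q| ≤ s`, `Q` is disjoint from `⋃ N D` and `H (τ ∆ Q) < H τ`, then `Q` is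
nonempty and improvable, `Q ∉ 𝓦` (otherwise `Q ⊆ N Q ⊆ ⋃ N D`), and `insert Q 𝓦` is far (`swp`).
-/

set_option autoImplicit false
set_option linter.unusedSectionVars false

namespace H49.LS

open Finset
open scoped Classical symmDiff

variable {V : Type} [Fintype V] [DecidableEq V]

theorem far_card {s a β j : ℕ} {N : Finset V → Finset V} {H : Finset V → ℕ} (hH : Loc N H) {F : Finset V → ℕ}
    (hF : ∀ A D, D.card ≤ s → H (A ∆ D) < H A → F (A ∆ D) < F A) {τ : Finset V}
    (hβ : ∀ 𝓦 : Finset (Finset V), Far N s H τ 𝓦 → ∀ u : Finset V, u.card ≤ s →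
      (𝓦.filter fun w => ¬ Disjoint u (N w)).card ≤ β)
    (hac : ¬ AcycC j (LL s (fun A => H A < a) (ky F) τ)) {𝓦 : Finset (Finset V)} (h𝓦 : Far N s H τ 𝓦) :
    𝓦.card ≤ β * j := by
  by_contra hlt
  push Not at hlt
  refine hac (acyc (fun u w => ¬ Disjoint u (N w)) β j _ (down_LL s _ _ τ) 𝓦 ?_ ?_ ?_ hlt)
  · intro w hw W hW hc
    exact good_imp hH hF (h𝓦.1 w hw) hW fun u hu hne => not_not.1 (hc u hu hne)
  · intro w hw w' hw' hne h
    exact h (h𝓦.2 w' hw' w hw hne.symm)
  · intro u hu
    have h1 : u.card ≤ s := (hu.1.1 u (Finset.mem_singleton_self u)).2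
    have h2 := hβ 𝓦 h𝓦 u h1
    convert h2

/-- a maximal far family: every small set which avoids `⋃ N D` is not improvable -/
theorem far_max (s : ℕ) {N : Finset V → Finset V} {H : Finset V → ℕ} (hH : Loc N H) (τ : Finset V) :
    ∃ 𝓦 : Finset (Finset V), Far N s H τ 𝓦 ∧ ∀ Q : Finset V, Q.card ≤ s → Disjoint Q (𝓦.biUnion N) →
      H τ ≤ H (τ ∆ Q) := by
  have hne : (univ.filter fun 𝓦 : Finset (Finset V) => Far N s H τ 𝓦).Nonempty :=
    ⟨∅, Finset.mem_filter.2 ⟨Finset.mem_univ _, fun D hD => absurd hD (Finset.notMem_empty D),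
      fun D hD => absurd hD (Finset.notMem_empty D)⟩⟩
  obtain ⟨𝓦, h𝓦, hmax⟩ := Finset.exists_max_image _ (fun 𝓦 : Finset (Finset V) => 𝓦.card) hne
  have hfar : Far N s H τ 𝓦 := (Finset.mem_filter.1 h𝓦).2
  refine ⟨𝓦, hfar, ?_⟩
  intro Q hQs hQ
  by_contra hlt
  push Not at hlt
  have hQne : Q.Nonempty := by
    rw [Finset.nonempty_iff_ne_empty]
    intro h0
    rw [h0] at hlt
    have h1 : τ ∆ (∅ : Finset V) = τ := symmDiff_bot τ
    rw [h1] at hlt
    exact lt_irrefl _ hlt
  have hdis : ∀ D ∈ 𝓦, Disjoint Q (N D) := fun D hD =>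
    Disjoint.mono_right (Finset.subset_biUnion_of_mem N hD) hQ
  have hQW : Q ∉ 𝓦 := by
    intro h
    have h1 : Disjoint Q Q := Disjoint.mono_right (hH.sub Q) (hdis Q h)
    exact hQne.ne_empty (disjoint_self.1 h1)
  have hfar' : Far N s H τ (insert Q 𝓦) := by
    refine ⟨?_, ?_⟩
    · intro D hD
      rcases Finset.mem_insert.1 hD with h | h
      · rw [h]
        exact ⟨hQne, hQs, hlt⟩
      · exact hfar.1 D h
    · intro D hD D' hD' hne'
      rcases Finset.mem_insert.1 hD with h | h
      · rcases Finset.mem_insert.1 hD' with h' | h'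
        · exact absurd (h.trans h'.symm) hne'
        · rw [h]
          exact hH.swp D' Q (hdis D' h')
      · rcases Finset.mem_insert.1 hD' with h' | h'
        · rw [h']
          exact hdis D h
        · exact hfar.2 D h D' h' hne'
  have h1 := hmax _ (Finset.mem_filter.2 ⟨Finset.mem_univ _, hfar'⟩)
  simp only [Finset.card_insert_of_notMem hQW] at h1
  omega

end H49.LS
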