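import Pool.Agent.H49.LS.CutL

/-!
# From few defects to no defects: pieces

`crs G P ℓ` = number of ordered pairs of adjacent vertices of `P` with different labels. `W_classes`: `∑_i W A (P_i) = ∑_{u ∈ P} ∑_{v ∉ P_{ℓ u}} adj u v spin u spin v` where `P_i = P.filter (ℓ = i)`;
this is `W A P + ∑_{u, v ∈ P, ℓ u ≠ ℓ v} adj u v spin u spin v ≤ W A P + crs G P ℓ`.
`completeC`: as in `ExA` (same choice of `σ`); for `P = A ∆ σ'` with `|P| = M`, `W A P ≤ - g M`: take `ℓ` for `P`. `P' = P \ U`: the classes of `P'` have at most `s` vertices and avoid `U`, so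
`W A P' ≥ - crs P' ℓ ≥ - crs P ℓ ≥ - (g - 2 δ) M`. `W A P ≥ W A P' + W A (P ∩ U) - 2 E P' (P ∩ U)` (`W_union_ge`), `W A (P ∩ U) ≥ - d |U|` (`W_ge`), `E P' (P ∩ U) = E (P ∩ U) P' ≤ d |U|`.
So `g M ≤ (g - 2 δ) M + 3 d |U|`, against `3 d |U| < 2 δ M`.
-/

set_option autoImplicit false
set_option linter.unusedSectionVars false

namespace H49.LS

open Finset H97.Int H49.NB
open scoped Classical symmDiff

variable {V : Type} [Fintype V] [DecidableEq V] (G : SimpleGraph V) [DecidableRel G.Adj]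

/-- ordered pairs of adjacent vertices of `P` with different labels -/
noncomputable def crs (P : Finset V) (ℓ : V → ℕ) : ℤ := ∑ u ∈ P, ∑ v ∈ P, if ℓ u ≠ ℓ v then adj G u v else 0

private lemma ExC_spin (A : Finset V) (u v : V) : adj G u v * (spin A u * spin A v) ≤ adj G u v := by
  have h0 := adj_nonneg G u v
  have h1 : spin A u * spin A v = 1 ∨ spin A u * spin A v = -1 := by
    unfold spin
    split_ifs <;> simp
  rcases h1 with h1 | h1 <;> rw [h1] <;> linarith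

private lemma ExC_key (A P : Finset V) (ℓ : V → ℕ) (u : V) :
    ∑ v ∈ (P.filter fun v => ℓ v = ℓ u)ᶜ, adj G u v * (spin A u * spin A v) ≤
      ∑ v ∈ Pᶜ, adj G u v * (spin A u * spin A v) +
        ∑ v ∈ P, (if ℓ u ≠ ℓ v then adj G u v else 0) := by
  have h1 : (P.filter fun v => ℓ v = ℓ u)ᶜ = Pᶜ ∪ P.filter (fun v => ℓ u ≠ ℓ v) := by
    ext x
    simp only [mem_compl, mem_filter, mem_union]
    by_cases hx : x ∈ P
    · simp only [hx, true_and, not_true_eq_false, false_or]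
      exact ⟨fun h h' => h h'.symm, fun h h' => h h'.symm⟩
    · simp only [hx, false_and, not_false_eq_true, true_or]
  have h2 : Disjoint Pᶜ (P.filter (fun v => ℓ u ≠ ℓ v)) := by
    rw [Finset.disjoint_left]
    intro x hx hx'
    exact (mem_compl.1 hx) (mem_filter.1 hx').1
  rw [h1, Finset.sum_union h2, Finset.sum_filter]
  refine add_le_add le_rfl (Finset.sum_le_sum fun v _ => ?_)
  split_ifs with h3
  · exact ExC_spin G A u v
  · exact le_rfl

lemma W_classes (A P : Finset V) (ℓ : V → ℕ) :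
    ∑ i ∈ P.image ℓ, W G A (P.filter fun v => ℓ v = i) - crs G P ℓ ≤ W G A P := by
  have h1 : ∑ i ∈ P.image ℓ, W G A (P.filter fun v => ℓ v = i) =
      ∑ u ∈ P, ∑ v ∈ (P.filter fun v => ℓ v = ℓ u)ᶜ, adj G u v * (spin A u * spin A v) := by
    rw [← Finset.sum_fiberwise_of_maps_to (s := P) (t := P.image ℓ) (g := ℓ)
      (fun x hx => Finset.mem_image_of_mem ℓ hx)]
    refine Finset.sum_congr rfl fun i _ => ?_
    unfold W
    refine Finset.sum_congr rfl fun u hu => ?_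
    rw [(mem_filter.1 hu).2]
  have h2 : ∑ u ∈ P, ∑ v ∈ (P.filter fun v => ℓ v = ℓ u)ᶜ, adj G u v * (spin A u * spin A v) ≤
      W G A P + crs G P ℓ := by
    unfold W crs
    rw [← Finset.sum_add_distrib]
    exact Finset.sum_le_sum fun u _ => ExC_key G A P ℓ u
  rw [h1]
  linarith

lemma crs_mono {P' P : Finset V} (h : P' ⊆ P) (ℓ : V → ℕ) : crs G P' ℓ ≤ crs G P ℓ := by
  have h0 : ∀ u v, 0 ≤ (if ℓ u ≠ ℓ v then adj G u v else 0) := by
    intro u v
    split_ifs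
    · exact adj_nonneg G u v
    · exact le_rfl
  unfold crs
  calc ∑ u ∈ P', ∑ v ∈ P', (if ℓ u ≠ ℓ v then adj G u v else 0)
      ≤ ∑ u ∈ P', ∑ v ∈ P, (if ℓ u ≠ ℓ v then adj G u v else 0) :=
        Finset.sum_le_sum fun u _ => Finset.sum_le_sum_of_subset_of_nonneg h fun v _ _ => h0 u v
    _ ≤ _ := Finset.sum_le_sum_of_subset_of_nonneg h
        fun u _ _ => Finset.sum_nonneg fun v _ => h0 u v

theorem completeC {d g s M : ℕ} {δ : ℝ} (hd : ∀ v, G.degree v ≤ d) {A U : Finset V}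
    (hA : ∀ Q : Finset V, Q.card ≤ s → Disjoint Q U → 0 ≤ W G A Q)
    (hgain : ∀ σ : Finset V, ∀ v, W G σ {v} < 0 → W G σ {v} ≤ -(g : ℤ))
    (hcut : ∀ P : Finset V, P.card ≤ M → ∃ ℓ : V → ℕ, (∀ i, (P.filter fun v => ℓ v = i).card ≤ s) ∧
      (crs G P ℓ : ℝ) ≤ (g - 2 * δ) * P.card)
    (hM : 3 * (d : ℝ) * U.card < 2 * δ * M) (hM1 : 1 ≤ M) :
    ∃ B : Finset V, (A ∆ B).card ≤ M ∧ ∀ v, 0 ≤ W G B {v} := by
  obtain ⟨S, hS⟩ : ∃ S : Finset (Finset V), S = Finset.univ.filter fun σ =>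
    (A ∆ σ).card < M ∧ cut G σ + g * ((A ∆ σ).card : ℤ) ≤ cut G A := ⟨_, rfl⟩
  have hmem : ∀ σ, σ ∈ S ↔ (A ∆ σ).card < M ∧ cut G σ + g * ((A ∆ σ).card : ℤ) ≤ cut G A := by
    intro σ
    rw [hS, mem_filter]
    simp
  have hAS : A ∈ S := by
    rw [hmem, symmDiff_self]
    simp only [Finset.bot_eq_empty, card_empty, Nat.cast_zero, mul_zero, add_zero]
    exact ⟨hM1, le_rfl⟩
  obtain ⟨σ, hσS, hmin⟩ := S.exists_min_image (fun σ => cut G σ) ⟨A, hAS⟩
  obtain ⟨h1, h2⟩ := (hmem σ).1 hσS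
  refine ⟨σ, h1.le, fun v => ?_⟩
  by_contra hneg
  have hneg' : W G σ {v} < 0 := not_le.1 hneg
  have hg := hgain σ v hneg'
  have hcs : cut G (σ ∆ {v}) = cut G σ + W G σ {v} := cut_flip_set G σ {v}
  have hcard : (A ∆ (σ ∆ {v})).card ≤ (A ∆ σ).card + 1 := by
    rw [← symmDiff_assoc]
    have e : (A ∆ σ) ∆ {v} ⊆ (A ∆ σ) ∪ {v} := by
      intro x hx
      rw [mem_symmDiff] at hx
      rw [mem_union]
      tauto
    exact (card_le_card e).trans ((card_union_le _ _).trans (by rw [card_singleton]))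
  have hlow : cut G (σ ∆ {v}) + g * ((A ∆ (σ ∆ {v})).card : ℤ) ≤ cut G A := by
    have h3 : (g : ℤ) * ((A ∆ (σ ∆ {v})).card : ℤ) ≤ g * (((A ∆ σ).card : ℤ) + 1) :=
      mul_le_mul_of_nonneg_left (by exact_mod_cast hcard) (by positivity)
    rw [hcs]
    nlinarith
  have hnot : ¬ (A ∆ (σ ∆ {v})).card < M := by
    intro hlt
    have h3 := hmin _ ((hmem _).2 ⟨hlt, hlow⟩)
    have h4 : cut G σ ≤ cut G (σ ∆ {v}) := h3
    omega
  have hPM : (A ∆ (σ ∆ {v})).card = M := by omega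
  obtain ⟨P, hP⟩ : ∃ P, P = A ∆ (σ ∆ {v}) := ⟨_, rfl⟩
  rw [← hP] at hPM hlow
  have hWP : W G A P ≤ -((g : ℤ) * M) := by
    have h3 := cut_flip_set G A P
    have h4 : A ∆ P = σ ∆ {v} := by rw [hP, symmDiff_symmDiff_cancel_left]
    rw [h4] at h3
    rw [hPM] at hlow
    linarith
  obtain ⟨ℓ, hℓ, hcr⟩ := hcut P hPM.le
  -- the part outside U
  have hP'P : P \ U ⊆ P := sdiff_subset
  have hcl : 0 ≤ ∑ i ∈ (P \ U).image ℓ, W G A ((P \ U).filter fun v => ℓ v = i) := by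
    refine Finset.sum_nonneg fun i _ => hA _ ?_ ?_
    · exact (card_le_card (filter_subset_filter _ hP'P)).trans (hℓ i)
    · rw [Finset.disjoint_left]
      intro x hx hxU
      exact (mem_sdiff.1 (mem_filter.1 hx).1).2 hxU
  have h5 := W_classes G A (P \ U) ℓ
  have h6 := crs_mono G hP'P ℓ
  have hdis : Disjoint (P \ U) (P ∩ U) := by
    rw [Finset.disjoint_left]
    intro x hx hx'
    exact (mem_sdiff.1 hx).2 (mem_inter.1 hx').2
  have hun : (P \ U) ∪ (P ∩ U) = P := sdiff_union_inter P U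
  have h7 := W_union_ge G A hdis
  rw [hun] at h7
  have h8 := W_ge G hd A (P ∩ U)
  have hUc : ((P ∩ U).card : ℤ) ≤ U.card := by exact_mod_cast card_le_card inter_subset_right
  have hdU : (d : ℤ) * ((P ∩ U).card : ℤ) ≤ d * U.card := mul_le_mul_of_nonneg_left hUc (by positivity)
  have h9 : E G (P \ U) (P ∩ U) ≤ (d : ℤ) * ((P ∩ U).card : ℤ) := by
    rw [E_symm]
    calc E G (P ∩ U) (P \ U) ≤ E G (P ∩ U) univ := E_mono_right G (subset_univ _) _
      _ = ∑ v ∈ P ∩ U, (G.degree v : ℤ) := E_univ_right G _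
      _ ≤ ∑ _v ∈ P ∩ U, (d : ℤ) := Finset.sum_le_sum fun v _ => by exact_mod_cast hd v
      _ = d * ((P ∩ U).card : ℤ) := by rw [Finset.sum_const, nsmul_eq_mul]; ring
  have h10 : -(crs G P ℓ) - 3 * ((d : ℤ) * U.card) ≤ -((g : ℤ) * M) := by linarith
  have h11 : -(crs G P ℓ : ℝ) - 3 * ((d : ℝ) * U.card) ≤ -((g : ℝ) * M) := by exact_mod_cast h10
  rw [hPM] at hcr
  nlinarith

end H49.LS
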