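import Pool.Agent.H49.LS.ExB
import Pool.Agent.H49.LS.ExC

/-!
# Exact internal partitions when bounded sets can be cut into pieces

As `exactD`, with `completeC`: `s' = s + 1`, `c = 3 (d + 1) / (2 δ)`, `C₀` from `fewS d s' r c`, `C = C₀ + 2`, `M = S`: `3 d |E| ≤ 3 (d+1) |E| < 2 δ S`.
-/

set_option autoImplicit false
set_option linter.unusedSectionVars false

namespace H49.LS

open Finset H97.Int H49.NB
open scoped Classical symmDiff

theorem exactC (d r s g : ℕ) (hr : 1 ≤ r) (hg1 : 1 ≤ g) (δ : ℝ) (hδ : 0 < δ) :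
    ∃ C : ℝ, 0 < C ∧ ∀ S : ℕ, 1 ≤ S → ∀ (V : Type) [Fintype V] [DecidableEq V] (G : SimpleGraph V)
      [DecidableRel G.Adj], (∀ v, G.degree v ≤ d) → (g = 1 ∨ (g = 2 ∧ ∀ v, Even (G.degree v))) →
      (∀ P : Finset V, P.card ≤ S → ∃ ℓ : V → ℕ, (∀ i, (P.filter fun v => ℓ v = i).card ≤ s) ∧
        (crs G P ℓ : ℝ) ≤ (g - 2 * δ) * P.card) →
      ∀ W : ℕ → Finset V, (∀ i < r, ∀ j < r, i ≠ j → Disjoint (W i) (W j)) →
      ∃ B : Finset V, (∀ v, 0 ≤ H49.NB.W G B {v}) ∧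
        (∑ i ∈ range r, |(th (W i) B : ℝ)|) ≤ C * (Fintype.card V / S + S) := by
  obtain ⟨C₀, hC₀, hfew⟩ := fewS d (s + 1) r (by omega) hr (3 * (d + 1) / (2 * δ)) (by positivity)
  refine ⟨C₀ + 2, by linarith, ?_⟩
  intro S hS V _ _ G _ hdeg hg hP W hW
  have hS0 : (0 : ℝ) < S := by exact_mod_cast hS
  have hnn : (0 : ℝ) ≤ Fintype.card V / S + S := by positivity
  have hSle : (S : ℝ) ≤ Fintype.card V / S + S := le_add_of_nonneg_left (by positivity)
  rcases hfew S hS V G hdeg W hW with h | ⟨A, E, hE, hth, hQ⟩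
  · obtain ⟨h1, h2⟩ := triv G hW
    refine ⟨∅, h1, h2.trans (h.trans ?_)⟩
    rw [add_mul]
    linarith
  · obtain ⟨B, hB, hBv⟩ := completeC G (s := s + 1) (g := g) (M := S) (δ := δ) (A := A) (U := E) hdeg
      hQ (fun σ v h => gain G hg σ v h)
      (fun P hPM => by
        obtain ⟨ℓ, h1, h2⟩ := hP P hPM
        exact ⟨ℓ, fun i => (h1 i).trans (by omega), h2⟩)
      (by
        rw [div_mul_eq_mul_div, div_lt_iff₀ (by linarith)] at hE
        have h1 : (0 : ℝ) ≤ E.card := by positivity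
        linarith) hS
    refine ⟨B, hBv, ?_⟩
    have h1 := th_change hW A B
    have h2 : ((A ∆ B).card : ℝ) ≤ S := by exact_mod_cast hB
    rw [add_mul]
    linarith

end H49.LS
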