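import Pool.Agent.H49.LS.Bis
import Pool.Agent.H49.LS.ExD

/-!
# Conversions to sets and `ncard`

Everything is about finite sets of vertices; `Set.ncard_coe_finset`.
-/

set_option autoImplicit false
set_option linter.unusedSectionVars false

namespace H49.LS

open Finset H97.Int H49.NB
open scoped Classical symmDiff

variable {V : Type} [Fintype V] (G : SimpleGraph V)

lemma exists_coe (A : Set V) : ∃ B : Finset V, (B : Set V) = A :=
  ⟨A.toFinset, by simp⟩

lemma deg_eq (v : V) : (G.neighborSet v).ncard = G.degree v := by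
  rw [← G.card_neighborFinset_eq_degree, ← Set.ncard_coe_finset]
  congr 1
  ext u
  simp

lemma E_ncard (P Q : Finset V) :
    E G P Q = (({p : V × V | G.Adj p.1 p.2 ∧ p.1 ∈ P ∧ p.2 ∈ Q}.ncard : ℕ) : ℤ) := by
  have h : {p : V × V | G.Adj p.1 p.2 ∧ p.1 ∈ P ∧ p.2 ∈ Q} =
      (((P ×ˢ Q).filter fun p : V × V => G.Adj p.1 p.2 : Finset (V × V)) : Set (V × V)) := by
    ext p
    simp only [Set.mem_ofPred_eq, Finset.coe_filter, Finset.mem_product]
    tauto
  rw [h, Set.ncard_coe_finset, Finset.card_filter, Finset.sum_product]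
  unfold E adj
  push_cast
  rfl

lemma cut_ncard (A : Finset V) :
    cut G A = (({p : V × V | G.Adj p.1 p.2 ∧ p.1 ∈ (A : Set V) ∧ p.2 ∉ (A : Set V)}.ncard : ℕ) : ℤ) := by
  unfold cut
  rw [E_ncard]
  simp

lemma crs_ncard (P : Finset V) (ℓ : V → ℕ) :
    crs G P ℓ = (({p : V × V | G.Adj p.1 p.2 ∧ p.1 ∈ (P : Set V) ∧ p.2 ∈ (P : Set V) ∧ ℓ p.1 ≠ ℓ p.2}.ncard : ℕ) : ℤ) := by
  have h : {p : V × V | G.Adj p.1 p.2 ∧ p.1 ∈ (P : Set V) ∧ p.2 ∈ (P : Set V) ∧ ℓ p.1 ≠ ℓ p.2} =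
      (((P ×ˢ P).filter fun p : V × V => G.Adj p.1 p.2 ∧ ℓ p.1 ≠ ℓ p.2 : Finset (V × V)) : Set (V × V)) := by
    ext p
    simp only [Set.mem_ofPred_eq, Finset.coe_filter, Finset.mem_product, Finset.mem_coe]
    tauto
  rw [h, Set.ncard_coe_finset, Finset.card_filter, Finset.sum_product]
  unfold crs adj
  push_cast
  refine Finset.sum_congr rfl fun u _ => Finset.sum_congr rfl fun v _ => ?_
  by_cases h1 : G.Adj u v <;> by_cases h2 : ℓ u = ℓ v <;> simp [h1, h2]

lemma th_ncard (W A : Finset V) :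
    th W A = (((A : Set V) ∩ W).ncard : ℤ) - (((W : Set V) \ A).ncard : ℤ) := by
  unfold th
  rw [← Finset.coe_inter, ← Finset.coe_sdiff, Set.ncard_coe_finset, Set.ncard_coe_finset]

lemma nin_ncard (v : V) (A : Finset V) : nin G v A = ((G.neighborSet v ∩ (A : Set V)).ncard : ℤ) := by
  rw [nin_eq, ← Set.ncard_coe_finset]
  congr 2
  ext u
  simp

/-- a vertex which cannot be moved with gain is satisfied -/
lemma sat_one {A : Finset V} {v : V} (h2 : 0 ≤ H49.NB.W G A {v}) :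
    (v ∈ (A : Set V) → (G.neighborSet v ∩ (A : Set V)ᶜ).ncard ≤ (G.neighborSet v ∩ (A : Set V)).ncard) ∧
      (v ∉ (A : Set V) → (G.neighborSet v ∩ (A : Set V)).ncard ≤ (G.neighborSet v ∩ (A : Set V)ᶜ).ncard) := by
  have h1 : ¬ Uns G A v := fun hc => by
    have := (uns_iff G A v).1 hc
    omega
  unfold Uns at h1
  push Not at h1
  rw [nin_ncard, nin_ncard, Finset.coe_compl] at h1
  constructor
  · intro hv
    have := h1.1 (by simpa using hv)
    exact_mod_cast this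
  · intro hv
    have := h1.2 (by simpa using hv)
    exact_mod_cast this

/-- no unsatisfied vertex -/
lemma sat_ncard {A : Finset V} (h : ∀ v, 0 ≤ H49.NB.W G A {v}) (v : V) :
    (v ∈ (A : Set V) → (G.neighborSet v ∩ (A : Set V)ᶜ).ncard ≤ (G.neighborSet v ∩ (A : Set V)).ncard) ∧
      (v ∉ (A : Set V) → (G.neighborSet v ∩ (A : Set V)).ncard ≤ (G.neighborSet v ∩ (A : Set V)ᶜ).ncard) :=
  sat_one G (h v)

lemma uns_ncard (A : Finset V) :
    uns G A = {v : V | ¬ ((v ∈ (A : Set V) → (G.neighborSet v ∩ (A : Set V)ᶜ).ncard ≤ (G.neighborSet v ∩ (A : Set V)).ncard) ∧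
      (v ∉ (A : Set V) → (G.neighborSet v ∩ (A : Set V)).ncard ≤ (G.neighborSet v ∩ (A : Set V)ᶜ).ncard))}.ncard := by
  unfold uns
  rw [← Set.ncard_coe_finset]
  congr 1
  ext v
  simp only [Finset.coe_filter, Finset.mem_univ, true_and, Set.mem_ofPred_eq]
  unfold Uns
  rw [nin_ncard, nin_ncard, Finset.coe_compl]
  rw [not_and_or]
  push Not
  simp only [Finset.mem_coe]
  constructor
  · rintro (⟨h1, h2⟩ | ⟨h1, h2⟩)
    · exact Or.inl ⟨h1, by exact_mod_cast h2⟩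
    · exact Or.inr ⟨h1, by exact_mod_cast h2⟩
  · rintro (⟨h1, h2⟩ | ⟨h1, h2⟩)
    · exact Or.inl ⟨h1, by exact_mod_cast h2⟩
    · exact Or.inr ⟨h1, by exact_mod_cast h2⟩

end H49.LS
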