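import Pool.Agent.H49.LS.Defs

/-!
# The cut function is local

`cutn G A = (cut G A).toNat`, `cut` as in `H97.Int` (number of edges between `A` and `Aᶜ`, an integer). `cut_flip_set`: `cut (A ∆ S) = cut A + W A S`. `W_congr`: `W A S` depends only on
`A ∩ nbr G S`. So for `X` disjoint from `nbr G D`: `W (A ∆ X) D = W A D`, which is `loc`. `sub`: `subset_nbr`; `swp`: `mem_nbr` (`D'` disjoint from `D` and without edges to `D`: symmetric).
`cut_nonneg`, `cut_compl` (also from the definition, `E_symm`). `cutn_le`: `cut A ≤` number of edges: `2 cut A = E A Aᶜ + E Aᶜ A ≤ E univ univ = 2 e` (`∑ degree = 2 e`).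
`conf_card`: the members `w` of a far family with `¬ Disjoint u (nbr G w)` meet `nbr G u` (`swp`), they are pairwise disjoint (`Disjoint D' (N D)`, `D ⊆ N D`), so there are at most
`|nbr G u| ≤ (d + 1) |u| ≤ s (d + 1)` of them (`Finset.card_le_card_of_injOn` with a choice of a common element, or `Finset.card_biUnion` of the nonempty sets `w ∩ nbr G u`).
-/

set_option autoImplicit false
set_option linter.unusedSectionVars false

namespace H49.LS

open Finset H97.Int
open scoped Classical symmDiff

variable {V : Type} [Fintype V] [DecidableEq V] (G : SimpleGraph V) [DecidableRel G.Adj]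

/-- the cut function as a natural number -/
noncomputable def cutn (A : Finset V) : ℕ := (cut G A).toNat

lemma cutn_cast (A : Finset V) : (cutn G A : ℤ) = cut G A :=
  Int.toNat_of_nonneg (cut_nonneg G A)

private lemma swp_nbr {D D' : Finset V} (h : Disjoint D' (nbr G D)) : Disjoint D (nbr G D') := by
  rw [Finset.disjoint_left] at h ⊢
  intro x hx hx'
  rcases (mem_nbr G).1 hx' with h1 | ⟨u, hu, hux⟩
  · exact h h1 (subset_nbr G D hx)
  · exact h hu ((mem_nbr G).2 (Or.inr ⟨x, hx, hux.symm⟩))

lemma loc_cut : Loc (nbr G) (cutn G) := by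
  refine ⟨fun A => ?_, fun D => subset_nbr G D, fun D D' h => swp_nbr G h, fun A D X h => ?_⟩
  · unfold cutn
    rw [cut_compl]
  · have h1 : H49.NB.W G (A ∆ X) D = H49.NB.W G A D := by
      refine H49.NB.W_congr G fun u hu => ?_
      have hX : u ∉ X := fun hx => (Finset.disjoint_left.1 h hx) hu
      rw [Finset.mem_symmDiff]
      constructor
      · rintro (h2 | h2)
        · exact h2.1
        · exact absurd h2.1 hX
      · intro h2
        exact Or.inl ⟨h2, hX⟩
    have h2 := H49.NB.cut_flip_set G (A ∆ X) D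
    have h3 := H49.NB.cut_flip_set G A D
    have e1 := cutn_cast G ((A ∆ X) ∆ D)
    have e2 := cutn_cast G A
    have e3 := cutn_cast G (A ∆ X)
    have e4 := cutn_cast G (A ∆ D)
    have : ((cutn G ((A ∆ X) ∆ D) + cutn G A : ℕ) : ℤ) = ((cutn G (A ∆ X) + cutn G (A ∆ D) : ℕ) : ℤ) := by
      push_cast
      rw [e1, e2, e3, e4, h2, h3, h1]
      ring
    exact_mod_cast this

lemma cutn_le (A : Finset V) : cutn G A ≤ G.edgeFinset.card := by
  have h1 : E G A Aᶜ + E G Aᶜ A ≤ E G univ univ := by
    have h2 : E G univ univ = E G A univ + E G Aᶜ univ := by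
      rw [← E_union_left G (disjoint_compl_right : Disjoint A Aᶜ), Finset.union_compl]
    rw [h2]
    exact add_le_add (E_mono_right G (Finset.subset_univ _) _) (E_mono_right G (Finset.subset_univ _) _)
  have h3 : E G univ univ = 2 * (G.edgeFinset.card : ℤ) := by
    rw [E_eq_sum_nin]
    have h4 := G.sum_degrees_eq_twice_card_edges
    have h5 : ∑ v, nin G v univ = ((∑ v, G.degree v : ℕ) : ℤ) := by
      push_cast
      exact Finset.sum_congr rfl fun v _ => nin_univ G v
    rw [h5, h4]
    push_cast
    ring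
  have h6 : E G Aᶜ A = E G A Aᶜ := E_symm G _ _
  have h7 : cut G A ≤ (G.edgeFinset.card : ℤ) := by
    unfold cut
    linarith
  have h8 := cutn_cast G A
  have : (cutn G A : ℤ) ≤ (G.edgeFinset.card : ℤ) := by rw [h8]; exact h7
  exact_mod_cast this

lemma conf_card {d s : ℕ} (hd : ∀ v, G.degree v ≤ d) (τ : Finset V) (𝓦 : Finset (Finset V))
    (h : Far (nbr G) s (cutn G) τ 𝓦) (u : Finset V) (hu : u.card ≤ s) :
    (𝓦.filter fun w => ¬ Disjoint u (nbr G w)).card ≤ s * (d + 1) := by
  have hne : ∀ w ∈ 𝓦.filter (fun w => ¬ Disjoint u (nbr G w)), ∃ x, x ∈ w ∧ x ∈ nbr G u := by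
    intro w hw
    rw [Finset.mem_filter] at hw
    by_contra hcon
    push Not at hcon
    exact hw.2 (swp_nbr G (Finset.disjoint_left.2 fun x hx => hcon x hx))
  have key : (𝓦.filter fun w => ¬ Disjoint u (nbr G w)).card ≤ (nbr G u).card := by
    rcases (𝓦.filter fun w => ¬ Disjoint u (nbr G w)).eq_empty_or_nonempty with h0 | ⟨w0, hw0⟩
    · rw [h0]
      exact Nat.zero_le _
    · obtain ⟨x0, -⟩ := hne w0 hw0
      haveI : Inhabited V := ⟨x0⟩
      choose! f hf using hne
      refine Finset.card_le_card_of_injOn f (fun w hw => (hf w hw).2) ?_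
      intro w hw w' hw' he
      by_contra hww
      have h1 := (hf w hw).1
      have h2 := (hf w' hw').1
      have h3 : Disjoint w' (nbr G w) :=
        h.2 w (Finset.mem_filter.1 (Finset.mem_coe.1 hw)).1 w' (Finset.mem_filter.1 (Finset.mem_coe.1 hw')).1 hww
      rw [← he] at h2
      exact (Finset.disjoint_left.1 h3 h2) (subset_nbr G w h1)
  calc (𝓦.filter fun w => ¬ Disjoint u (nbr G w)).card ≤ (nbr G u).card := key
    _ ≤ (d + 1) * u.card := card_nbr_le G hd u
    _ ≤ (d + 1) * s := Nat.mul_le_mul_left _ hu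
    _ = s * (d + 1) := Nat.mul_comm _ _

end H49.LS
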