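import Pool.Agent.H49.NB.Wa
import Pool.Agent.H49.NB.Wb

/-!
# Lusternik-Schnirelmann theory for partitions of a graph (MP_363a78_co)

THEOREM A (`FewD`). `G` a graph with `n` vertices, `e` edges, maximum degree at most `d`; `s, r, K ≥ 1`, `s r K < n`, `W_1, .., W_r` disjoint vertex sets,
`θ_i A = |A ∩ W_i| - |W_i \ A|`. There are `A`, `E` with `|E| ≤ (s (d + 1))^2 r K`, `K ∑ |θ_i A| ≤ 2 s e + s r^2 K^2`, and `cut (A ∆ Q) ≥ cut A` for every `Q` with `|Q| ≤ s`, disjoint from `E`.
THEOREM B (`Exact`): exact internal partitions with imbalance `≤ ε n` if sets of bounded size are sparse.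

STATES: `A : Finset V`. A MOVE `D` is a nonempty set of at most `s` vertices; `Adm s W`: `W` is a set of pairwise disjoint moves. A cell is a pair `(A, W)`, where `A` counts modulo the members
of `W`. A CHAIN of dimension `j` is a function `c A W` with values in `ZMod 2` with `IsCh s j c`. `bd c` is the boundary, `nu c` the complement of all states. `Spt P c`: `c` is supported on
states with `P`. A TOWER (`Tow s m P h`): chains `h 0, .., h m` supported on `P`, an odd number of states in `h 0`, and `bd h_(i+1) = h_i + nu h_i`. `HasT s m P`: there is one.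

(1) `Tw0`: `HasT s m (fun _ => True)` for `m ≤ n`, `s ≥ 1` (explicit, by singletons).
(2) `Half`: if `s j < n` and `nu c = c` then `c = t + nu t` with `t` supported where `c` is.
(3) `Desc`: if the top `h m + nu (h m)` of a tower is supported on `Q` (symmetric) then `HasT s m Q`.
(4) `Intf`: `θ` odd and `2`-Lipschitz, `HasT s (m+1) P` (`P` symmetric) gives `HasT s m (P ∧ |θ| ≤ s (m+1))`.
(5) `Lev`: levels and pigeonhole.
(6) `Push`: at a state `τ` of highest key the tower can be pushed down if the lower link `LL` of `τ` is acyclic (`AcycC`).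
(7) `Acyc`: a simplicial complex with many independent good directions is acyclic (`AcycC`).
(8) `Star`, `Cnt`: improvable moves which do not touch are such good directions.
(9) `Main`, `FewD`; `Exact`, `Fin`.
-/

set_option autoImplicit false
set_option linter.unusedSectionVars false

namespace H49.LS

open Finset
open scoped Classical symmDiff

variable {V : Type} [Fintype V] [DecidableEq V]

/-- chains: functions of a state and a family of moves -/
abbrev Ch (V : Type) [DecidableEq V] := Finset V → Finset (Finset V) → ZMod 2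

/-- the union of a family of moves -/
def un (W : Finset (Finset V)) : Finset V := W.biUnion id

/-- families of pairwise disjoint moves (nonempty sets of at most `s` vertices) -/
def Adm (s : ℕ) (W : Finset (Finset V)) : Prop :=
  (∀ D ∈ W, D.Nonempty ∧ D.card ≤ s) ∧ ∀ D ∈ W, ∀ D' ∈ W, D ≠ D' → Disjoint D D'

/-- chains of dimension `j` -/
structure IsCh (s j : ℕ) (c : Ch V) : Prop where
  inv : ∀ A W, ∀ D ∈ W, c (A ∆ D) W = c A W
  sup : ∀ A W, c A W ≠ 0 → Adm s W ∧ W.card = j

/-- the boundary -/
noncomputable def bd (c : Ch V) : Ch V := fun A W => ∑ D ∈ univ.filter (fun D => D ∉ W), c A (insert D W)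

/-- complement of the states -/
def nu (c : Ch V) : Ch V := fun A W => c Aᶜ W

/-- supported on the states with `P` -/
def Spt (P : Finset V → Prop) (c : Ch V) : Prop := ∀ A W, c A W ≠ 0 → P A

/-- symmetric predicates -/
def Sym (P : Finset V → Prop) : Prop := ∀ A, P A → P Aᶜ

/-- towers -/
structure Tow (s m : ℕ) (P : Finset V → Prop) (h : ℕ → Ch V) : Prop where
  ch : ∀ i ≤ m, IsCh s i (h i)
  one : ∑ A, h 0 A ∅ = 1
  bdy : ∀ i < m, bd (h (i + 1)) = h i + nu (h i)
  spt : ∀ i ≤ m, Spt P (h i)

/-- there is a tower of height `m` supported on `P` -/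
def HasT (s m : ℕ) (P : Finset V → Prop) : Prop := ∃ h : ℕ → Ch V, Tow s m P h

/-! ## Simplicial complexes (a complex is a down-closed predicate on finite sets of directions) -/

/-- the boundary of a simplicial chain -/
noncomputable def bs {α : Type} [Fintype α] [DecidableEq α] (l : Finset α → ZMod 2) : Finset α → ZMod 2 :=
  fun W => ∑ D ∈ univ.filter (fun D => D ∉ W), l (insert D W)

/-- every cycle of `L` on sets of `c` directions is a boundary in `L` -/
def AcycC {α : Type} [Fintype α] [DecidableEq α] (c : ℕ) (L : Finset α → Prop) : Prop :=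
  ∀ l : Finset α → ZMod 2, (∀ W, l W ≠ 0 → L W ∧ W.card = c) → bs l = 0 →
    ∃ w : Finset α → ZMod 2, (∀ W, w W ≠ 0 → L W ∧ W.card = c + 1) ∧ bs w = l

/-- complexes -/
def Down {α : Type} [DecidableEq α] (L : Finset α → Prop) : Prop := ∀ W W', W' ⊆ W → L W → L W'

/-- the lower link of `τ`: families of moves such that all other corners are low or have smaller key -/
def LL (s : ℕ) (Low : Finset V → Prop) (key : Finset V → ℕ) (τ : Finset V) (W : Finset (Finset V)) : Prop :=
  Adm s W ∧ ∀ T ⊆ W, T.Nonempty → Low (τ ∆ un T) ∨ key (τ ∆ un T) < key τ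

/-! ## Potentials -/

/-- `θ 0, .., θ (r-1)` are odd and together `2`-Lipschitz -/
structure Odds (r : ℕ) (θ : ℕ → Finset V → ℤ) : Prop where
  odd : ∀ i, ∀ A, θ i Aᶜ = - θ i A
  lip : ∀ A D, ∑ i ∈ range r, |θ i (A ∆ D) - θ i A| ≤ 2 * D.card

/-- symmetric local functions: `N D` is the set of vertices which see `D` -/
structure Loc (N : Finset V → Finset V) (H : Finset V → ℕ) : Prop where
  sym : ∀ A, H Aᶜ = H A
  sub : ∀ D, D ⊆ N D
  swp : ∀ D D', Disjoint D' (N D) → Disjoint D (N D')
  loc : ∀ A D X, Disjoint X (N D) → H ((A ∆ X) ∆ D) + H A = H (A ∆ X) + H (A ∆ D)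

/-- the potential -/
noncomputable def pot (s r N : ℕ) (H : Finset V → ℕ) (θ : ℕ → Finset V → ℤ) (A : Finset V) : ℕ :=
  (2 * s * N + 1) * H A + N * (∑ i ∈ range r, |θ i A|).toNat

/-- a number for every state -/
noncomputable def rk (A : Finset V) : ℕ := (Fintype.equivFin (Finset V) A : ℕ)

/-- number of states -/
noncomputable def nst (V : Type) [Fintype V] [DecidableEq V] : ℕ := Fintype.card (Finset V)

/-- the key -/
noncomputable def ky (F : Finset V → ℕ) (A : Finset V) : ℕ := F A * nst V + min (rk A) (rk Aᶜ)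

/-- improvable moves -/
def Imp (s : ℕ) (H : Finset V → ℕ) (τ D : Finset V) : Prop := D.Nonempty ∧ D.card ≤ s ∧ H (τ ∆ D) < H τ

/-- far families of improvable moves -/
def Far (N : Finset V → Finset V) (s : ℕ) (H : Finset V → ℕ) (τ : Finset V) (𝓦 : Finset (Finset V)) : Prop :=
  (∀ D ∈ 𝓦, Imp s H τ D) ∧ ∀ D ∈ 𝓦, ∀ D' ∈ 𝓦, D ≠ D' → Disjoint D' (N D)

end H49.LS
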