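import Pool.Agent.H49.LS.Half

/-!
# Descending a tower to the support of its top

Induction on `m`, for all `h`. Let `y = h m + nu (h m)`; `nu y = y` (`nu_sym`), `y` is supported on `Q`, so `y = t + nu t`, `t` supported on `Q` (`half`). Then `h m + t` is symmetric
(`nu (h m + t) = h m + t`, because `(h m + t) + nu (h m + t) = y + y = 0`), so `h m + t = g + nu g` (`half` again, with `P = True`).
`m = 0`: take `h' = fun _ => t`; `∑ t A ∅ = ∑ h 0 A ∅ + ∑ (g + nu g) A ∅ = 1` (`sum_sym_zero`).
`m = m' + 1`: `bd t = bd h_m + bd g + nu (bd g) = (h_m' + bd g) + nu (h_m' + bd g)`. Let `h'' i = h i` for `i ≠ m'`, `h'' m' = h m' + bd g`. This is a tower of height `m'` with `P = True`: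
`one`: if `m' = 0` use `sum_bd_zero`; `bdy` at `i + 1 = m'`: `bd (bd g) = 0`. Its top is `bd t`, supported on `Q` (`spt_bd`). By induction there is a tower `h'` of height `m'` on `Q` with the
same top `bd t = h' m' + nu (h' m')`. Extend it by `t` at `m' + 1`.
-/

set_option autoImplicit false
set_option linter.unusedSectionVars false

namespace H49.LS

open Finset
open scoped Classical symmDiff

variable {V : Type} [Fintype V] [DecidableEq V]

private lemma Desc_change {s m : ℕ} {h : ℕ → Ch V} (ht : Tow s m (fun _ => True) h) {q : Ch V}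
    (hq : IsCh s (m + 1) q) : Tow s m (fun _ => True) (Function.update h m (h m + bd q)) := by
  refine ⟨?_, ?_, ?_, fun i _ => spt_true _⟩
  · intro i hi
    by_cases him : i = m
    · subst him
      rw [Function.update_self]
      exact isCh_add (ht.ch i le_rfl) (isCh_bd hq)
    · rw [Function.update_of_ne him]
      exact ht.ch i hi
  · by_cases hm : 0 = m
    · subst hm
      rw [Function.update_self]
      have h1 : ∑ A, (h 0 + bd q) A ∅ = ∑ A, h 0 A ∅ + ∑ A, bd q A ∅ := by
        rw [← Finset.sum_add_distrib]
        rfl
      rw [h1, ht.one, sum_bd_zero hq, add_zero]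
    · rw [Function.update_of_ne hm]
      exact ht.one
  · intro i hi
    have h1 : i ≠ m := hi.ne
    rw [Function.update_of_ne h1]
    by_cases him : i + 1 = m
    · rw [him, Function.update_self, bd_add, bd_bd, add_zero, ← him]
      exact ht.bdy i hi
    · rw [Function.update_of_ne him]
      exact ht.bdy i hi

private lemma Desc_alg (a b c d : ZMod 2) (h : a + b = c + d) : d + b = c + a := by
  revert a b c d
  decide

private lemma Desc_alg2 (a b c : ZMod 2) (h : a + b = c) : b = a + c := by
  revert a b c
  decide

theorem descend {s m : ℕ} (hn : s * m < Fintype.card V) {Q : Finset V → Prop} (hQ : Sym Q) {h : ℕ → Ch V}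
    (ht : Tow s m (fun _ => True) h) (hy : Spt Q (h m + nu (h m))) :
    ∃ h' : ℕ → Ch V, Tow s m Q h' ∧ h' m + nu (h' m) = h m + nu (h m) := by
  induction m generalizing h with
  | zero =>
    obtain ⟨t, ht1, ht2, ht3⟩ := half hn (isCh_add (ht.ch 0 le_rfl) (isCh_nu (ht.ch 0 le_rfl)))
      (nu_sym (h 0)) hy
    have hsy : nu (h 0 + t) = h 0 + t := by
      rw [nu_add]
      funext A W
      exact Desc_alg (t A W) (nu t A W) (h 0 A W) (nu (h 0) A W) (congrFun (congrFun ht3 A) W)
    obtain ⟨g, hg1, -, hg3⟩ := half hn (isCh_add (ht.ch 0 le_rfl) ht1) hsy (spt_true _)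
    have e1 : t = h 0 + (g + nu g) := by
      funext A W
      exact Desc_alg2 (h 0 A W) (t A W) ((g + nu g) A W) (congrFun (congrFun hg3 A) W).symm
    refine ⟨fun _ => t, ⟨?_, ?_, ?_, ?_⟩, ht3⟩
    · intro i hi
      obtain rfl := Nat.le_zero.1 hi
      exact ht1
    · have h1 : ∑ A, t A ∅ = ∑ A, h 0 A ∅ + ∑ A, (g + nu g) A ∅ := by
        rw [← Finset.sum_add_distrib]
        refine Finset.sum_congr rfl (fun A _ => ?_)
        exact congrFun (congrFun e1 A) ∅
      rw [h1, ht.one, sum_sym_zero, add_zero]
    · intro i hi
      exact absurd hi (Nat.not_lt_zero i)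
    · intro i hi
      exact ht2
  | succ m ih =>
    obtain ⟨t, ht1, ht2, ht3⟩ := half hn (isCh_add (ht.ch (m + 1) le_rfl) (isCh_nu (ht.ch (m + 1) le_rfl)))
      (nu_sym (h (m + 1))) hy
    have hsy : nu (h (m + 1) + t) = h (m + 1) + t := by
      rw [nu_add]
      funext A W
      exact Desc_alg (t A W) (nu t A W) (h (m + 1) A W) (nu (h (m + 1)) A W)
        (congrFun (congrFun ht3 A) W)
    obtain ⟨g, hg1, -, hg3⟩ := half hn (isCh_add (ht.ch (m + 1) le_rfl) ht1) hsy (spt_true _)
    have e1 : t = h (m + 1) + (g + nu g) := by
      funext A W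
      exact Desc_alg2 (h (m + 1) A W) (t A W) ((g + nu g) A W) (congrFun (congrFun hg3 A) W).symm
    have e2 : bd t = (h m + bd g) + nu (h m + bd g) := by
      rw [e1, bd_add, bd_add, bd_nu, ht.bdy m (Nat.lt_succ_self m), nu_add]
      abel
    have ht' : Tow s m (fun _ => True) h :=
      ⟨fun i hi => ht.ch i (by omega), ht.one, fun i hi => ht.bdy i (by omega), fun i hi => spt_true _⟩
    have hn' : s * m < Fintype.card V := lt_of_le_of_lt (Nat.mul_le_mul_left s (Nat.le_succ m)) hn
    have hy' : Spt Q (Function.update h m (h m + bd g) m + nu (Function.update h m (h m + bd g) m)) := by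
      rw [Function.update_self, ← e2]
      exact spt_bd ht2
    obtain ⟨h', hT, he⟩ := ih hn' (Desc_change ht' hg1) hy'
    rw [Function.update_self, ← e2] at he
    refine ⟨Function.update h' (m + 1) t, ⟨?_, ?_, ?_, ?_⟩, ?_⟩
    · intro i hi
      by_cases him : i = m + 1
      · subst him
        rw [Function.update_self]
        exact ht1
      · rw [Function.update_of_ne him]
        exact hT.ch i (by omega)
    · rw [Function.update_of_ne (Nat.succ_ne_zero m).symm]
      exact hT.one
    · intro i hi
      have h1 : i ≠ m + 1 := hi.ne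
      rw [Function.update_of_ne h1]
      by_cases him : i = m
      · subst him
        rw [Function.update_self]
        exact he.symm
      · rw [Function.update_of_ne (by omega)]
        exact hT.bdy i (by omega)
    · intro i hi
      by_cases him : i = m + 1
      · subst him
        rw [Function.update_self]
        exact ht2
      · rw [Function.update_of_ne him]
        exact hT.spt i (by omega)
    · rw [Function.update_self]
      exact ht3

/-- changing the top chain of a tower by something with boundary zero -/
lemma tow_change {s m : ℕ} {h : ℕ → Ch V} (ht : Tow s m (fun _ => True) h) {q : Ch V} (hq : IsCh s (m + 1) q) :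
    Tow s m (fun _ => True) (Function.update h m (h m + bd q)) := by
  exact Desc_change ht hq

end H49.LS
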