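import Pool.Agent.H49.NB.Energy
import Pool.Agent.H49.LS.CutL

/-!
# From few defects to no defects (deterministic)

`s₁ ≥ 1` with `δ s₁ ≥ 2`, `κ = d s₁` (the `K` of `H49.NB.energy`), `A` is `κ`-optimal off `U`, sets of at most `M` vertices are sparse: `E G L L ≤ (g + 2 - 2 δ) |L|` (`E` counts edges twice),
`δ M > d κ |U|`, every unsatisfied vertex gains at least `g` (`hgain`), `g ≥ 1`. Then there is `B` without unsatisfied vertex, `|A ∆ B| < M`.
Proof: among the `σ` with `|A ∆ σ| < M` and `cut σ + g |A ∆ σ| ≤ cut A` (there is `σ = A`, as `M > 0`) take one with minimal cut. Suppose `W G σ {v} < 0`, so `cut (σ ∆ {v}) ≤ cut σ - g`; `σ' = σ ∆ {v}` has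
`|A ∆ σ'| ≤ |A ∆ σ| + 1` and `cut σ' + g |A ∆ σ'| ≤ cut A`. If `|A ∆ σ'| < M` this contradicts minimality. So `P = A ∆ σ'` has `|P| = M`, `W G A P = cut σ' - cut A ≤ - g M`. `energy` with `Z = P`:
there is `L ⊆ P` with `-(s₁ (E L L - 2 |L|) + 2 |L|) - s₁ d κ |P ∩ U| ≤ s₁ W A P ≤ - s₁ g M`; `|L| ≤ M`, `E L L - 2 |L| ≤ (g - 2 δ)|L|`, so `s₁ g M ≤ s₁ (g - 2 δ)|L| + 2 |L| + s₁ d κ |U|`.
If `g - 2δ ≥ 0` or not, `(s₁ (g - 2 δ) + 2)|L| ≤ max (0, ..) M`; in any case (`2 ≤ δ s₁`) `s₁ (g - 2δ) + 2 ≤ s₁ (g - δ)` and `s₁ g M ≤ s₁ max(g - δ, 0) M + s₁ d κ |U|`, so `min(δ, g) M ≤ d κ |U|`;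
assume `δ ≤ g`.
-/

set_option autoImplicit false
set_option linter.unusedSectionVars false

namespace H49.LS

open Finset H97.Int H49.NB
open scoped Classical symmDiff

variable {V : Type} [Fintype V] [DecidableEq V] (G : SimpleGraph V) [DecidableRel G.Adj]

theorem complete {d g s₁ M : ℕ} {δ : ℝ} (hd : ∀ v, G.degree v ≤ d) (h1 : 1 ≤ d) (hg : 1 ≤ g) (hs : 1 ≤ s₁)
    (hδ : 0 < δ) (hδg : δ ≤ g) (hδs : 2 ≤ δ * s₁) {A U : Finset V} (hA : KOpt G (d * s₁) A U)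
    (hgain : ∀ σ : Finset V, ∀ v, W G σ {v} < 0 → W G σ {v} ≤ -(g : ℤ))
    (hsp : ∀ L : Finset V, L.card ≤ M → (E G L L : ℝ) ≤ (g + 2 - 2 * δ) * L.card)
    (hM : (d : ℝ) * (d * s₁) * U.card < δ * M) (hM1 : 1 ≤ M) :
    ∃ B : Finset V, (A ∆ B).card ≤ M ∧ ∀ v, 0 ≤ W G B {v} := by
  obtain ⟨σ, hσ, hmin⟩ := Finset.exists_min_image
    ((univ : Finset (Finset V)).filter fun σ => (A ∆ σ).card < M ∧ cut G σ + g * (A ∆ σ).card ≤ cut G A)
    (fun σ => cut G σ) ⟨A, by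
      rw [Finset.mem_filter]
      refine ⟨Finset.mem_univ _, ?_, ?_⟩
      · rw [symmDiff_self, Finset.bot_eq_empty, Finset.card_empty]
        exact hM1
      · rw [symmDiff_self, Finset.bot_eq_empty, Finset.card_empty]
        simp⟩
  rw [Finset.mem_filter] at hσ
  obtain ⟨-, hσM, hσc⟩ := hσ
  refine ⟨σ, hσM.le, fun v => ?_⟩
  by_contra hneg
  rw [not_le] at hneg
  have hg1 := hgain σ v hneg
  have hcut := cut_flip_set G σ {v}
  have hcard : (A ∆ (σ ∆ {v})).card ≤ (A ∆ σ).card + 1 := by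
    rw [← symmDiff_assoc]
    calc ((A ∆ σ) ∆ {v}).card ≤ ((A ∆ σ) ∪ {v}).card := by
          refine Finset.card_le_card fun x hx => ?_
          rw [Finset.mem_symmDiff] at hx
          rw [Finset.mem_union]
          rcases hx with hx | hx
          · exact Or.inl hx.1
          · exact Or.inr hx.1
      _ ≤ (A ∆ σ).card + ({v} : Finset V).card := Finset.card_union_le _ _
      _ = (A ∆ σ).card + 1 := by rw [Finset.card_singleton]
  have hg0 : (1 : ℤ) ≤ g := by exact_mod_cast hg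
  have hcard' : ((A ∆ (σ ∆ {v})).card : ℤ) ≤ (A ∆ σ).card + 1 := by exact_mod_cast hcard
  have hgc : (g : ℤ) * (A ∆ (σ ∆ {v})).card ≤ g * ((A ∆ σ).card + 1) :=
    mul_le_mul_of_nonneg_left hcard' (by linarith)
  have hc' : cut G (σ ∆ {v}) + g * (A ∆ (σ ∆ {v})).card ≤ cut G A := by
    rw [hcut]
    linarith [mul_add (g : ℤ) ((A ∆ σ).card : ℤ) 1, mul_one (g : ℤ)]
  by_cases hlt : (A ∆ (σ ∆ {v})).card < M
  · have := hmin (σ ∆ {v}) (by
      rw [Finset.mem_filter]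
      exact ⟨Finset.mem_univ _, hlt, hc'⟩)
    linarith
  · have hPM : (A ∆ (σ ∆ {v})).card = M := by omega
    set P : Finset V := A ∆ (σ ∆ {v}) with hP
    have hAP : A ∆ P = σ ∆ {v} := by rw [hP, symmDiff_symmDiff_cancel_left]
    have hWP : W G A P = cut G (σ ∆ {v}) - cut G A := by
      have h := cut_flip_set G A P
      rw [hAP] at h
      linarith
    have hW : W G A P ≤ -((g : ℤ) * M) := by
      rw [hPM] at hc'
      linarith
    obtain ⟨L, hLP, hL⟩ := energy G hd h1 hs le_rfl hA P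
    have hLM : L.card ≤ M := (Finset.card_le_card hLP).trans hPM.le
    have hLs := hsp L hLM
    have hPU : (P ∩ U).card ≤ U.card := Finset.card_le_card Finset.inter_subset_right
    have hLr : -((s₁ : ℝ) * (E G L L - 2 * L.card) + 2 * L.card) - s₁ * (d * (d * s₁ : ℕ)) * (P ∩ U).card ≤
        s₁ * (W G A P : ℝ) := by exact_mod_cast hL
    have hWr : (W G A P : ℝ) ≤ -((g : ℝ) * M) := by exact_mod_cast hW
    have hs0 : (0 : ℝ) < s₁ := by exact_mod_cast hs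
    have hL0 : (0 : ℝ) ≤ L.card := by positivity
    have hLMr : (L.card : ℝ) ≤ M := by exact_mod_cast hLM
    have hPUr : ((P ∩ U).card : ℝ) ≤ U.card := by exact_mod_cast hPU
    push_cast at hLr
    have e1 : (s₁ : ℝ) * (W G A P : ℝ) ≤ s₁ * (-((g : ℝ) * M)) := mul_le_mul_of_nonneg_left hWr hs0.le
    have e2 : (s₁ : ℝ) * E G L L ≤ s₁ * ((g + 2 - 2 * δ) * L.card) := mul_le_mul_of_nonneg_left hLs hs0.le
    have e3 : (s₁ : ℝ) * (d * (d * s₁)) * (P ∩ U).card ≤ s₁ * (d * (d * s₁)) * U.card :=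
      mul_le_mul_of_nonneg_left hPUr (by positivity)
    have e4 : 2 * (L.card : ℝ) ≤ δ * s₁ * L.card := mul_le_mul_of_nonneg_right hδs hL0
    have e5 : (s₁ : ℝ) * ((g - δ) * L.card) ≤ s₁ * ((g - δ) * M) :=
      mul_le_mul_of_nonneg_left (mul_le_mul_of_nonneg_left hLMr (by linarith)) hs0.le
    have e6 : (s₁ : ℝ) * ((d : ℝ) * (d * s₁) * U.card) < s₁ * (δ * M) := mul_lt_mul_of_pos_left hM hs0
    nlinarith [e1, e2, e3, e4, e5, e6, hLr]

end H49.LS
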