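import Pool.Agent.H49.LS.FewS
import Pool.Agent.H49.LS.ExA

/-!
# Exact internal partitions of locally sparse graphs (Theorem B)

`δ' = min δ g`, `d' = d + 1`, `s₁ = ⌈2 / δ'⌉₊ + 1` (so `δ' s₁ ≥ 2`), `κ = d' s₁`, `s = (d' + 1)^κ`, `c = d' κ / δ'`, `C₀` from `fewS d s r c`, `C = C₀ + 2`. If `n ≤ C₀ (n/S + S)`: `B = ∅`
(`triv`). Otherwise `A, E` from `fewS`; a set `T` with `Small G κ T` is `∅` or contained in `nb G κ {u}`, so `|T| ≤ (d + 1)^κ ≤ s` (`card_nb_le`) and `A` is `κ`-optimal off `E`. `complete`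
(degrees `≤ d'`, `M = S`): `d' κ |E| < δ' S`; `(g + 2 - 2 δ) |L| ≤ (g + 2 - 2 δ') |L|`. `gain`: `W G σ {v} = spin σ v * ∑_u adj v u * spin σ u` is congruent to `deg v` modulo `2`, so `≤ - g` if it is
negative. `∑ |th (W i) B| ≤ ∑ |th (W i) A| + 2 |A ∆ B| ≤ .. + 2 S` (`odds_th`, `B = A ∆ (A ∆ B)`).
-/

set_option autoImplicit false
set_option linter.unusedSectionVars false

namespace H49.LS

open Finset H97.Int H49.NB
open scoped Classical symmDiff

private lemma ExB_sum_adj {V : Type} [Fintype V] [DecidableEq V] (G : SimpleGraph V) [DecidableRel G.Adj]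
    (v : V) : ∑ u, adj G v u = (G.degree v : ℤ) := by
  unfold adj
  rw [Finset.sum_boole, ← SimpleGraph.card_neighborFinset_eq_degree]
  congr 2
  ext u
  simp

private lemma ExB_sum_spin {V : Type} [Fintype V] [DecidableEq V] (G : SimpleGraph V) [DecidableRel G.Adj]
    (σ : Finset V) (v : V) :
    ∑ u, adj G v u * spin σ u = (G.degree v : ℤ) - 2 * ∑ u, (if u ∈ σ then 0 else adj G v u) := by
  rw [← ExB_sum_adj G v, Finset.mul_sum, ← Finset.sum_sub_distrib]
  refine Finset.sum_congr rfl fun u _ => ?_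
  unfold spin
  by_cases h : u ∈ σ
  · rw [if_pos h, if_pos h]; ring
  · rw [if_neg h, if_neg h]; ring

lemma gain {V : Type} [Fintype V] [DecidableEq V] (G : SimpleGraph V) [DecidableRel G.Adj] {g : ℕ}
    (hg : g = 1 ∨ (g = 2 ∧ ∀ v, Even (G.degree v))) (σ : Finset V) (v : V) (h : W G σ {v} < 0) :
    W G σ {v} ≤ -(g : ℤ) := by
  rcases hg with rfl | ⟨rfl, hev⟩
  · push_cast
    omega
  · have h1 := W_single G σ v
    rw [ExB_sum_spin G σ v] at h1
    obtain ⟨k, hk⟩ := hev v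
    generalize ∑ u, (if u ∈ σ then 0 else adj G v u) = x at h1
    rw [hk] at h1
    push_cast at h1 ⊢
    rcases spin_pm σ v with h2 | h2
    · rw [h2] at h1
      omega
    · rw [h2] at h1
      omega

/-- the trivial partition -/
lemma triv {V : Type} [Fintype V] [DecidableEq V] (G : SimpleGraph V) [DecidableRel G.Adj] {r : ℕ}
    {W : ℕ → Finset V} (hW : ∀ i < r, ∀ j < r, i ≠ j → Disjoint (W i) (W j)) :
    (∀ v, 0 ≤ H49.NB.W G ∅ {v}) ∧ (∑ i ∈ range r, |(th (W i) (∅ : Finset V) : ℝ)|) ≤ Fintype.card V := by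
  constructor
  · intro v
    rw [W_single]
    have h1 : ∀ u : V, spin (∅ : Finset V) u = -1 := by
      intro u
      unfold spin
      rw [if_neg (Finset.notMem_empty u)]
    have h2 : ∑ u, adj G v u * spin (∅ : Finset V) u = - ∑ u, adj G v u := by
      rw [← Finset.sum_neg_distrib]
      refine Finset.sum_congr rfl fun u _ => ?_
      rw [h1 u]
      ring
    rw [h1 v, h2]
    have h3 : 0 ≤ ∑ u, adj G v u := Finset.sum_nonneg fun u _ => adj_nonneg G v u
    linarith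
  · have h1 : ∀ i, |(th (W i) (∅ : Finset V) : ℝ)| = ((W i).card : ℝ) := by
      intro i
      have h2 : th (W i) (∅ : Finset V) = -((W i).card : ℤ) := by
        unfold th
        simp
      rw [h2]
      push_cast
      rw [abs_neg, abs_of_nonneg (Nat.cast_nonneg _)]
    rw [Finset.sum_congr rfl fun i _ => h1 i]
    have h3 : ((range r).biUnion W).card = ∑ i ∈ range r, (W i).card := by
      refine Finset.card_biUnion fun i hi j hj hij => ?_
      exact hW i (Finset.mem_range.1 hi) j (Finset.mem_range.1 hj) hij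
    have h4 : ((range r).biUnion W).card ≤ Fintype.card V := Finset.card_le_univ _
    rw [h3] at h4
    exact_mod_cast h4

/-- the imbalances change by at most twice the number of flipped vertices -/
lemma th_change {V : Type} [Fintype V] [DecidableEq V] {r : ℕ} {W : ℕ → Finset V}
    (hW : ∀ i < r, ∀ j < r, i ≠ j → Disjoint (W i) (W j)) (A B : Finset V) :
    (∑ i ∈ range r, |(th (W i) B : ℝ)|) ≤ (∑ i ∈ range r, |(th (W i) A : ℝ)|) + 2 * (A ∆ B).card := by
  have h1 := (odds_th hW).lip A (A ∆ B)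
  have h2 : A ∆ (A ∆ B) = B := by
    ext x
    simp only [Finset.mem_symmDiff]
    tauto
  rw [h2] at h1
  have h3 : (∑ i ∈ range r, |(th (W i) B : ℝ) - (th (W i) A : ℝ)|) ≤ 2 * ((A ∆ B).card : ℝ) := by
    exact_mod_cast h1
  have h4 : (∑ i ∈ range r, |(th (W i) B : ℝ)|) ≤
      (∑ i ∈ range r, |(th (W i) A : ℝ)|) + ∑ i ∈ range r, |(th (W i) B : ℝ) - (th (W i) A : ℝ)| := by
    rw [← Finset.sum_add_distrib]
    refine Finset.sum_le_sum fun i _ => ?_
    have h5 := abs_add_le ((th (W i) A : ℝ)) ((th (W i) B : ℝ) - (th (W i) A : ℝ))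
    have h6 : (th (W i) A : ℝ) + ((th (W i) B : ℝ) - (th (W i) A : ℝ)) = (th (W i) B : ℝ) := by ring
    rw [h6] at h5
    exact h5
  linarith

theorem exactD (d r g : ℕ) (hr : 1 ≤ r) (hg1 : 1 ≤ g) (δ : ℝ) (hδ : 0 < δ) :
    ∃ C : ℝ, 0 < C ∧ ∀ S : ℕ, 1 ≤ S → ∀ (V : Type) [Fintype V] [DecidableEq V] (G : SimpleGraph V)
      [DecidableRel G.Adj], (∀ v, G.degree v ≤ d) → (g = 1 ∨ (g = 2 ∧ ∀ v, Even (G.degree v))) →
      (∀ L : Finset V, L.card ≤ S → (E G L L : ℝ) ≤ (g + 2 - 2 * δ) * L.card) →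
      ∀ W : ℕ → Finset V, (∀ i < r, ∀ j < r, i ≠ j → Disjoint (W i) (W j)) →
      ∃ B : Finset V, (∀ v, 0 ≤ H49.NB.W G B {v}) ∧
        (∑ i ∈ range r, |(th (W i) B : ℝ)|) ≤ C * (Fintype.card V / S + S) := by
  have hg0 : (0 : ℝ) < g := by exact_mod_cast hg1
  obtain ⟨δ', hδ'⟩ : ∃ x : ℝ, x = min δ g := ⟨_, rfl⟩
  have hδp : 0 < δ' := by rw [hδ']; exact lt_min hδ hg0
  have hδg : δ' ≤ g := by rw [hδ']; exact min_le_right _ _
  have hδd : δ' ≤ δ := by rw [hδ']; exact min_le_left _ _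
  obtain ⟨s₁, hs₁⟩ : ∃ x : ℕ, x = ⌈2 / δ'⌉₊ + 1 := ⟨_, rfl⟩
  have hs1 : 1 ≤ s₁ := by omega
  have hδs : 2 ≤ δ' * s₁ := by
    have h1 : 2 / δ' ≤ (s₁ : ℝ) := by
      rw [hs₁]
      push_cast
      have h2 := Nat.le_ceil (2 / δ')
      linarith
    rw [div_le_iff₀ hδp] at h1
    linarith
  obtain ⟨κ, hκ⟩ : ∃ x : ℕ, x = (d + 1) * s₁ := ⟨_, rfl⟩
  have hκ1 : 1 ≤ κ := by rw [hκ]; exact Nat.mul_pos (Nat.succ_pos d) hs1
  have hs : 1 ≤ (d + 1) ^ κ := Nat.one_le_pow _ _ (Nat.succ_pos d)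
  have hc : (0 : ℝ) < ((d + 1 : ℕ) : ℝ) * κ / δ' := by
    have h1 : (0 : ℝ) < ((d + 1 : ℕ) : ℝ) := by exact_mod_cast Nat.succ_pos d
    have h2 : (0 : ℝ) < (κ : ℝ) := by exact_mod_cast hκ1
    positivity
  obtain ⟨C₀, hC₀, hmain⟩ := fewS d ((d + 1) ^ κ) r hs hr (((d + 1 : ℕ) : ℝ) * κ / δ') hc
  refine ⟨C₀ + 2, by linarith, ?_⟩
  intro S hS V _ _ G _ hd hgg hsp W hW
  have hS0 : (0 : ℝ) < S := by exact_mod_cast hS
  have hnn : (0 : ℝ) ≤ Fintype.card V / S + S := by positivity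
  have hSn : (S : ℝ) ≤ Fintype.card V / S + S := by
    have h1 : (0 : ℝ) ≤ Fintype.card V / S := by positivity
    linarith
  rcases hmain S hS V G hd W hW with h1 | ⟨A, E₀, hE, hsum, hopt⟩
  · refine ⟨∅, (triv G hW).1, ?_⟩
    have h2 := (triv G hW).2
    calc (∑ i ∈ range r, |(th (W i) (∅ : Finset V) : ℝ)|) ≤ Fintype.card V := h2
      _ ≤ C₀ * (Fintype.card V / S + S) := h1
      _ ≤ (C₀ + 2) * (Fintype.card V / S + S) := by nlinarith
  · have hA : KOpt G ((d + 1) * s₁) A E₀ := by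
      intro T hT hdis
      rcases T.eq_empty_or_nonempty with h0 | ⟨u, hu⟩
      · rw [h0, W_empty]
      · refine hopt T ?_ hdis
        have h2 : T ⊆ nb G ((d + 1) * s₁) {u} := hT u hu
        have h3 := card_nb_le G hd ((d + 1) * s₁) ({u} : Finset V)
        rw [Finset.card_singleton, mul_one] at h3
        rw [← hκ] at h3 h2
        exact (Finset.card_le_card h2).trans h3
    have hM : (((d + 1 : ℕ) : ℝ)) * (((d + 1 : ℕ) : ℝ) * s₁) * E₀.card < δ' * S := by
      have h2 : ((d + 1 : ℕ) : ℝ) * s₁ = κ := by rw [hκ]; push_cast; ring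
      rw [h2]
      have h3 : ((d + 1 : ℕ) : ℝ) * κ * E₀.card = δ' * (((d + 1 : ℕ) : ℝ) * κ / δ' * E₀.card) := by
        field_simp
      rw [h3]
      exact mul_lt_mul_of_pos_left hE hδp
    obtain ⟨B, hB1, hB2⟩ := complete G (d := d + 1) (g := g) (s₁ := s₁) (M := S) (δ := δ')
      (fun v => (hd v).trans (Nat.le_succ d)) (Nat.succ_le_succ (Nat.zero_le d)) hg1 hs1 hδp hδg hδs
      (A := A) (U := E₀) hA (fun σ v h => gain G hgg σ v h)
      (by
        intro L hL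
        have h2 := hsp L hL
        have h3 : (0 : ℝ) ≤ (L.card : ℝ) := Nat.cast_nonneg _
        have h4 : ((g : ℝ) + 2 - 2 * δ) * L.card ≤ (g + 2 - 2 * δ') * L.card := by
          refine mul_le_mul_of_nonneg_right ?_ h3
          linarith
        exact h2.trans h4) hM hS
    refine ⟨B, hB2, ?_⟩
    have h5 := th_change hW A B
    have h6 : ((A ∆ B).card : ℝ) ≤ S := by exact_mod_cast hB1
    nlinarith

end H49.LS
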