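import Pool.Agent.H49.LS.Defs

/-!
# Prescribed sets

`th W i A = |A ∩ W i| - |W i \ A|` for `i < r`, `0` for `i ≥ r`. `odd`: `Aᶜ ∩ W = W \ A`, `W \ Aᶜ = A ∩ W`. `lip`: `th W i A = ∑_{v ∈ W i} spin A v` where `spin A v = 1` if `v ∈ A`, else `-1`; so
`|th W i (A ∆ D) - th W i A| ≤ 2 |D ∩ W i|`, and `∑_i |D ∩ W i| ≤ |D|` as the `W i` are disjoint (`Finset.card_biUnion`).
-/

set_option autoImplicit false
set_option linter.unusedSectionVars false

namespace H49.LS

open Finset
open scoped Classical symmDiff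

variable {V : Type} [Fintype V] [DecidableEq V]

/-- the imbalance on a set -/
def th (W : Finset V) (A : Finset V) : ℤ := ((A ∩ W).card : ℤ) - ((W \ A).card : ℤ)

lemma th_compl (W A : Finset V) : th W Aᶜ = - th W A := by
  have h1 : Aᶜ ∩ W = W \ A := by
    ext x
    simp only [mem_inter, mem_compl, mem_sdiff]
    tauto
  have h2 : W \ Aᶜ = A ∩ W := by
    ext x
    simp only [mem_inter, mem_compl, mem_sdiff, not_not]
    tauto
  unfold th
  rw [h1, h2]
  ring

private lemma Odd_sum (W A : Finset V) : th W A = ∑ v ∈ W, (if v ∈ A then (1 : ℤ) else -1) := by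
  have h1 : A ∩ W = W.filter (fun v => v ∈ A) := by
    ext x
    simp only [mem_inter, mem_filter]
    tauto
  have h2 : W \ A = W.filter (fun v => ¬ v ∈ A) := by
    ext x
    simp only [mem_sdiff, mem_filter]
  unfold th
  rw [Finset.sum_ite, h1, h2]
  simp
  ring

lemma th_lip (W A D : Finset V) : |th W (A ∆ D) - th W A| ≤ 2 * ((D ∩ W).card : ℤ) := by
  rw [Odd_sum, Odd_sum, ← Finset.sum_sub_distrib]
  have h3 : ∀ v ∈ W, |(if v ∈ A ∆ D then (1 : ℤ) else -1) - (if v ∈ A then (1 : ℤ) else -1)| ≤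
      if v ∈ D then 2 else 0 := by
    intro v _
    by_cases h1 : v ∈ A <;> by_cases h2 : v ∈ D <;> simp [Finset.mem_symmDiff, h1, h2]
  refine (Finset.abs_sum_le_sum_abs _ _).trans ((Finset.sum_le_sum h3).trans ?_)
  rw [← Finset.sum_filter]
  have h4 : W.filter (fun v => v ∈ D) = D ∩ W := by
    ext x
    simp only [mem_inter, mem_filter]
    tauto
  rw [h4]
  simp
  linarith

lemma odds_th {r : ℕ} {W : ℕ → Finset V} (hW : ∀ i < r, ∀ j < r, i ≠ j → Disjoint (W i) (W j)) :
    Odds r (fun i => th (W i)) := by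
  refine ⟨fun i A => th_compl (W i) A, fun A D => ?_⟩
  refine (Finset.sum_le_sum (fun i _ => th_lip (W i) A D)).trans ?_
  rw [← Finset.mul_sum]
  have h1 : ∑ i ∈ range r, (D ∩ W i).card ≤ D.card := by
    rw [← Finset.card_biUnion]
    · apply Finset.card_le_card
      intro x hx
      simp only [mem_biUnion, mem_inter] at hx
      obtain ⟨_, _, h, _⟩ := hx
      exact h
    · intro i hi j hj hij
      exact (hW i (mem_range.1 (by simpa using hi)) j (mem_range.1 (by simpa using hj)) hij).mono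
        Finset.inter_subset_right Finset.inter_subset_right
  have h2 : ∑ i ∈ range r, ((D ∩ W i).card : ℤ) ≤ (D.card : ℤ) := by
    exact_mod_cast h1
  linarith

end H49.LS
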