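import Pool.Agent.H49.LS.Main
import Pool.Agent.H49.LS.CutL
import Pool.Agent.H49.LS.Odd

/-!
# Few defects (Theorem A)

`main` with `H = cutn G`, `N = nbr G`, `e` = number of edges, `β = s (d+1)`, `θ i = th (W i)`. `E = 𝓦.biUnion (nbr G)`: `|E| ≤ |𝓦| * ((d+1) s) ≤ s (d+1) (r K) s (d+1)` (`card_nbr_le`-type lemma of
`H97.Int`: `(nbr G D).card ≤ (d + 1) * D.card`).
-/

set_option autoImplicit false
set_option linter.unusedSectionVars false

namespace H49.LS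

open Finset H97.Int
open scoped Classical symmDiff

variable {V : Type} [Fintype V] [DecidableEq V] (G : SimpleGraph V) [DecidableRel G.Adj]

theorem fewD {d s r K : ℕ} (hd : ∀ v, G.degree v ≤ d) (hs : 1 ≤ s) (hr : 1 ≤ r) (hK : 1 ≤ K)
    (hn : s * (r * K) < Fintype.card V) {W : ℕ → Finset V}
    (hW : ∀ i < r, ∀ j < r, i ≠ j → Disjoint (W i) (W j)) :
    ∃ A E : Finset V, E.card ≤ (s * (d + 1)) ^ 2 * (r * K) ∧
      K * ∑ i ∈ range r, |th (W i) A| ≤ ((2 * s * G.edgeFinset.card + s * (r * K) ^ 2 : ℕ) : ℤ) ∧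
      ∀ Q : Finset V, Q.card ≤ s → Disjoint Q E → cut G A ≤ cut G (A ∆ Q) := by
  obtain ⟨τ, 𝓦, hF, hc, hQ, hb⟩ := main (s := s) (r := r) (K := K) (e := G.edgeFinset.card)
    (β := s * (d + 1)) hs hr hK hn (N := nbr G) (H := cutn G) (loc_cut G) (cutn_le G)
    (θ := fun i => th (W i)) (odds_th hW)
    (fun τ 𝓦 h u hu => conf_card G hd τ 𝓦 h u hu)
  refine ⟨τ, 𝓦.biUnion (nbr G), ?_, hb, ?_⟩
  · have h1 : ∀ D ∈ 𝓦, (nbr G D).card ≤ (d + 1) * s := by
      intro D hD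
      exact (card_nbr_le G hd D).trans (Nat.mul_le_mul_left _ (hF.1 D hD).2.1)
    calc (𝓦.biUnion (nbr G)).card ≤ 𝓦.card * ((d + 1) * s) := Finset.card_biUnion_le_card_mul _ _ _ h1
      _ ≤ (s * (d + 1) * (r * K)) * ((d + 1) * s) := Nat.mul_le_mul_right _ hc
      _ = (s * (d + 1)) ^ 2 * (r * K) := by ring
  · intro Q hQs hQd
    have h := hQ Q hQs hQd
    rw [← cutn_cast, ← cutn_cast]
    exact_mod_cast h

end H49.LS
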