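import Pool.Agent.H49.LS.FewD

/-!
# Few defects, with a free scale `S`

`C₁ = (s (d+1))^2 r`, `S₁ = ⌈c C₁⌉₊ + 1`, `K = S / S₁` (natural division), `C = 2 S₁ s d + s r^2 + s r + S₁ + 1`. If `K = 0`: `S < S₁`, `n ≤ S₁ (n / S) ≤ C (n / S + S)`. If `K ≥ 1` and `n ≤ s (r K)`:
`n ≤ s r S`. Otherwise `fewD`: `|E| ≤ C₁ K`, `c |E| ≤ c C₁ K < S₁ K ≤ S`; `K ∑ ≤ 2 s e + s (r K)^2`, `2 e ≤ d n` (`∑ degree = 2 e`), so `∑ ≤ s d n / K + s r^2 K`, `S ≤ 2 S₁ K`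
(`S < S₁ (K + 1)`), so `n / K ≤ 2 S₁ n / S`, and `K ≤ S`. `0 ≤ W G A Q` from `cut G A ≤ cut G (A ∆ Q) = cut G A + W G A Q`.
-/

set_option autoImplicit false
set_option linter.unusedSectionVars false

namespace H49.LS

open Finset H97.Int H49.NB
open scoped Classical symmDiff

theorem fewS (d s r : ℕ) (hs : 1 ≤ s) (hr : 1 ≤ r) (c : ℝ) (hc : 0 < c) :
    ∃ C : ℝ, 0 < C ∧ ∀ S : ℕ, 1 ≤ S → ∀ (V : Type) [Fintype V] [DecidableEq V] (G : SimpleGraph V)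
      [DecidableRel G.Adj], (∀ v, G.degree v ≤ d) →
      ∀ W : ℕ → Finset V, (∀ i < r, ∀ j < r, i ≠ j → Disjoint (W i) (W j)) →
      (Fintype.card V : ℝ) ≤ C * (Fintype.card V / S + S) ∨
      ∃ A E : Finset V, c * E.card < S ∧
        (∑ i ∈ range r, |(th (W i) A : ℝ)|) ≤ C * (Fintype.card V / S + S) ∧
        ∀ Q : Finset V, Q.card ≤ s → Disjoint Q E → 0 ≤ H49.NB.W G A Q := by
  obtain ⟨S₁, hS₁pos, hS₁⟩ : ∃ S₁ : ℕ, 1 ≤ S₁ ∧ c * (((s * (d + 1)) ^ 2 * r : ℕ) : ℝ) < S₁ := by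
    refine ⟨⌈c * (((s * (d + 1)) ^ 2 * r : ℕ) : ℝ)⌉₊ + 1, Nat.le_add_left 1 _, ?_⟩
    have h1 := Nat.le_ceil (c * (((s * (d + 1)) ^ 2 * r : ℕ) : ℝ))
    push_cast at h1 ⊢
    linarith
  have hS₁R : (1 : ℝ) ≤ S₁ := by exact_mod_cast hS₁pos
  have hsR : (0 : ℝ) ≤ s := Nat.cast_nonneg s
  have hdR : (0 : ℝ) ≤ d := Nat.cast_nonneg d
  have hrR : (0 : ℝ) ≤ r := Nat.cast_nonneg r
  have t1 : (0 : ℝ) ≤ 2 * S₁ * s * d := by positivity
  have t2 : (0 : ℝ) ≤ s * (r : ℝ) ^ 2 := by positivity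
  have t3 : (0 : ℝ) ≤ (s : ℝ) * r := by positivity
  refine ⟨2 * S₁ * s * d + s * (r : ℝ) ^ 2 + s * r + S₁ + 1, by linarith, ?_⟩
  intro S hS V _ _ G _ hdeg W hW
  have hSR : (1 : ℝ) ≤ S := by exact_mod_cast hS
  have hSpos : (0 : ℝ) < S := by linarith
  obtain ⟨X, hX0, hXS⟩ : ∃ X : ℝ, 0 ≤ X ∧ (Fintype.card V : ℝ) = X * S ∧ (Fintype.card V : ℝ) / S = X :=
    ⟨(Fintype.card V : ℝ) / S, by positivity, by field_simp, rfl⟩
  rw [hXS.2]
  have hXn := hXS.1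
  set C : ℝ := 2 * S₁ * s * d + s * (r : ℝ) ^ 2 + s * r + S₁ + 1 with hC
  have hXS0 : 0 ≤ X + S := by linarith
  -- the natural quotient
  obtain ⟨K, hK⟩ : ∃ K : ℕ, K = S / S₁ := ⟨_, rfl⟩
  have hKS : K ≤ S := hK ▸ Nat.div_le_self S S₁
  have hKS1 : S₁ * K ≤ S := hK ▸ Nat.mul_div_le S S₁
  have hSlt : S < S₁ * (K + 1) := by
    have h1 := Nat.lt_mul_div_succ S (Nat.pos_of_ne_zero (by omega) : 0 < S₁)
    rw [← hK] at h1
    exact h1
  have hKSR : (K : ℝ) ≤ S := by exact_mod_cast hKS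
  by_cases hK0 : K = 0
  · left
    rw [hK0] at hSlt
    have h1 : (S : ℝ) ≤ S₁ := by
      have : S ≤ S₁ := by omega
      exact_mod_cast this
    have h2 : X * S ≤ X * S₁ := mul_le_mul_of_nonneg_left h1 hX0
    have h3 : (S₁ : ℝ) * (X + S) ≤ C * (X + S) := by
      refine mul_le_mul_of_nonneg_right ?_ hXS0
      rw [hC]
      linarith
    have h4 : (0 : ℝ) ≤ S₁ * S := by positivity
    rw [hXn]
    nlinarith
  have hK1 : 1 ≤ K := Nat.one_le_iff_ne_zero.2 hK0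
  have hK1R : (1 : ℝ) ≤ K := by exact_mod_cast hK1
  have hKpos : (0 : ℝ) < K := by linarith
  by_cases hn : Fintype.card V ≤ s * (r * K)
  · left
    have h1 : (Fintype.card V : ℝ) ≤ s * (r * K) := by exact_mod_cast hn
    have h2 : (s : ℝ) * (r * K) ≤ s * r * S := by
      have := mul_le_mul_of_nonneg_left hKSR t3
      linarith
    have h3 : (s : ℝ) * r * (X + S) ≤ C * (X + S) := by
      refine mul_le_mul_of_nonneg_right ?_ hXS0
      rw [hC]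
      linarith
    have h4 : (0 : ℝ) ≤ s * r * X := by positivity
    nlinarith
  right
  push Not at hn
  obtain ⟨A, E, hE, hth, hcut⟩ := fewD G hdeg hs hr hK1 hn hW
  refine ⟨A, E, ?_, ?_, ?_⟩
  · have h1 : (E.card : ℝ) ≤ (((s * (d + 1)) ^ 2 * r : ℕ) : ℝ) * K := by
      have h2 : E.card ≤ ((s * (d + 1)) ^ 2 * r) * K := by
        rw [mul_assoc]
        exact hE
      exact_mod_cast h2
    calc c * E.card ≤ c * ((((s * (d + 1)) ^ 2 * r : ℕ) : ℝ) * K) := mul_le_mul_of_nonneg_left h1 hc.le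
      _ = (c * (((s * (d + 1)) ^ 2 * r : ℕ) : ℝ)) * K := by ring
      _ < S₁ * K := mul_lt_mul_of_pos_right hS₁ hKpos
      _ ≤ S := by exact_mod_cast hKS1
  · have h1 : (K : ℝ) * ∑ i ∈ range r, |(th (W i) A : ℝ)| ≤
        2 * s * G.edgeFinset.card + s * (r * K) ^ 2 := by
      have h2 : ((K * ∑ i ∈ range r, |th (W i) A| : ℤ) : ℝ) ≤
          (((2 * s * G.edgeFinset.card + s * (r * K) ^ 2 : ℕ) : ℤ) : ℝ) := Int.cast_le.2 hth
      push_cast at h2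
      exact h2
    have he : 2 * (G.edgeFinset.card : ℝ) ≤ d * Fintype.card V := by
      have h2 := G.sum_degrees_eq_twice_card_edges
      have h3 : ∑ v, G.degree v ≤ ∑ _v : V, d := Finset.sum_le_sum fun v _ => hdeg v
      rw [h2, Finset.sum_const, Finset.card_univ, smul_eq_mul, mul_comm (Fintype.card V)] at h3
      exact_mod_cast h3
    have hS2 : (S : ℝ) ≤ 2 * S₁ * K := by
      have h2 : S ≤ 2 * S₁ * K := by nlinarith
      exact_mod_cast h2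
    have hn2 : (Fintype.card V : ℝ) ≤ X * (2 * S₁ * K) := by
      rw [hXn]
      exact mul_le_mul_of_nonneg_left hS2 hX0
    have h5 : (K : ℝ) * ∑ i ∈ range r, |(th (W i) A : ℝ)| ≤
        K * (2 * S₁ * s * d * X + s * (r : ℝ) ^ 2 * S) := by
      have e1 : 2 * (s : ℝ) * G.edgeFinset.card ≤ s * (d * (X * (2 * S₁ * K))) := by
        have e2 : (s : ℝ) * (2 * (G.edgeFinset.card : ℝ)) ≤ s * (d * Fintype.card V) :=
          mul_le_mul_of_nonneg_left he hsR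
        have e3 : (s : ℝ) * (d * Fintype.card V) ≤ s * (d * (X * (2 * S₁ * K))) :=
          mul_le_mul_of_nonneg_left (mul_le_mul_of_nonneg_left hn2 hdR) hsR
        linarith
      have e4 : (s : ℝ) * (r * K) ^ 2 ≤ K * (s * (r : ℝ) ^ 2 * S) := by
        have e5 : (s : ℝ) * (r : ℝ) ^ 2 * K * K ≤ s * (r : ℝ) ^ 2 * K * S :=
          mul_le_mul_of_nonneg_left hKSR (by positivity)
        nlinarith
      nlinarith
    have h6 := le_of_mul_le_mul_left h5 hKpos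
    refine le_trans h6 ?_
    have h7 : (0 : ℝ) ≤ 2 * S₁ * s * d * S := by positivity
    have h8 : (0 : ℝ) ≤ s * (r : ℝ) ^ 2 * X := by positivity
    have h9 : (0 : ℝ) ≤ (s * r + S₁ + 1) * (X + S) := by positivity
    rw [hC]
    nlinarith
  · intro Q hQ hdis
    have h1 := hcut Q hQ hdis
    rw [cut_flip_set] at h1
    linarith

end H49.LS
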