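import Pool.Agent.H49.LS.ChB

/-!
# The half lemma

For every family `W` with `un W ≠ univ` choose `pick W ∉ un W`. Let `t A W = c A W` if `pick W ∈ A`, else `0`. If `c A W ≠ 0` then `Adm s W`, `W.card = j`, so `|un W| ≤ s j < n` and `pick W ∉ un W`.
`inv`: for `D ∈ W`, `pick W ∉ D`, so `pick W ∈ A ∆ D ↔ pick W ∈ A`. `t + nu t = c`: exactly one of `A`, `Aᶜ` contains `pick W`, and `c Aᶜ W = c A W`.
The version `half_pos`: any rule `R A W` which is invariant under `A ↦ A ∆ D`, `D ∈ W`, and such that exactly one of `R A W`, `R Aᶜ W` holds whenever `c A W ≠ 0` can be used instead of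
`pick W ∈ A`; prove this version first.
-/

set_option autoImplicit false
set_option linter.unusedSectionVars false

namespace H49.LS

open Finset
open scoped Classical symmDiff

variable {V : Type} [Fintype V] [DecidableEq V]

lemma half_pos {s j : ℕ} {c : Ch V} (hc : IsCh s j c) (hs : nu c = c)
    (R : Finset V → Finset (Finset V) → Prop) (hinv : ∀ A W, c A W ≠ 0 → ∀ D ∈ W, (R (A ∆ D) W ↔ R A W))
    (hR : ∀ A W, c A W ≠ 0 → (R Aᶜ W ↔ ¬ R A W)) :
    IsCh s j (fun A W => if R A W then c A W else 0) ∧
      (fun A W => if R A W then c A W else 0) + nu (fun A W => if R A W then c A W else 0) = c := by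
  have hsy : ∀ A W, c Aᶜ W = c A W := fun A W => congrFun (congrFun hs A) W
  refine ⟨⟨?_, ?_⟩, ?_⟩
  · intro A W D hD
    by_cases h0 : c A W = 0
    · have h1 : c (A ∆ D) W = 0 := by rw [hc.inv A W D hD, h0]
      simp only [h0, h1, ite_self]
    · simp only [hinv A W h0 D hD, hc.inv A W D hD]
  · intro A W h
    apply hc.sup A W
    intro h0
    apply h
    simp only [h0, ite_self]
  · funext A W
    change (if R A W then c A W else 0) + (if R Aᶜ W then c Aᶜ W else 0) = c A W
    rw [hsy A W]
    by_cases h0 : c A W = 0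
    · simp only [h0, ite_self, add_zero]
    · have h1 := hR A W h0
      by_cases h2 : R A W
      · rw [if_pos h2, if_neg (by rw [h1]; exact not_not.2 h2), add_zero]
      · rw [if_neg h2, if_pos (h1.2 h2), zero_add]

/-- a vertex outside the union of the family -/
lemma exists_pick {s j : ℕ} (hn : s * j < Fintype.card V) {W : Finset (Finset V)} (hW : Adm s W) (hj : W.card = j) :
    ∃ x, x ∉ un W := by
  by_contra hcon
  push Not at hcon
  have h1 : un W = univ := Finset.eq_univ_of_forall hcon
  have h2 := card_un_le hW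
  rw [h1, Finset.card_univ, hj] at h2
  omega

lemma half {s j : ℕ} (hn : s * j < Fintype.card V) {c : Ch V} (hc : IsCh s j c) (hs : nu c = c)
    {P : Finset V → Prop} (hP : Spt P c) : ∃ t : Ch V, IsCh s j t ∧ Spt P t ∧ t + nu t = c := by
  let R : Finset V → Finset (Finset V) → Prop := fun A W =>
    if h : ∃ x, x ∉ un W then h.choose ∈ A else True
  have key : ∀ A W, c A W ≠ 0 → ∃ x, x ∉ un W ∧ ∀ B, R B W ↔ x ∈ B := by
    intro A W h0
    obtain ⟨h1, h2⟩ := hc.sup A W h0
    have h3 : ∃ x, x ∉ un W := exists_pick hn h1 h2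
    refine ⟨h3.choose, h3.choose_spec, fun B => ?_⟩
    simp only [R, dif_pos h3]
  have h := half_pos hc hs R (fun A W h0 D hD => by
      obtain ⟨x, hx, hB⟩ := key A W h0
      rw [hB, hB, Finset.mem_symmDiff]
      have hxD : x ∉ D := fun h => hx (sub_un hD h)
      tauto) (fun A W h0 => by
      obtain ⟨x, hx, hB⟩ := key A W h0
      rw [hB, hB, Finset.mem_compl])
  refine ⟨_, h.1, ?_, h.2⟩
  intro A W h0
  apply hP A W
  intro h1
  apply h0
  simp only [h1, ite_self]

end H49.LS
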