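import Pool.Agent.H49.LS.Intf

/-!
# The interface lemma for several functions

Induction on `r'`, for `r' ≤ r` functions `θ 0, .., θ (r'-1)`: `HasT s (j + r') P → HasT s j (P ∧ ∀ i < r', |θ i| ≤ s M)`, whenever `j + r' ≤ M`, `s M < n`. Step: `HasT s (j + (r'+1)) P =
HasT s ((j+1) + r') P`, by induction `HasT s (j+1) (P ∧ ∀ i < r', ..)`, then `interface` with `θ r'` (`j + 1 ≤ M`, monotone by `hasT_mono`). A single `θ i`, `i < r`, is `2`-Lipschitz by
`Finset.single_le_sum`. The predicate is symmetric (`hodd`, `abs_neg`).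
-/

set_option autoImplicit false
set_option linter.unusedSectionVars false

namespace H49.LS

open Finset
open scoped Classical symmDiff

variable {V : Type} [Fintype V] [DecidableEq V]

lemma odds_lip {r : ℕ} {θ : ℕ → Finset V → ℤ} (hθ : Odds r θ) {i : ℕ} (hi : i < r) (A D : Finset V) :
    |θ i (A ∆ D) - θ i A| ≤ 2 * (D.card : ℤ) := by
  refine le_trans ?_ (hθ.lip A D)
  exact Finset.single_le_sum (f := fun i => |θ i (A ∆ D) - θ i A|) (fun k _ => abs_nonneg _) (mem_range.2 hi)

private lemma interfaces_aux {s r M : ℕ} (hn : s * M < Fintype.card V) {P : Finset V → Prop}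
    (hP : Sym P) {θ : ℕ → Finset V → ℤ} (hθ : Odds r θ) :
    ∀ r' ≤ r, ∀ j : ℕ, j + r' ≤ M → HasT s (j + r') P →
      HasT s j (fun A => P A ∧ ∀ i < r', |θ i A| ≤ (s : ℤ) * M) := by
  intro r'
  induction r' with
  | zero =>
    intro _ j _ ht
    exact hasT_mono (fun A hA => ⟨hA, fun i hi => absurd hi (Nat.not_lt_zero i)⟩) ht
  | succ q ih =>
    intro hq j hj ht
    have h1 : HasT s ((j + 1) + q) P := by
      have e : (j + 1) + q = j + (q + 1) := by omega
      rw [e]; exact ht
    have h2 := ih (by omega) (j + 1) (by omega) h1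
    have hjM : j + 1 ≤ M := by omega
    have hn' : s * (j + 1) < Fintype.card V := lt_of_le_of_lt (Nat.mul_le_mul_left s hjM) hn
    have hsym : Sym (fun A => P A ∧ ∀ i < q, |θ i A| ≤ (s : ℤ) * M) := by
      intro A hA
      refine ⟨hP A hA.1, fun i hi => ?_⟩
      rw [hθ.odd, abs_neg]
      exact hA.2 i hi
    have h3 := interface hn' hsym (θ := θ q) (fun A => hθ.odd q A)
      (fun A D => odds_lip hθ (by omega : q < r) A D) h2
    refine hasT_mono (fun A hA => ⟨hA.1.1, fun i hi => ?_⟩) h3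
    rcases Nat.lt_succ_iff_lt_or_eq.1 hi with h | h
    · exact hA.1.2 i h
    · subst h
      refine le_trans hA.2 ?_
      have : ((j : ℤ) + 1) ≤ (M : ℤ) := by exact_mod_cast hjM
      exact mul_le_mul_of_nonneg_left this (by positivity)

theorem interfaces {s r j M : ℕ} (hM : j + r ≤ M) (hn : s * M < Fintype.card V) {P : Finset V → Prop}
    (hP : Sym P) {θ : ℕ → Finset V → ℤ} (hθ : Odds r θ) (ht : HasT s (j + r) P) :
    HasT s j (fun A => P A ∧ ∀ i < r, |θ i A| ≤ (s : ℤ) * M) := by
  exact interfaces_aux hn hP hθ r le_rfl j hM ht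

end H49.LS
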