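import Pool.Agent.H49.LS.Desc

/-!
# The interface lemma

`y = h (m+1) + nu (h (m+1))`: `nu y = y`, `bd y = 0` (`top_cycle`), `Spt P y`. `Th A W = θ (A \ un W) + θ (A ∪ un W)`: invariant under `A ↦ A ∆ D`, `D ∈ W` (`D ⊆ un W`), and `Th Aᶜ W = - Th A W`
(`(Aᶜ \ U) = (A ∪ U)ᶜ`, `(Aᶜ ∪ U) = (A \ U)ᶜ`, `hodd`). `pick W ∉ un W` for the `W` which occur. `R A W := 0 < Th A W ∨ (Th A W = 0 ∧ pick W ∈ A)`. `u = y` where `R`, else `0`
(`half_pos`: `u + nu u = y`). So `h (m+1) + u` is symmetric, `= t + nu t` (`half`), and `bd u = bd h_(m+1) + bd t + nu bd t = (h_m + bd t) + nu (h_m + bd t)`. By `tow_change`-type reasoning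
`h'' = update h m (h m + bd t)` is a tower of height `m` (restrict the tower `h` to height `m`, `P = True`), with top `bd u`.
`bd u` is supported on `P ∧ |θ| ≤ s (m+1)`: if `bd u A W ≠ 0` there is `D ∉ W` with `u A (insert D W) ≠ 0`, so `P A` and `Th A (insert D W) ≥ 0`; as `bd y A W = 0` and `bd u A W ≠ 0` there is
`D' ∉ W` with `y A (insert D' W) ≠ 0` and `u A (insert D' W) = 0`, so `¬ R`, `Th A (insert D' W) ≤ 0`. And `|Th A W' - 2 θ A| ≤ 2 |un W'| ≤ 2 s (m+1)` for admissible `W'` with `m + 1`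
members: `A \ U = A ∆ (A ∩ U)`, `A ∪ U = A ∆ (U \ A)`, `hlip` twice, `|A ∩ U| + |U \ A| = |U|`. Apply `descend` with `Q = P ∧ |θ| ≤ s (m+1)`, symmetric.
-/

set_option autoImplicit false
set_option linter.unusedSectionVars false

namespace H49.LS

open Finset
open scoped Classical symmDiff

variable {V : Type} [Fintype V] [DecidableEq V]

lemma th_near {s m : ℕ} {θ : Finset V → ℤ} (hlip : ∀ A D, |θ (A ∆ D) - θ A| ≤ 2 * (D.card : ℤ))
    (A : Finset V) {W : Finset (Finset V)} (hW : Adm s W) (hm : W.card = m) :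
    |θ (A \ un W) + θ (A ∪ un W) - 2 * θ A| ≤ 2 * ((s : ℤ) * m) := by
  have h1 : A \ un W = A ∆ (A ∩ un W) := by
    ext x
    simp only [Finset.mem_sdiff, Finset.mem_symmDiff, Finset.mem_inter]
    tauto
  have h2 : A ∪ un W = A ∆ (un W \ A) := by
    ext x
    simp only [Finset.mem_union, Finset.mem_symmDiff, Finset.mem_sdiff]
    tauto
  have h3 := hlip A (A ∩ un W)
  have h4 := hlip A (un W \ A)
  rw [← h1] at h3
  rw [← h2] at h4
  have h5 : (A ∩ un W).card + (un W \ A).card = (un W).card := by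
    rw [Finset.inter_comm]
    exact Finset.card_inter_add_card_sdiff (un W) A
  have h6 := card_un_le hW
  rw [hm] at h6
  have h7 : ((A ∩ un W).card : ℤ) + ((un W \ A).card : ℤ) ≤ (s : ℤ) * m := by
    exact_mod_cast h5.trans_le h6
  have h8 : θ (A \ un W) + θ (A ∪ un W) - 2 * θ A =
      (θ (A \ un W) - θ A) + (θ (A ∪ un W) - θ A) := by ring
  rw [h8]
  refine (abs_add_le _ _).trans ?_
  linarith

theorem interface {s m : ℕ} (hn : s * (m + 1) < Fintype.card V) {P : Finset V → Prop} (hP : Sym P)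
    {θ : Finset V → ℤ} (hodd : ∀ A, θ Aᶜ = - θ A) (hlip : ∀ A D, |θ (A ∆ D) - θ A| ≤ 2 * (D.card : ℤ))
    (ht : HasT s (m + 1) P) : HasT s m (fun A => P A ∧ |θ A| ≤ (s : ℤ) * (m + 1)) := by
  obtain ⟨h, ht⟩ := ht
  have hch := ht.ch (m + 1) le_rfl
  have hbd : bd (h (m + 1) + nu (h (m + 1))) = 0 := top_cycle ht
  have hsp : Spt P (h (m + 1) + nu (h (m + 1))) :=
    spt_add (ht.spt (m + 1) le_rfl) (spt_nu hP (ht.spt (m + 1) le_rfl))
  have hyc : IsCh s (m + 1) (h (m + 1) + nu (h (m + 1))) := isCh_add hch (isCh_nu hch)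
  have hys : nu (h (m + 1) + nu (h (m + 1))) = h (m + 1) + nu (h (m + 1)) := nu_sym _
  obtain ⟨y, hy⟩ : ∃ y : Ch V, y = h (m + 1) + nu (h (m + 1)) := ⟨_, rfl⟩
  rw [← hy] at hbd hsp hyc hys
  -- the rule
  let Th : Finset V → Finset (Finset V) → ℤ := fun A W => θ (A \ un W) + θ (A ∪ un W)
  let pk : Finset V → Finset (Finset V) → Prop := fun A W =>
    if h : ∃ x, x ∉ un W then h.choose ∈ A else True
  let R : Finset V → Finset (Finset V) → Prop := fun A W => 0 < Th A W ∨ (Th A W = 0 ∧ pk A W)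
  have key : ∀ A W, y A W ≠ 0 → ∃ x, x ∉ un W ∧ ∀ B, pk B W ↔ x ∈ B := by
    intro A W h0
    obtain ⟨h1, h2⟩ := hyc.sup A W h0
    have h3 : ∃ x, x ∉ un W := exists_pick hn h1 h2
    refine ⟨h3.choose, h3.choose_spec, fun B => ?_⟩
    simp only [pk, dif_pos h3]
  have hTh : ∀ A W, ∀ D ∈ W, Th (A ∆ D) W = Th A W := by
    intro A W D hD
    have hDU := sub_un hD
    have h1 : (A ∆ D) \ un W = A \ un W := by
      ext x
      have := @hDU x
      simp only [Finset.mem_sdiff, Finset.mem_symmDiff]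
      tauto
    have h2 : (A ∆ D) ∪ un W = A ∪ un W := by
      ext x
      have := @hDU x
      simp only [Finset.mem_union, Finset.mem_symmDiff]
      tauto
    show θ ((A ∆ D) \ un W) + θ ((A ∆ D) ∪ un W) = θ (A \ un W) + θ (A ∪ un W)
    rw [h1, h2]
  have hThc : ∀ A W, Th Aᶜ W = - Th A W := by
    intro A W
    have h1 : Aᶜ \ un W = (A ∪ un W)ᶜ := by
      ext x
      simp only [Finset.mem_sdiff, Finset.mem_compl, Finset.mem_union]
      tauto
    have h2 : Aᶜ ∪ un W = (A \ un W)ᶜ := by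
      ext x
      simp only [Finset.mem_sdiff, Finset.mem_compl, Finset.mem_union]
      tauto
    show θ (Aᶜ \ un W) + θ (Aᶜ ∪ un W) = -(θ (A \ un W) + θ (A ∪ un W))
    rw [h1, h2, hodd, hodd]
    ring
  have hhp := half_pos hyc hys R (fun A W h0 D hD => by
      obtain ⟨x, hx, hB⟩ := key A W h0
      have hxD : x ∉ D := fun h => hx (sub_un hD h)
      show (0 < Th (A ∆ D) W ∨ (Th (A ∆ D) W = 0 ∧ pk (A ∆ D) W)) ↔
        (0 < Th A W ∨ (Th A W = 0 ∧ pk A W))
      rw [hTh A W D hD, hB, hB, Finset.mem_symmDiff]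
      tauto) (fun A W h0 => by
      obtain ⟨x, hx, hB⟩ := key A W h0
      show (0 < Th Aᶜ W ∨ (Th Aᶜ W = 0 ∧ pk Aᶜ W)) ↔
        ¬ (0 < Th A W ∨ (Th A W = 0 ∧ pk A W))
      rw [hThc, hB, hB, Finset.mem_compl]
      constructor
      · rintro (h1 | ⟨h1, h2⟩) (h3 | ⟨h3, h4⟩)
        · omega
        · omega
        · omega
        · exact h2 h4
      · intro h1
        push Not at h1
        obtain ⟨h2, h3⟩ := h1
        by_cases h4 : Th A W = 0
        · exact Or.inr ⟨by omega, h3 h4⟩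
        · exact Or.inl (by omega))
  obtain ⟨u, hu1, hu2, hup, hun⟩ : ∃ u : Ch V, IsCh s (m + 1) u ∧ u + nu u = y ∧
      (∀ B X, R B X → u B X = y B X) ∧ (∀ B X, ¬ R B X → u B X = 0) :=
    ⟨_, hhp.1, hhp.2, fun _ _ h => if_pos h, fun _ _ h => if_neg h⟩
  -- `h (m+1) + u` is symmetric
  have hsymm : nu (h (m + 1) + u) = h (m + 1) + u := by
    have h1 : h (m + 1) + u + nu (h (m + 1) + u) = 0 := by
      have h2 : h (m + 1) + u + nu (h (m + 1) + u) =
          (h (m + 1) + nu (h (m + 1))) + (u + nu u) := by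
        rw [nu_add]
        abel
      rw [h2, hu2, ← hy, cadd_self]
    have h3 := cadd_eq h1
    rw [add_zero] at h3
    exact h3.symm
  obtain ⟨t, ht1, -, ht3⟩ := half hn (isCh_add hch hu1) hsymm (spt_true _)
  -- the boundary of `u`
  have hut : u = h (m + 1) + (t + nu t) := by
    rw [ht3, ← add_assoc, cadd_self, zero_add]
  have hbu : bd u = (h m + bd t) + nu (h m + bd t) := by
    rw [hut, bd_add, bd_add, bd_nu, ht.bdy m (Nat.lt_succ_self m), nu_add]
    abel
  have htow : Tow s m (fun _ => True) h :=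
    ⟨fun i hi => ht.ch i (hi.trans (Nat.le_succ m)), ht.one,
      fun i hi => ht.bdy i (hi.trans (Nat.lt_succ_self m)), fun i _ => spt_true _⟩
  have htow2 := tow_change htow ht1
  have hQ : Sym (fun A => P A ∧ |θ A| ≤ (s : ℤ) * (m + 1)) := by
    rintro A ⟨h1, h2⟩
    refine ⟨hP A h1, ?_⟩
    rw [hodd, abs_neg]
    exact h2
  have hsup : Spt (fun A => P A ∧ |θ A| ≤ (s : ℤ) * (m + 1)) (bd u) := by
    intro A W h0
    obtain ⟨D, hD, hne⟩ := Finset.exists_ne_zero_of_sum_ne_zero h0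
    rw [Finset.mem_filter] at hD
    have hy1 : y A (insert D W) ≠ 0 := by
      intro h1
      by_cases h2 : R A (insert D W)
      · rw [hup _ _ h2, h1] at hne
        exact hne rfl
      · rw [hun _ _ h2] at hne
        exact hne rfl
    have hR1 : R A (insert D W) := by
      by_contra h1
      rw [hun _ _ h1] at hne
      exact hne rfl
    obtain ⟨D', hD', hy2, hR2⟩ : ∃ D', D' ∉ W ∧ y A (insert D' W) ≠ 0 ∧
        ¬ R A (insert D' W) := by
      by_contra hcon
      push Not at hcon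
      apply h0
      have h1 : bd u A W = bd y A W := by
        refine Finset.sum_congr rfl fun D' hD' => ?_
        rw [Finset.mem_filter] at hD'
        by_cases h2 : y A (insert D' W) = 0
        · by_cases h3 : R A (insert D' W)
          · rw [hup _ _ h3]
          · rw [hun _ _ h3, h2]
        · rw [hup _ _ (hcon D' hD'.2 h2)]
      rw [h1, hbd]
      rfl
    have hA1 := hyc.sup A _ hy1
    have hA2 := hyc.sup A _ hy2
    have hn1 := th_near hlip A hA1.1 hA1.2
    have hn2 := th_near hlip A hA2.1 hA2.2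
    have hp1 : 0 ≤ Th A (insert D W) := by
      rcases hR1 with h1 | h1
      · exact h1.le
      · exact h1.1.ge
    have hp2 : Th A (insert D' W) ≤ 0 := by
      by_contra h1
      exact hR2 (Or.inl (not_le.1 h1))
    refine ⟨hsp A _ hy1, ?_⟩
    have hp1' : 0 ≤ θ (A \ un (insert D W)) + θ (A ∪ un (insert D W)) := hp1
    have hp2' : θ (A \ un (insert D' W)) + θ (A ∪ un (insert D' W)) ≤ 0 := hp2
    rw [abs_le] at hn1 hn2 ⊢
    push_cast at hn1 hn2
    constructor
    · linarith [hn1.2]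
    · linarith [hn2.1]
  have htop : Function.update h m (h m + bd t) m + nu (Function.update h m (h m + bd t) m) =
      bd u := by
    rw [Function.update_self, hbu]
  have hn' : s * m < Fintype.card V := lt_of_le_of_lt (Nat.mul_le_mul_left s (Nat.le_succ m)) hn
  obtain ⟨h', hh', -⟩ := descend hn' hQ htow2 (by rw [htop]; exact hsup)
  exact ⟨h', hh'⟩

end H49.LS
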