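import Pool.Agent.H49.LS.Tw0

/-!
# Levels

For `m ≤ n` let `c m` be the least `x` with `HasT s m (H ≤ x)` (`Nat.find`; it exists as `HasT s m True` (`tower0`) and `H ≤ e`), `c` is monotone (`hasT_le`). Pigeonhole: some `k < K` has
`K (c (r (k+1)) - c (r k)) ≤ e`, since otherwise `K (c (r K) - c 0) = ∑_k K (..) > K e`, but `c (r K) ≤ e`. (By induction: `∑_{k<K} (c (r (k+1)) - c (r k)) = c (r K) - c 0`, `Finset.sum_range_sub` over ℤ.)
`a = c (r k)`, `b = c (r (k+1))`. `¬ HasT s (r k) (H < a)`: if `a = 0` use `not_hasT_false`; else `H < a ↔ H ≤ a - 1`, minimality.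
-/

set_option autoImplicit false
set_option linter.unusedSectionVars false

namespace H49.LS

open Finset
open scoped Classical symmDiff

variable {V : Type} [Fintype V] [DecidableEq V]

private lemma Lev_has {s e m : ℕ} (hs : 1 ≤ s) (hm : m ≤ Fintype.card V)
    {H : Finset V → ℕ} (hH : ∀ A, H A ≤ e) : HasT s m (fun A => H A ≤ e) :=
  hasT_mono (fun A _ => hH A) (tower0 hs hm)

theorem levels {s r K e : ℕ} (hs : 1 ≤ s) (hr : 1 ≤ r) (hK : 1 ≤ K) (hn : r * K ≤ Fintype.card V)
    {H : Finset V → ℕ} (hH : ∀ A, H A ≤ e) :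
    ∃ k a b : ℕ, k < K ∧ a ≤ b ∧ K * (b - a) ≤ e ∧ ¬ HasT s (r * k) (fun A => H A < a) ∧
      HasT s (r * k + r) (fun A => H A ≤ b) := by
  set c : ℕ → ℕ := fun m => sInf {x | HasT s m (fun A => H A ≤ x)} with hc
  have hmem : ∀ m, m ≤ Fintype.card V → HasT s m (fun A => H A ≤ c m) := by
    intro m hm
    exact Nat.sInf_mem (s := {x | HasT s m (fun A => H A ≤ x)}) ⟨e, Lev_has hs hm hH⟩
  have hle : ∀ m, m ≤ Fintype.card V → c m ≤ e := by
    intro m hm
    exact Nat.sInf_le (s := {x | HasT s m (fun A => H A ≤ x)}) (Lev_has hs hm hH)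
  have hmin : ∀ m x, HasT s m (fun A => H A ≤ x) → c m ≤ x := by
    intro m x hx
    exact Nat.sInf_le (s := {x | HasT s m (fun A => H A ≤ x)}) hx
  have hmono : ∀ m m', m ≤ m' → m' ≤ Fintype.card V → c m ≤ c m' := by
    intro m m' h h'
    exact hmin m _ (hasT_le h (hmem m' h'))
  have hpig : ∃ k, k < K ∧ K * (c (r * (k + 1)) - c (r * k)) ≤ e := by
    by_contra hcon
    push Not at hcon
    have hind : ∀ j, j ≤ K → j * (e + 1) ≤ K * c (r * j) := by
      intro j
      induction j with
      | zero => intro _; simp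
      | succ j ih =>
        intro hj
        have h1 := ih (by omega)
        have h2 := hcon j (by omega)
        have h3 : r * (j + 1) ≤ Fintype.card V := le_trans (Nat.mul_le_mul_left r hj) hn
        have h4 : c (r * j) ≤ c (r * (j + 1)) :=
          hmono _ _ (Nat.mul_le_mul_left r (Nat.le_succ j)) h3
        have h5 : K * (c (r * (j + 1)) - c (r * j)) + K * c (r * j) = K * c (r * (j + 1)) := by
          rw [← Nat.mul_add, Nat.sub_add_cancel h4]
        have h6 : (j + 1) * (e + 1) = j * (e + 1) + (e + 1) := by ring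
        omega
    have h1 := hind K le_rfl
    have h2 : K * c (r * K) ≤ K * e := Nat.mul_le_mul_left K (hle _ hn)
    have h3 : K * (e + 1) = K * e + K := by ring
    omega
  obtain ⟨k, hk, hke⟩ := hpig
  have h3 : r * (k + 1) ≤ Fintype.card V := le_trans (Nat.mul_le_mul_left r hk) hn
  refine ⟨k, c (r * k), c (r * (k + 1)), hk,
    hmono _ _ (Nat.mul_le_mul_left r (Nat.le_succ k)) h3, hke, ?_, ?_⟩
  · intro hT
    rcases Nat.eq_zero_or_pos (c (r * k)) with h0 | h0
    · rw [h0] at hT
      exact not_hasT_false (hasT_mono (fun A hA => absurd hA (Nat.not_lt_zero _)) hT)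
    · have h1 := hmin (r * k) (c (r * k) - 1) (hasT_mono (fun A hA => by
        have hA' : H A < c (r * k) := hA
        change H A ≤ c (r * k) - 1
        omega) hT)
      omega
  · have h4 := hmem _ h3
    rw [Nat.mul_succ] at h4
    rw [Nat.mul_succ]
    exact h4

end H49.LS
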