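import Pool.Agent.H49.LS.PshA

/-!
# Pushing a tower down at its highest state

`y = h j + nu (h j)`, supported on `Low ∨ key ≤ key τ`. `l W = y τ W`. `l W ≠ 0` implies `Adm s W`, `|W| = j` and `LL s Low key τ W`: for `T ⊆ W` nonempty, `y (τ ∆ un T) W = y τ W ≠ 0`
(`corner_eq`), so `Low (τ ∆ un T)` or `key (τ ∆ un T) ≤ key τ`; equality would give `τ ∆ un T = τ` or `τᶜ` (`hinj`), i.e. `un T = ∅` or `univ`, impossible (`|un T| ≤ s j < n`, the members of
`T` are nonempty). `bs l = 0`: `j = 0`: `l (insert D W) = 0` always, by cardinality; `j = j' + 1`: `bs l W = bd y τ W = 0` (`top_cycle`). By `hac` there is `w` with `bs w = l`. Let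
`q = bd (star τ w)`, `h' = update h j (h j + q)` (`tow_change`), top `y' = y + q + nu q`. `y' τ W = l W + l W + 0 = 0` (`star_bd_tau`, `star_bd_compl` for `nu q τ W = q τᶜ W`), and
`y' τᶜ W = 0` as `nu y' = y'`. For `A` with `y' A W ≠ 0`: `A ≠ τ, τᶜ`, and `y A W ≠ 0` or `q A W ≠ 0` or `q Aᶜ W ≠ 0`: in all cases `Low A ∨ key A ≤ key τ` (`star_bd_spt`, `hLow`, `hkey`), and
`key A = key τ` is excluded by `hinj`. So `Spt (Low ∨ key < key τ) y'`; `descend`.
`pushAll`: induction on `k`. Step: `HasT s j (Low ∨ key < k + 1)`; if there is `τ` with `¬ Low τ`, `key τ = k`, use `push`, else `Low ∨ key < k + 1` implies `Low ∨ key < k`.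
-/

set_option autoImplicit false
set_option linter.unusedSectionVars false

namespace H49.LS

open Finset
open scoped Classical symmDiff

variable {V : Type} [Fintype V] [DecidableEq V]

private lemma un_top_ne {s j : ℕ} (hn : s * (j + 1) < Fintype.card V) {W T : Finset (Finset V)} (hT : T ⊆ W)
    (hW : Adm s W) (hj : W.card = j) : un T ≠ univ := by
  intro h
  have h1 := card_un_le (adm_mono hT hW)
  rw [h, Finset.card_univ] at h1
  have h2 : T.card ≤ j := hj ▸ Finset.card_le_card hT
  have h3 : s * T.card ≤ s * (j + 1) := Nat.mul_le_mul_left s (by omega)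
  omega

theorem push {s j : ℕ} (hn : s * (j + 1) < Fintype.card V) {Low : Finset V → Prop} (hLow : Sym Low)
    {key : Finset V → ℕ} (hkey : ∀ A, key Aᶜ = key A) (hinj : ∀ A B, key A = key B → B = A ∨ B = Aᶜ)
    (τ : Finset V) (hτ : ¬ Low τ) (ht : HasT s j (fun A => Low A ∨ key A ≤ key τ))
    (hac : AcycC j (LL s Low key τ)) : HasT s j (fun A => Low A ∨ key A < key τ) := by
  obtain ⟨h, hT⟩ := ht
  have hP : Sym (fun A => Low A ∨ key A ≤ key τ) := by
    intro A hA
    rcases hA with hA | hA
    · exact Or.inl (hLow A hA)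
    · exact Or.inr (by rw [hkey]; exact hA)
  have hQ : Sym (fun A => Low A ∨ key A < key τ) := by
    intro A hA
    rcases hA with hA | hA
    · exact Or.inl (hLow A hA)
    · exact Or.inr (by rw [hkey]; exact hA)
  have hn' : s * j < Fintype.card V := lt_of_le_of_lt (Nat.mul_le_mul_left s (by omega)) hn
  set y : Ch V := h j + nu (h j) with hy
  have hysp : Spt (fun A => Low A ∨ key A ≤ key τ) y :=
    spt_add (hT.spt j le_rfl) (spt_nu hP (hT.spt j le_rfl))
  have hych : IsCh s j y := isCh_add (hT.ch j le_rfl) (isCh_nu (hT.ch j le_rfl))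
  have hysym : nu y = y := nu_sym (h j)
  have hysym' : ∀ A W, y Aᶜ W = y A W := fun A W => congrFun (congrFun hysym A) W
  have hl : ∀ W, y τ W ≠ 0 → LL s Low key τ W ∧ W.card = j := by
    intro W hW
    obtain ⟨hadm, hcard⟩ := hych.sup τ W hW
    refine ⟨⟨hadm, ?_⟩, hcard⟩
    intro T hTW hTne
    have h1 : y (τ ∆ un T) W ≠ 0 := by
      rw [corner_eq hych hTW hadm]
      exact hW
    rcases hysp _ _ h1 with h2 | h2
    · exact Or.inl h2
    · refine Or.inr (lt_of_le_of_ne h2 ?_)
      intro heq
      rcases hinj τ (τ ∆ un T) heq.symm with h3 | h3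
      · rw [symmDiff_eq_left] at h3
        obtain ⟨D, hD⟩ := hTne
        obtain ⟨x, hx⟩ := (hadm.1 D (hTW hD)).1
        have h4 : x ∈ un T := sub_un hD hx
        rw [h3] at h4
        exact absurd h4 (Finset.notMem_empty x)
      · have h4 : τᶜ = τ ∆ (univ : Finset V) := by
          ext x
          simp [Finset.mem_symmDiff]
        rw [h4] at h3
        exact un_top_ne hn hTW hadm hcard (symmDiff_right_injective τ h3)
  have hbs : bs (fun W => y τ W) = 0 := by
    rcases j with _ | j'
    · funext W
      refine Finset.sum_eq_zero fun D _ => ?_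
      by_contra hne
      have h1 := (hl _ hne).2
      rw [Finset.card_eq_zero] at h1
      exact absurd h1 (Finset.insert_ne_empty _ _)
    · funext W
      exact congrFun (congrFun (top_cycle hT) τ) W
  obtain ⟨w, hw, hbw⟩ := hac (fun W => y τ W) hl hbs
  have hst : IsCh s (j + 1) (star τ w) := star_isCh hw
  have hT1 : Tow s j (fun _ => True) h :=
    { ch := hT.ch, one := hT.one, bdy := hT.bdy, spt := fun i _ => spt_true _ }
  have hT2 := tow_change hT1 hst
  set q : Ch V := bd (star τ w) with hq
  have hqs := star_bd_spt (V := V) hw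
  have hval : ∀ A W, (Function.update h j (h j + q) j + nu (Function.update h j (h j + q) j)) A W
      = y A W + q A W + q Aᶜ W := by
    intro A W
    rw [Function.update_self]
    change (h j A W + q A W) + (h j Aᶜ W + q Aᶜ W) = (h j A W + h j Aᶜ W) + q A W + q Aᶜ W
    ring
  have hqτ : ∀ W, q τ W = y τ W := by
    intro W
    rw [hq, star_bd_tau, hbw]
  have hqc : ∀ W, q τᶜ W = 0 := fun W => star_bd_compl hn hw W
  have hself : ∀ x : ZMod 2, x + x = 0 := fun x => CharTwo.add_self_eq_zero x
  have hyy : Spt (fun A => Low A ∨ key A < key τ)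
      (Function.update h j (h j + q) j + nu (Function.update h j (h j + q) j)) := by
    intro A W hne
    rw [hval] at hne
    have hA1 : A ≠ τ := by
      rintro rfl
      apply hne
      rw [hqτ, hqc, add_zero, hself]
    have hA2 : A ≠ τᶜ := by
      rintro rfl
      apply hne
      rw [hysym', hqc, compl_compl, hqτ, add_zero, hself]
    have hlast : key A ≤ key τ → key A < key τ := by
      intro hle
      refine lt_of_le_of_ne hle ?_
      intro heq
      rcases hinj τ A heq.symm with h3 | h3
      · exact hA1 h3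
      · exact hA2 h3
    by_cases h1 : y A W = 0
    · by_cases h2 : q A W = 0
      · have h3 : q Aᶜ W ≠ 0 := by
          intro h3
          apply hne
          rw [h1, h2, h3]
          simp
        rcases hqs _ _ h3 with h4 | h4 | h4
        · exact absurd (by rw [← h4, compl_compl]) hA2
        · have := hLow _ h4
          rw [compl_compl] at this
          exact Or.inl this
        · rw [hkey] at h4
          exact Or.inr h4
      · rcases hqs _ _ h2 with h4 | h4 | h4
        · exact absurd h4 hA1
        · exact Or.inl h4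
        · exact Or.inr h4
    · rcases hysp _ _ h1 with h4 | h4
      · exact Or.inl h4
      · exact Or.inr (hlast h4)
  obtain ⟨h', hh', _⟩ := descend hn' hQ hT2 hyy
  exact ⟨h', hh'⟩

theorem pushAll {s j : ℕ} (hn : s * (j + 1) < Fintype.card V) {Low : Finset V → Prop} (hLow : Sym Low)
    {key : Finset V → ℕ} (hkey : ∀ A, key Aᶜ = key A) (hinj : ∀ A B, key A = key B → B = A ∨ B = Aᶜ) (k : ℕ)
    (ht : HasT s j (fun A => Low A ∨ key A < k)) (hac : ∀ τ, ¬ Low τ → key τ < k → AcycC j (LL s Low key τ)) :
    HasT s j Low := by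
  induction k with
  | zero =>
    refine hasT_mono ?_ ht
    rintro A (hA | hA)
    · exact hA
    · exact absurd hA (Nat.not_lt_zero _)
  | succ k ih =>
    by_cases hex : ∃ τ, ¬ Low τ ∧ key τ = k
    · obtain ⟨τ, hτ, hk⟩ := hex
      have h1 : HasT s j (fun A => Low A ∨ key A ≤ key τ) := by
        refine hasT_mono ?_ ht
        rintro A (hA | hA)
        · exact Or.inl hA
        · exact Or.inr (by omega)
      have h2 := push hn hLow hkey hinj τ hτ h1 (hac τ hτ (by omega))
      rw [hk] at h2
      exact ih h2 fun τ' h3 h4 => hac τ' h3 (by omega)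
    · refine ih ?_ fun τ' h3 h4 => hac τ' h3 (by omega)
      refine hasT_mono ?_ ht
      rintro A (hA | hA)
      · exact Or.inl hA
      · by_cases hLA : Low A
        · exact Or.inl hLA
        · refine Or.inr ?_
          have : key A ≠ k := fun h => hex ⟨A, hLA, h⟩
          omega

end H49.LS
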