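import Pool.Agent.H49.LS.IntR
import Pool.Agent.H49.LS.Lev
import Pool.Agent.H49.LS.Push
import Pool.Agent.H49.LS.Cnt

/-!
# The abstract theorem

`levels` (`M = r K`, `s M < n`, so `r K ≤ n` as `s ≥ 1`): `k, a, b`. `j = r k`, `j + r ≤ r K = M`. `interfaces`: `HasT s j (H ≤ b ∧ ∀ i < r, |θ i| ≤ s M)`. `F = pot s r (b - a + 1) H θ`,
`x₀ = (2 s N + 1) b + N (r (s M))`, `N = b - a + 1`. By `pot_le`, `ky_lt_of_le`: `HasT s j (H < a ∨ ky F < (x₀ + 1) * nst V)`. If `AcycC j (LL s (H < a) (ky F) τ)` for all `τ` with `¬ H τ < a` and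
`ky F τ < (x₀ + 1) * nst V` then `pushAll` (`s (j+1) ≤ s r K < n`) gives `HasT s j (H < a)`, a contradiction. So there is such a `τ` with `¬ AcycC`. `le_of_ky_lt`, `pot_bound`:
`∑ |θ i τ| ≤ 2 s (b - a) + r (s M)`; multiply by `K`: `K (b - a) ≤ e`. `far_card`, `far_max` with `β j ≤ β (r K)`. `hF` for `far_card` is `pot_lt`.
-/

set_option autoImplicit false
set_option linter.unusedSectionVars false

namespace H49.LS

open Finset
open scoped Classical symmDiff

variable {V : Type} [Fintype V] [DecidableEq V]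

theorem main {s r K e β : ℕ} (hs : 1 ≤ s) (hr : 1 ≤ r) (hK : 1 ≤ K) (hn : s * (r * K) < Fintype.card V)
    {N : Finset V → Finset V} {H : Finset V → ℕ} (hH : Loc N H) (he : ∀ A, H A ≤ e)
    {θ : ℕ → Finset V → ℤ} (hθ : Odds r θ)
    (hβ : ∀ τ, ∀ 𝓦 : Finset (Finset V), Far N s H τ 𝓦 → ∀ u : Finset V, u.card ≤ s →
      (𝓦.filter fun w => ¬ Disjoint u (N w)).card ≤ β) :
    ∃ τ : Finset V, ∃ 𝓦 : Finset (Finset V), Far N s H τ 𝓦 ∧ 𝓦.card ≤ β * (r * K) ∧
      (∀ Q : Finset V, Q.card ≤ s → Disjoint Q (𝓦.biUnion N) → H τ ≤ H (τ ∆ Q)) ∧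
      K * ∑ i ∈ range r, |θ i τ| ≤ ((2 * s * e + s * (r * K) ^ 2 : ℕ) : ℤ) := by
  have hrK : r * K ≤ Fintype.card V := by
    have h1 : 1 * (r * K) ≤ s * (r * K) := Nat.mul_le_mul_right _ hs
    rw [one_mul] at h1
    exact le_of_lt (lt_of_le_of_lt h1 hn)
  obtain ⟨k, a, b, hk, hab, hKe, hno, hyes⟩ := levels hs hr hK hrK he
  have hjM : r * k + r ≤ r * K := by
    have h1 : r * (k + 1) ≤ r * K := Nat.mul_le_mul_left _ hk
    rw [Nat.mul_add, Nat.mul_one] at h1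
    exact h1
  have hSb : Sym (fun A : Finset V => H A ≤ b) := by
    intro A hA
    rw [hH.sym A]
    exact hA
  have hSa : Sym (fun A : Finset V => H A < a) := by
    intro A hA
    rw [hH.sym A]
    exact hA
  have h1 := interfaces hjM hn hSb hθ hyes
  have h2 : HasT s (r * k) (fun A => H A < a ∨ ky (pot s r (b - a + 1) H θ) A <
      (((2 * s * (b - a + 1) + 1) * b + (b - a + 1) * (r * (s * (r * K)))) + 1) * nst V) := by
    refine hasT_mono ?_ h1
    intro A hA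
    right
    refine ky_lt_of_le (pot_le hA.1 ?_)
    intro i hi
    have h3 := hA.2 i hi
    push_cast at h3 ⊢
    exact h3
  have hFc : ∀ A, pot s r (b - a + 1) H θ Aᶜ = pot s r (b - a + 1) H θ A :=
    fun A => pot_compl hH.sym hθ A
  have hnj : s * (r * k + 1) < Fintype.card V :=
    lt_of_le_of_lt (Nat.mul_le_mul_left _ (le_trans (Nat.add_le_add_left hr _) hjM)) hn
  have hex : ∃ τ, ¬ H τ < a ∧ ky (pot s r (b - a + 1) H θ) τ <
      (((2 * s * (b - a + 1) + 1) * b + (b - a + 1) * (r * (s * (r * K)))) + 1) * nst V ∧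
      ¬ AcycC (r * k) (LL s (fun A => H A < a) (ky (pot s r (b - a + 1) H θ)) τ) := by
    by_contra hcon
    apply hno
    refine pushAll hnj hSa (fun A => ky_compl hFc A) (fun A B h => ky_inj h) _ h2 ?_
    intro τ hτ hkτ
    by_contra hac
    exact hcon ⟨τ, hτ, hkτ, hac⟩
  obtain ⟨τ, hτa, hτX, hτac⟩ := hex
  have hFX := le_of_ky_lt hτX
  have hb := pot_bound hab (not_lt.mp hτa) hFX
  obtain ⟨𝓦, h𝓦, hmax⟩ := far_max s hH τ
  refine ⟨τ, 𝓦, h𝓦, ?_, hmax, ?_⟩
  · have h3 := far_card hH (fun A D hD h => pot_lt (N := b - a + 1) hθ hD h) (hβ τ) hτac h𝓦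
    refine le_trans h3 (Nat.mul_le_mul_left _ ?_)
    exact le_trans (Nat.le_add_right _ _) hjM
  · have h4 : (K : ℤ) * ∑ i ∈ range r, |θ i τ| ≤
        (K : ℤ) * ((2 * s * (b - a) + r * (s * (r * K)) : ℕ) : ℤ) :=
      mul_le_mul_of_nonneg_left hb (Int.natCast_nonneg K)
    refine le_trans h4 ?_
    have h5 : K * (2 * s * (b - a) + r * (s * (r * K))) ≤ 2 * s * e + s * (r * K) ^ 2 := by
      have h6 : 2 * s * (K * (b - a)) ≤ 2 * s * e := Nat.mul_le_mul_left _ hKe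
      have h7 : K * (2 * s * (b - a) + r * (s * (r * K))) = 2 * s * (K * (b - a)) + s * (r * K) ^ 2 := by ring
      rw [h7]
      exact Nat.add_le_add_right h6 _
    exact_mod_cast h5

end H49.LS
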