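import Pool.Agent.H49.LS.ChA

/-!
# The potential and the key

`rk` is injective and `< nst V` (`Fin.is_lt`; `Fintype.equivFin` is injective). `ky_compl`: `F Aᶜ = F A`, `min_comm`, `compl_compl`. `ky_inj`: from `ky F A = ky F B`, both minima `< nst V`
(`Nat.div_add_mod`-type argument: `x * C + u = y * C + v` with `u, v < C` gives `u = v`), so `min (rk A) (rk Aᶜ) = min (rk B) (rk Bᶜ)` and one of `A, Aᶜ` equals one of `B, Bᶜ`.
`ky_lt`: `F A < F B` gives `ky F A < ky F B`. `le_of_ky_lt`: `ky F A < (x + 1) * nst V → F A ≤ x`.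
`pot_compl`: `H` symmetric, `|θ Aᶜ| = |θ A|`. `pot_lt`: if `H (A ∆ D) < H A` and `|D| ≤ s` then `pot (A ∆ D) < pot A`: `∑ |θ i (A ∆ D)| ≤ ∑ |θ i A| + 2 s` by `Odds.lip` and the triangle
inequality; `(2sN+1)(H A - H (A ∆ D)) ≥ 2sN + 1 > N * 2s`. `pot_bound`: `pot A ≤ (2sN+1) b + N x`, `a ≤ H A`, `N = b - a + 1`, `a ≤ b` give `∑ |θ i A| ≤ 2 s (b - a) + x`:
`N ∑ ≤ (2sN+1)(b - a) + N x < N (2 s (b - a) + 1 + x)`.
-/

set_option autoImplicit false
set_option linter.unusedSectionVars false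

namespace H49.LS

open Finset
open scoped Classical symmDiff

variable {V : Type} [Fintype V] [DecidableEq V]

private lemma pot_digit {x y C u v : ℕ} (h : x * C + u = y * C + v) (hu : u < C) (hv : v < C) : u = v := by
  have h1 : (x * C + u) % C = (y * C + v) % C := by rw [h]
  rwa [Nat.mul_comm x C, Nat.mul_comm y C, Nat.mul_add_mod, Nat.mul_add_mod, Nat.mod_eq_of_lt hu,
    Nat.mod_eq_of_lt hv] at h1

lemma rk_lt (A : Finset V) : rk A < nst V := by
  exact (Fintype.equivFin (Finset V) A).is_lt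

lemma rk_inj {A B : Finset V} (h : rk A = rk B) : A = B := by
  exact (Fintype.equivFin (Finset V)).injective (Fin.ext h)

lemma ky_compl {F : Finset V → ℕ} (hF : ∀ A, F Aᶜ = F A) (A : Finset V) : ky F Aᶜ = ky F A := by
  unfold ky
  rw [hF, compl_compl, min_comm]

lemma ky_inj {F : Finset V → ℕ} {A B : Finset V} (h : ky F A = ky F B) : B = A ∨ B = Aᶜ := by
  have hu : min (rk A) (rk Aᶜ) < nst V := (min_le_left _ _).trans_lt (rk_lt A)
  have hv : min (rk B) (rk Bᶜ) < nst V := (min_le_left _ _).trans_lt (rk_lt B)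
  have h1 : min (rk A) (rk Aᶜ) = min (rk B) (rk Bᶜ) := pot_digit h hu hv
  rcases min_choice (rk A) (rk Aᶜ) with h2 | h2 <;> rcases min_choice (rk B) (rk Bᶜ) with h3 | h3 <;>
    rw [h2, h3] at h1 <;> have h4 := rk_inj h1
  · exact Or.inl h4.symm
  · right
    rw [h4, compl_compl]
  · exact Or.inr h4.symm
  · exact Or.inl (compl_injective h4).symm

lemma ky_lt {F : Finset V → ℕ} {A B : Finset V} (h : F A < F B) : ky F A < ky F B := by
  have hu : min (rk A) (rk Aᶜ) < nst V := (min_le_left _ _).trans_lt (rk_lt A)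
  unfold ky
  calc F A * nst V + min (rk A) (rk Aᶜ) < F A * nst V + nst V := Nat.add_lt_add_left hu _
    _ = (F A + 1) * nst V := by ring
    _ ≤ F B * nst V := Nat.mul_le_mul_right _ h
    _ ≤ _ := Nat.le_add_right _ _

lemma ky_lt_of_le {F : Finset V → ℕ} {A : Finset V} {x : ℕ} (h : F A ≤ x) : ky F A < (x + 1) * nst V := by
  have hu : min (rk A) (rk Aᶜ) < nst V := (min_le_left _ _).trans_lt (rk_lt A)
  unfold ky
  calc F A * nst V + min (rk A) (rk Aᶜ) < F A * nst V + nst V := Nat.add_lt_add_left hu _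
    _ = (F A + 1) * nst V := by ring
    _ ≤ (x + 1) * nst V := Nat.mul_le_mul_right _ (Nat.add_le_add_right h 1)

lemma le_of_ky_lt {F : Finset V → ℕ} {A : Finset V} {x : ℕ} (h : ky F A < (x + 1) * nst V) : F A ≤ x := by
  by_contra hx
  push Not at hx
  have h1 : (x + 1) * nst V ≤ F A * nst V := Nat.mul_le_mul_right _ hx
  have h2 : F A * nst V ≤ ky F A := Nat.le_add_right _ _
  omega

lemma pot_compl {s r N : ℕ} {H : Finset V → ℕ} (hH : ∀ A, H Aᶜ = H A) {θ : ℕ → Finset V → ℤ} (hθ : Odds r θ)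
    (A : Finset V) : pot s r N H θ Aᶜ = pot s r N H θ A := by
  unfold pot
  rw [hH]
  congr 2
  exact congrArg Int.toNat (sum_congr rfl fun i _ => by rw [hθ.odd, abs_neg])

lemma pot_lt {s r N : ℕ} {H : Finset V → ℕ} {θ : ℕ → Finset V → ℤ} (hθ : Odds r θ) {A D : Finset V}
    (hD : D.card ≤ s) (h : H (A ∆ D) < H A) : pot s r N H θ (A ∆ D) < pot s r N H θ A := by
  have hS : ∑ i ∈ range r, |θ i (A ∆ D)| ≤ ∑ i ∈ range r, |θ i A| + 2 * (D.card : ℤ) := by
    calc ∑ i ∈ range r, |θ i (A ∆ D)| ≤ ∑ i ∈ range r, (|θ i A| + |θ i (A ∆ D) - θ i A|) := by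
          refine sum_le_sum fun i _ => ?_
          have h1 := abs_add_le (θ i A) (θ i (A ∆ D) - θ i A)
          rwa [add_sub_cancel] at h1
      _ = ∑ i ∈ range r, |θ i A| + ∑ i ∈ range r, |θ i (A ∆ D) - θ i A| := sum_add_distrib
      _ ≤ _ := by linarith [hθ.lip A D]
  have hT : (∑ i ∈ range r, |θ i (A ∆ D)|).toNat ≤ (∑ i ∈ range r, |θ i A|).toNat + 2 * s := by
    have h0 : 0 ≤ ∑ i ∈ range r, |θ i A| := sum_nonneg fun i _ => abs_nonneg _
    have h1 : (D.card : ℤ) ≤ s := by exact_mod_cast hD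
    omega
  have h1 : (2 * s * N + 1) * (H (A ∆ D) + 1) ≤ (2 * s * N + 1) * H A := Nat.mul_le_mul_left _ h
  have h2 := Nat.mul_le_mul_left N hT
  have h3 : (2 * s * N + 1) * (H (A ∆ D) + 1) = (2 * s * N + 1) * H (A ∆ D) + (2 * s * N + 1) := by ring
  have h4 : N * ((∑ i ∈ range r, |θ i A|).toNat + 2 * s) =
      N * (∑ i ∈ range r, |θ i A|).toNat + 2 * s * N := by ring
  unfold pot
  omega

lemma pot_le {s r N b x : ℕ} {H : Finset V → ℕ} {θ : ℕ → Finset V → ℤ} {A : Finset V} (hH : H A ≤ b)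
    (hx : ∀ i < r, |θ i A| ≤ (x : ℤ)) : pot s r N H θ A ≤ (2 * s * N + 1) * b + N * (r * x) := by
  have hT : (∑ i ∈ range r, |θ i A|).toNat ≤ r * x := by
    rw [Int.toNat_le]
    calc ∑ i ∈ range r, |θ i A| ≤ ∑ _i ∈ range r, (x : ℤ) :=
          sum_le_sum fun i hi => hx i (mem_range.1 hi)
      _ = ((r * x : ℕ) : ℤ) := by
          rw [sum_const, card_range, nsmul_eq_mul, Nat.cast_mul]
  unfold pot
  exact Nat.add_le_add (Nat.mul_le_mul_left _ hH) (Nat.mul_le_mul_left _ hT)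

lemma pot_bound {s r a b x : ℕ} (hab : a ≤ b) {H : Finset V → ℕ} {θ : ℕ → Finset V → ℤ} {A : Finset V}
    (ha : a ≤ H A) (h : pot s r (b - a + 1) H θ A ≤ (2 * s * (b - a + 1) + 1) * b + (b - a + 1) * x) :
    ∑ i ∈ range r, |θ i A| ≤ ((2 * s * (b - a) + x : ℕ) : ℤ) := by
  obtain ⟨δ, rfl⟩ := Nat.exists_eq_add_of_le hab
  have h0 : 0 ≤ ∑ i ∈ range r, |θ i A| := sum_nonneg fun i _ => abs_nonneg _
  rw [Nat.add_sub_cancel_left] at h ⊢
  unfold pot at h
  set T := (∑ i ∈ range r, |θ i A|).toNat with hTdef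
  have h1 : (2 * s * (δ + 1) + 1) * a ≤ (2 * s * (δ + 1) + 1) * H A := Nat.mul_le_mul_left _ ha
  have h2 : (2 * s * (δ + 1) + 1) * (a + δ) =
      (2 * s * (δ + 1) + 1) * a + ((δ + 1) * (2 * s * δ) + δ) := by ring
  have h3 : (δ + 1) * T < (δ + 1) * (2 * s * δ + x + 1) := by
    have h4 : (δ + 1) * (2 * s * δ + x + 1) = (δ + 1) * (2 * s * δ) + (δ + 1) * x + (δ + 1) := by ring
    omega
  have h5 : T < 2 * s * δ + x + 1 := Nat.lt_of_mul_lt_mul_left h3
  have h6 : ∑ i ∈ range r, |θ i A| = (T : ℤ) := (Int.toNat_of_nonneg h0).symm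
  rw [h6]
  exact_mod_cast Nat.lt_succ_iff.1 h5

end H49.LS
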