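import Pool.Agent.H49.LS.Desc

/-!
# The star of a state

`w` a function on families with `w W ≠ 0 → LL s Low key τ W ∧ W.card = j + 1`. `Cor τ W A`: `A ∆ τ ⊆ un W` and every `D ∈ W` is inside `A ∆ τ` or disjoint from it. `star τ w A W = w W` if
`Cor τ W A`, else `0`. `IsCh s (j+1)`: `Cor τ W (A ∆ D) ↔ Cor τ W A` for `D ∈ W`, `W` admissible (`(A ∆ D) ∆ τ = (A ∆ τ) ∆ D`; the members of `W` are disjoint). `cor_low`: `Cor τ W A` gives
`A = τ ∆ un T` for `T = W.filter (· ⊆ A ∆ τ)`; so `A = τ` (if `T = ∅`) or `Low A ∨ key A < key τ`. `star_bd_tau`: `Cor τ W τ` always (`τ ∆ τ = ∅`), so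
`bd (star) τ W = ∑_{D ∉ W} w (insert D W) = bs w W`. `star_bd_compl`: `Cor τ W τᶜ` means `univ ⊆ un W`, but `|un W| ≤ s (j+1) < n`.
-/

set_option autoImplicit false
set_option linter.unusedSectionVars false

namespace H49.LS

open Finset
open scoped Classical symmDiff

variable {V : Type} [Fintype V] [DecidableEq V]

/-- `A` is a corner of the cell `(τ, W)` -/
def Cor (τ : Finset V) (W : Finset (Finset V)) (A : Finset V) : Prop :=
  A ∆ τ ⊆ un W ∧ ∀ D ∈ W, D ⊆ A ∆ τ ∨ Disjoint D (A ∆ τ)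

/-- the star chain -/
noncomputable def star (τ : Finset V) (w : Finset (Finset V) → ZMod 2) : Ch V :=
  fun A W => if Cor τ W A then w W else 0

private lemma psha_aux {s : ℕ} {X D : Finset V} {W : Finset (Finset V)} (hW : Adm s W) (hD : D ∈ W)
    (h : X ⊆ un W ∧ ∀ E ∈ W, E ⊆ X ∨ Disjoint E X) :
    X ∆ D ⊆ un W ∧ ∀ E ∈ W, E ⊆ X ∆ D ∨ Disjoint E (X ∆ D) := by
  refine ⟨?_, ?_⟩
  · intro x hx
    rcases Finset.mem_symmDiff.1 hx with ⟨h1, _⟩ | ⟨h1, _⟩
    · exact h.1 h1
    · exact sub_un hD h1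
  · intro E hE
    by_cases hED : E = D
    · subst hED
      rcases h.2 E hE with h1 | h1
      · right
        rw [Finset.disjoint_left]
        intro x hx hx'
        rcases Finset.mem_symmDiff.1 hx' with ⟨_, h2⟩ | ⟨_, h2⟩
        · exact h2 hx
        · exact h2 (h1 hx)
      · left
        intro x hx
        exact Finset.mem_symmDiff.2 (Or.inr ⟨hx, fun h2 => Finset.disjoint_left.1 h1 hx h2⟩)
    · have hd : Disjoint E D := hW.2 E hE D hD hED
      rcases h.2 E hE with h1 | h1
      · left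
        intro x hx
        exact Finset.mem_symmDiff.2 (Or.inl ⟨h1 hx, fun h2 => Finset.disjoint_left.1 hd hx h2⟩)
      · right
        rw [Finset.disjoint_left]
        intro x hx hx'
        rcases Finset.mem_symmDiff.1 hx' with ⟨h2, _⟩ | ⟨h2, _⟩
        · exact Finset.disjoint_left.1 h1 hx h2
        · exact Finset.disjoint_left.1 hd hx h2

private lemma psha_swap (A D τ : Finset V) : (A ∆ D) ∆ τ = (A ∆ τ) ∆ D := by
  rw [symmDiff_assoc, symmDiff_comm D τ, ← symmDiff_assoc]

private lemma psha_term {τ A : Finset V} {w : Finset (Finset V) → ZMod 2} {W : Finset (Finset V)}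
    (h : star τ w A W ≠ 0) : Cor τ W A ∧ w W ≠ 0 := by
  by_cases hc : Cor τ W A
  · refine ⟨hc, fun h0 => h ?_⟩
    rw [star, if_pos hc, h0]
  · exact absurd (by rw [star, if_neg hc]) h

lemma cor_inv {s : ℕ} {τ A D : Finset V} {W : Finset (Finset V)} (hW : Adm s W) (hD : D ∈ W) :
    Cor τ W (A ∆ D) ↔ Cor τ W A := by
  have key : ∀ A : Finset V, Cor τ W A → Cor τ W (A ∆ D) := by
    intro A h
    have h1 := psha_aux hW hD h
    rw [← psha_swap] at h1
    exact h1
  refine ⟨fun h => ?_, key A⟩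
  have h2 := key _ h
  rwa [symmDiff_symmDiff_cancel_right] at h2

lemma cor_low {s : ℕ} {Low : Finset V → Prop} {key : Finset V → ℕ} {τ A : Finset V} {W : Finset (Finset V)}
    (hW : LL s Low key τ W) (h : Cor τ W A) : A = τ ∨ Low A ∨ key A < key τ := by
  have hT : W.filter (fun D => D ⊆ A ∆ τ) ⊆ W := Finset.filter_subset _ _
  have hun : un (W.filter (fun D => D ⊆ A ∆ τ)) = A ∆ τ := by
    apply Finset.Subset.antisymm
    · intro x hx
      rw [un, Finset.mem_biUnion] at hx
      obtain ⟨D, hD, hx⟩ := hx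
      exact (Finset.mem_filter.1 hD).2 hx
    · intro x hx
      have h1 := h.1 hx
      rw [un, Finset.mem_biUnion] at h1
      obtain ⟨D, hD, hxD⟩ := h1
      rw [un, Finset.mem_biUnion]
      refine ⟨D, Finset.mem_filter.2 ⟨hD, ?_⟩, hxD⟩
      rcases h.2 D hD with h2 | h2
      · exact h2
      · exact absurd hx (Finset.disjoint_left.1 h2 hxD)
  have hA : τ ∆ un (W.filter (fun D => D ⊆ A ∆ τ)) = A := by
    rw [hun, symmDiff_comm A τ, symmDiff_symmDiff_cancel_left]
  rcases Finset.eq_empty_or_nonempty (W.filter (fun D => D ⊆ A ∆ τ)) with h0 | h0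
  · left
    rw [h0, un_empty] at hA
    rw [← hA]
    exact symmDiff_bot τ
  · right
    have h3 := hW.2 _ hT h0
    rwa [hA] at h3

lemma star_isCh {s j : ℕ} {Low : Finset V → Prop} {key : Finset V → ℕ} {τ : Finset V}
    {w : Finset (Finset V) → ZMod 2} (hw : ∀ W, w W ≠ 0 → LL s Low key τ W ∧ W.card = j) :
    IsCh s j (star τ w) := by
  refine ⟨?_, ?_⟩
  · intro A W D hD
    by_cases h0 : w W = 0
    · simp only [star, h0, ite_self]
    · have h1 := cor_inv (τ := τ) (A := A) (hw W h0).1.1 hD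
      simp only [star]
      exact if_congr h1 rfl rfl
  · intro A W h
    obtain ⟨_, h1⟩ := psha_term h
    exact ⟨(hw W h1).1.1, (hw W h1).2⟩

lemma star_bd_spt {s j : ℕ} {Low : Finset V → Prop} {key : Finset V → ℕ} {τ : Finset V}
    {w : Finset (Finset V) → ZMod 2} (hw : ∀ W, w W ≠ 0 → LL s Low key τ W ∧ W.card = j) :
    Spt (fun A => A = τ ∨ Low A ∨ key A < key τ) (bd (star τ w)) := by
  intro A W h
  obtain ⟨D, _, hne⟩ := Finset.exists_ne_zero_of_sum_ne_zero h
  obtain ⟨h1, h2⟩ := psha_term hne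
  exact cor_low (hw _ h2).1 h1

lemma star_bd_tau (τ : Finset V) (w : Finset (Finset V) → ZMod 2) (W : Finset (Finset V)) :
    bd (star τ w) τ W = bs w W := by
  have hc : ∀ W' : Finset (Finset V), Cor τ W' τ := by
    intro W'
    have h0 : τ ∆ τ = ∅ := symmDiff_self τ
    refine ⟨?_, ?_⟩
    · rw [h0]; exact Finset.empty_subset _
    · intro D _
      right
      rw [h0]
      exact Finset.disjoint_empty_right D
  rw [bd, bs]
  apply Finset.sum_congr
  · ext D
    simp only [Finset.mem_filter]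
  · intro D _
    rw [star, if_pos (hc _)]

lemma star_bd_compl {s j : ℕ} (hn : s * j < Fintype.card V) {Low : Finset V → Prop} {key : Finset V → ℕ}
    {τ : Finset V} {w : Finset (Finset V) → ZMod 2} (hw : ∀ W, w W ≠ 0 → LL s Low key τ W ∧ W.card = j)
    (W : Finset (Finset V)) : bd (star τ w) τᶜ W = 0 := by
  rw [bd]
  apply Finset.sum_eq_zero
  intro D _
  by_contra hne
  obtain ⟨h1, h2⟩ := psha_term hne
  obtain ⟨h3, h4⟩ := hw _ h2
  have h5 : (univ : Finset V) ⊆ un (insert D W) := by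
    have h6 : τᶜ ∆ τ = univ := by
      ext x
      simp only [Finset.mem_symmDiff, Finset.mem_compl, Finset.mem_univ, iff_true]
      tauto
    rw [← h6]
    exact h1.1
  have h7 := Finset.card_le_card h5
  have h8 := card_un_le h3.1
  rw [h4] at h8
  rw [Finset.card_univ] at h7
  omega

end H49.LS
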