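import Pool.Agent.H49.LS.ChB
import Pool.Agent.H49.LS.Pot

/-!
# Improvable moves are good directions

`Low A = (H A < a)`, `key = ky F` with `F (A ∆ D) < F A` whenever `H (A ∆ D) < H A`, `|D| ≤ s`. Let `D` be improvable at `τ`, `W` in the lower link, no member of `W` other than `D` touches `N D`.
If `D ∈ W`, `insert D W = W`. Otherwise `insert D W` is admissible (the members of `W` are disjoint from `N D ⊇ D`). Let `T ⊆ insert D W` be nonempty. If `D ∉ T` then `T ⊆ W`. If `D ∈ T`,
`T' = T.erase D ⊆ W`, `un T = un T' ∪ D`, `τ ∆ un T = (τ ∆ un T') ∆ D` (`un_insert_symmDiff`, `symmDiff_assoc`). `un T'` is disjoint from `N D` (`Finset.disjoint_biUnion_left`). By `loc`: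
`H ((τ ∆ un T') ∆ D) + H τ = H (τ ∆ un T') + H (τ ∆ D)`, so `H ((τ ∆ un T') ∆ D) < H (τ ∆ un T')`, hence `F`, `ky F` go down too. If `T' = ∅`: `τ ∆ un T' = τ`, so `ky` is smaller than at `τ`.
Otherwise `τ ∆ un T'` is low (then the new state is low) or of smaller key.
-/

set_option autoImplicit false
set_option linter.unusedSectionVars false

namespace H49.LS

open Finset
open scoped Classical symmDiff

variable {V : Type} [Fintype V] [DecidableEq V]

lemma down_LL (s : ℕ) (Low : Finset V → Prop) (key : Finset V → ℕ) (τ : Finset V) : Down (LL s Low key τ) := by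
  rintro W W' hsub ⟨hA, hT⟩
  exact ⟨adm_mono hsub hA, fun T hT' hne => hT T (hT'.trans hsub) hne⟩

theorem good_imp {s a : ℕ} {N : Finset V → Finset V} {H : Finset V → ℕ} (hH : Loc N H) {F : Finset V → ℕ}
    (hF : ∀ A D, D.card ≤ s → H (A ∆ D) < H A → F (A ∆ D) < F A) {τ D : Finset V} (hD : Imp s H τ D)
    {W : Finset (Finset V)} (hW : LL s (fun A => H A < a) (ky F) τ W)
    (hc : ∀ u ∈ W, u ≠ D → Disjoint u (N D)) : LL s (fun A => H A < a) (ky F) τ (insert D W) := by
  by_cases hDW : D ∈ W
  · rw [Finset.insert_eq_self.2 hDW]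
    exact hW
  have hdis : ∀ u ∈ W, Disjoint u (N D) := fun u hu => hc u hu fun h => hDW (h ▸ hu)
  have hAdm : Adm s (insert D W) := by
    refine ⟨?_, ?_⟩
    · intro E hE
      rcases Finset.mem_insert.1 hE with h | h
      · rw [h]
        exact ⟨hD.1, hD.2.1⟩
      · exact hW.1.1 E h
    · intro E hE E' hE' hne
      rcases Finset.mem_insert.1 hE with h | h
      · rcases Finset.mem_insert.1 hE' with h' | h'
        · exact absurd (h.trans h'.symm) hne
        · rw [h]
          exact (Disjoint.mono_right (hH.sub D) (hdis E' h')).symm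
      · rcases Finset.mem_insert.1 hE' with h' | h'
        · rw [h']
          exact Disjoint.mono_right (hH.sub D) (hdis E h)
        · exact hW.1.2 E h E' h' hne
  refine ⟨hAdm, ?_⟩
  intro T hT hne
  by_cases hDT : D ∈ T
  · obtain ⟨T', hT'⟩ : ∃ T', T' = T.erase D := ⟨_, rfl⟩
    have hsub : T' ⊆ W := by
      intro E hE
      rw [hT', Finset.mem_erase] at hE
      rcases Finset.mem_insert.1 (hT hE.2) with h | h
      · exact absurd h hE.1
      · exact h
    have hins : insert D T' = T := by
      rw [hT']
      exact Finset.insert_erase hDT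
    have hDT' : D ∉ T' := by
      rw [hT']
      exact Finset.notMem_erase D T
    have hun : un T = un T' ∆ D := by
      rw [← hins]
      exact un_insert_symmDiff (by rw [hins]; exact adm_mono hT hAdm) hDT'
    have hdisj : Disjoint (un T') (N D) := by
      unfold un
      rw [Finset.disjoint_biUnion_left]
      exact fun u hu => hdis u (hsub hu)
    have hloc := hH.loc τ D (un T') hdisj
    have hlt : H ((τ ∆ un T') ∆ D) < H (τ ∆ un T') := by
      have := hD.2.2
      omega
    have hk := ky_lt (hF _ D hD.2.1 hlt)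
    rw [hun, ← symmDiff_assoc]
    by_cases he : T' = ∅
    · right
      have e1 : τ ∆ un T' = τ := by
        rw [he, un_empty]
        exact symmDiff_bot τ
      rw [e1] at hk ⊢
      exact hk
    · rcases hW.2 T' hsub (Finset.nonempty_iff_ne_empty.2 he) with h | h
      · left
        exact lt_trans hlt h
      · right
        exact lt_trans hk h
  · refine hW.2 T ?_ hne
    intro E hE
    rcases Finset.mem_insert.1 (hT hE) with h | h
    · exact absurd (h ▸ hE) hDT
    · exact h

end H49.LS
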