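import Mathlib

/-!
# A sum over the position of a jump

`S` a finite set of natural numbers, `f : ℕ → ZMod 2`. In `ZMod 2`: the number of `x ∈ S` such that `f = 1` on the elements of `S` below `x` and `f = 0` on those above `x` is
`[f = 0 on S] + [f = 1 on S]`. `Finset.induction_on_max`: for `S' = insert a S`, `a` larger than all of `S`: the term `x = a` is `[f = 1 on S]`, the terms `x ∈ S` get the factor `[f a = 0]`,
so the sum is `[f = 1 on S] + [f a = 0] ([f = 0 on S] + [f = 1 on S])`; `f a ∈ {0, 1}`, distinguish the two cases (`CharTwo.add_self_eq_zero`).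
-/

set_option autoImplicit false

namespace H49.LS

open Finset
open scoped Classical

lemma jump_sum (S : Finset ℕ) (f : ℕ → ZMod 2) :
    ∑ x ∈ S, (if ∀ y ∈ S, (y < x → f y = 1) ∧ (x < y → f y = 0) then (1 : ZMod 2) else 0) =
      (if ∀ y ∈ S, f y = 0 then 1 else 0) + (if ∀ y ∈ S, f y = 1 then 1 else 0) := by
  induction S using Finset.induction_on_max with
  | empty =>
    simp only [Finset.sum_empty, Finset.notMem_empty, false_imp_iff, imp_true_iff, if_true]
    decide
  | insert a S hmax ih =>
    have haS : a ∉ S := fun h => lt_irrefl a (hmax a h)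
    rw [Finset.sum_insert haS]
    have h1 : (∀ y ∈ insert a S, (y < a → f y = 1) ∧ (a < y → f y = 0)) ↔
        (∀ y ∈ S, f y = 1) := by
      constructor
      · intro h y hy
        exact (h y (Finset.mem_insert_of_mem hy)).1 (hmax y hy)
      · intro h y hy
        rcases Finset.mem_insert.mp hy with rfl | hy
        · exact ⟨fun h => absurd h (lt_irrefl _), fun h => absurd h (lt_irrefl _)⟩
        · exact ⟨fun _ => h y hy, fun h' => absurd h' (not_lt.mpr (hmax y hy).le)⟩
    have h2 : ∀ x ∈ S, ((∀ y ∈ insert a S, (y < x → f y = 1) ∧ (x < y → f y = 0)) ↔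
        (f a = 0 ∧ ∀ y ∈ S, (y < x → f y = 1) ∧ (x < y → f y = 0))) := by
      intro x hx
      constructor
      · intro h
        exact ⟨(h a (Finset.mem_insert_self a S)).2 (hmax x hx),
          fun y hy => h y (Finset.mem_insert_of_mem hy)⟩
      · intro h y hy
        rcases Finset.mem_insert.mp hy with rfl | hy
        · exact ⟨fun h' => absurd h' (not_lt.mpr (hmax x hx).le), fun _ => h.1⟩
        · exact h.2 y hy
    have h3 : ∑ x ∈ S, (if ∀ y ∈ insert a S, (y < x → f y = 1) ∧ (x < y → f y = 0)
        then (1 : ZMod 2) else 0) = ∑ x ∈ S, (if (f a = 0 ∧ ∀ y ∈ S, (y < x → f y = 1) ∧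
          (x < y → f y = 0)) then (1 : ZMod 2) else 0) := by
      apply Finset.sum_congr rfl
      intro x hx
      exact if_congr (h2 x hx) rfl rfl
    have h4 : (∀ y ∈ insert a S, f y = 0) ↔ (f a = 0 ∧ ∀ y ∈ S, f y = 0) :=
      Finset.forall_mem_insert a S _
    have h5 : (∀ y ∈ insert a S, f y = 1) ↔ (f a = 1 ∧ ∀ y ∈ S, f y = 1) :=
      Finset.forall_mem_insert a S _
    rw [h3, if_congr h1 rfl rfl, if_congr h4 rfl rfl, if_congr h5 rfl rfl]
    have h01 : f a = 0 ∨ f a = 1 := by
      generalize f a = z
      revert z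
      decide
    rcases h01 with h0 | h0
    · have hne : ¬ ((0 : ZMod 2) = 1) := by decide
      simp only [h0, true_and, hne, false_and, if_false, add_zero]
      rw [ih, add_comm, add_assoc, CharTwo.add_self_eq_zero, add_zero]
    · have hne : ¬ ((1 : ZMod 2) = 0) := by decide
      simp only [h0, true_and, hne, false_and, if_false, Finset.sum_const_zero, add_zero, zero_add]

end H49.LS
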