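import Pool.Agent.H49.LS.ChB
import Pool.Agent.H49.LS.TelA

/-!
# The explicit tower

Let `ρ : V → ℕ` be injective (`Fintype.equivFin`). For a set `U` of vertices let `sg U = U.image (fun x => {x})` be the family of its singletons, and for a state `A` and `y ∉ U` let
`f A U y = [y ∈ A] + #{u ∈ U : ρ u > ρ y}` in `ZMod 2`. `tw i A W = 1` if there is a set `U` with `|U| = i`, `W = sg U` and `f A U y = 0` for all `y ∉ U`, else `0`.
`IsCh`: `W` is admissible (`s ≥ 1`), `card W = i`; for `D = {x} ∈ W`, `x ∈ U`, flipping `x` does not change `f A U y` for `y ∉ U`. `one`: `i = 0`: only `U = ∅`, `A = ∅`.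
`bdy` for `i < m ≤ n`: evaluate at `(A, W)`. If `W` is not of the form `sg U` with `|U| = i` then both sides are `0` (if `insert D W = sg U'`, `D ∉ W`, then `W = sg (U' \ x)`). If `W = sg U`:
`insert D W = sg U'` with `|U'| = i + 1` iff `D = {x}`, `x ∉ U`, `U' = insert x U`. For `y ∉ insert x U`: `f A (insert x U) y = f A U y + [ρ x > ρ y]`. So the term of `x` is `1` iff `f A U y = 1`
for the `y ∉ U` with `ρ y < ρ x`, and `f A U y = 0` for those with `ρ y > ρ x`. By `jump_sum` (with `S = ρ(V \ U)`, nonempty as `i < n`) the sum is `[f = 0] + [f = 1]`, which is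
`tw i A W + tw i Aᶜ W`, because `f Aᶜ U y = f A U y + 1`.
-/

set_option autoImplicit false
set_option linter.unusedSectionVars false

namespace H49.LS

open Finset
open scoped Classical symmDiff

variable {V : Type} [Fintype V] [DecidableEq V]

/-- parity function of the explicit tower -/
noncomputable def pf (A U : Finset V) (y : V) : ZMod 2 :=
  (if y ∈ A then 1 else 0) +
    (((U.filter fun u => (Fintype.equivFin V y : ℕ) < (Fintype.equivFin V u : ℕ)).card : ℕ) : ZMod 2)

/-- the family of the singletons of `U` -/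
def sg (U : Finset V) : Finset (Finset V) := U.image fun x => {x}

/-- the explicit tower -/
noncomputable def tw (i : ℕ) : Ch V := fun A W =>
  if ∃ U : Finset V, U.card = i ∧ W = sg U ∧ ∀ y, y ∉ U → pf A U y = 0 then 1 else 0

private lemma Tw0_rho_inj {x y : V} (h : (Fintype.equivFin V x : ℕ) = (Fintype.equivFin V y : ℕ)) : x = y :=
  (Fintype.equivFin V).injective (Fin.ext h)

private lemma Tw0_mem_sg {U : Finset V} {D : Finset V} : D ∈ sg U ↔ ∃ x ∈ U, ({x} : Finset V) = D := by
  unfold sg
  rw [Finset.mem_image]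

private lemma Tw0_single_mem_sg {U : Finset V} {x : V} : ({x} : Finset V) ∈ sg U ↔ x ∈ U := by
  rw [Tw0_mem_sg]
  constructor
  · rintro ⟨y, hy, h⟩
    rw [Finset.singleton_inj] at h
    exact h ▸ hy
  · intro h
    exact ⟨x, h, rfl⟩

private lemma Tw0_sg_inj {U U' : Finset V} (h : sg U = sg U') : U = U' := by
  ext x
  rw [← Tw0_single_mem_sg, ← Tw0_single_mem_sg (U := U'), h]

private lemma Tw0_card_sg (U : Finset V) : (sg U).card = U.card := by
  unfold sg
  exact Finset.card_image_of_injective _ Finset.singleton_injective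

private lemma Tw0_sg_insert (x : V) (U : Finset V) : sg (insert x U) = insert {x} (sg U) := by
  unfold sg
  rw [Finset.image_insert]

private lemma Tw0_tw_sg (i : ℕ) (A U : Finset V) (hU : U.card = i) :
    tw i A (sg U) = if ∀ y, y ∉ U → pf A U y = 0 then 1 else 0 := by
  unfold tw
  have : (∃ U' : Finset V, U'.card = i ∧ sg U = sg U' ∧ ∀ y, y ∉ U' → pf A U' y = 0) ↔
      ∀ y, y ∉ U → pf A U y = 0 := by
    constructor
    · rintro ⟨U', -, h, h'⟩
      rw [Tw0_sg_inj h]
      exact h'
    · intro h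
      exact ⟨U, hU, rfl, h⟩
  simp only [this]

lemma tw_isCh {s : ℕ} (hs : 1 ≤ s) (i : ℕ) : IsCh s i (tw (V := V) i) := by
  refine ⟨?_, ?_⟩
  · intro A W D hD
    have key : ∀ U : Finset V, W = sg U → ∀ y, y ∉ U → pf (A ∆ D) U y = pf A U y := by
      intro U hU y hy
      rw [hU] at hD
      obtain ⟨x, hx, rfl⟩ := Tw0_mem_sg.1 hD
      have hxy : y ≠ x := fun h => hy (h ▸ hx)
      have : (y ∈ A ∆ {x}) ↔ y ∈ A := by
        simp [Finset.mem_symmDiff, hxy]
      unfold pf
      simp only [this]
    unfold tw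
    have : (∃ U : Finset V, U.card = i ∧ W = sg U ∧ ∀ y, y ∉ U → pf (A ∆ D) U y = 0) ↔
        (∃ U : Finset V, U.card = i ∧ W = sg U ∧ ∀ y, y ∉ U → pf A U y = 0) := by
      constructor
      · rintro ⟨U, h1, h2, h3⟩
        exact ⟨U, h1, h2, fun y hy => by rw [← key U h2 y hy]; exact h3 y hy⟩
      · rintro ⟨U, h1, h2, h3⟩
        exact ⟨U, h1, h2, fun y hy => by rw [key U h2 y hy]; exact h3 y hy⟩
    simp only [this]
  · intro A W h
    unfold tw at h
    by_cases hc : ∃ U : Finset V, U.card = i ∧ W = sg U ∧ ∀ y, y ∉ U → pf A U y = 0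
    · obtain ⟨U, h1, h2, -⟩ := hc
      subst h2
      refine ⟨⟨?_, ?_⟩, ?_⟩
      · intro D hD
        obtain ⟨x, hx, rfl⟩ := Tw0_mem_sg.1 hD
        exact ⟨Finset.singleton_nonempty x, by rw [Finset.card_singleton]; exact hs⟩
      · intro D hD D' hD' hne
        obtain ⟨x, hx, rfl⟩ := Tw0_mem_sg.1 hD
        obtain ⟨y, hy, rfl⟩ := Tw0_mem_sg.1 hD'
        rw [Finset.disjoint_singleton]
        intro h
        exact hne (by rw [h])
      · rw [Tw0_card_sg, h1]
    · rw [if_neg hc] at h
      exact absurd rfl h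

lemma tw_one : ∑ A : Finset V, tw 0 A ∅ = 1 := by
  have h : ∀ A : Finset V, tw 0 A ∅ = if A = ∅ then 1 else 0 := by
    intro A
    have h0 : (∅ : Finset (Finset V)) = sg ∅ := by simp [sg]
    rw [h0, Tw0_tw_sg 0 A ∅ rfl]
    have : (∀ y : V, y ∉ (∅ : Finset V) → pf A ∅ y = 0) ↔ A = ∅ := by
      constructor
      · intro h
        rw [Finset.eq_empty_iff_forall_notMem]
        intro y hy
        have := h y (Finset.notMem_empty y)
        unfold pf at this
        simp [hy] at this
      · intro h y _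
        subst h
        unfold pf
        simp
    simp only [this]
  simp only [h]
  rw [Finset.sum_ite_eq' Finset.univ ∅ (fun _ => (1 : ZMod 2))]
  simp

private lemma Tw0_pf_insert (A U : Finset V) {x : V} (hx : x ∉ U) (y : V) :
    pf A (insert x U) y = pf A U y +
      (if (Fintype.equivFin V y : ℕ) < (Fintype.equivFin V x : ℕ) then 1 else 0) := by
  unfold pf
  rw [Finset.filter_insert]
  by_cases h : (Fintype.equivFin V y : ℕ) < (Fintype.equivFin V x : ℕ)
  · rw [if_pos h, if_pos h, Finset.card_insert_of_notMem (fun h' => hx (Finset.mem_filter.1 h').1)]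
    push_cast
    ring
  · rw [if_neg h, if_neg h]
    ring

private lemma Tw0_bd_sum {i : ℕ} (A U : Finset V) (hU : U.card = i) :
    bd (tw (i + 1)) A (sg U) = ∑ x ∈ univ.filter (fun x => x ∉ U),
      (if ∀ y, y ∉ insert x U → pf A (insert x U) y = 0 then (1 : ZMod 2) else 0) := by
  have h1 : bd (tw (i + 1)) A (sg U) =
      ∑ D ∈ (univ.filter (fun x => x ∉ U)).image (fun x => ({x} : Finset V)),
        tw (i + 1) A (insert D (sg U)) := by
    unfold bd
    symm
    apply Finset.sum_subset
    · intro D hD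
      obtain ⟨x, hx, rfl⟩ := Finset.mem_image.1 hD
      rw [Finset.mem_filter] at hx ⊢
      exact ⟨Finset.mem_univ _, fun h => hx.2 (Tw0_single_mem_sg.1 h)⟩
    · intro D hD hD'
      rw [Finset.mem_filter] at hD
      unfold tw
      rw [if_neg]
      rintro ⟨U', h1, h2, -⟩
      have hD1 : D ∈ sg U' := by
        rw [← h2]
        exact Finset.mem_insert_self _ _
      obtain ⟨x, hx, rfl⟩ := Tw0_mem_sg.1 hD1
      apply hD'
      rw [Finset.mem_image]
      refine ⟨x, ?_, rfl⟩
      rw [Finset.mem_filter]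
      exact ⟨Finset.mem_univ _, fun h => hD.2 (Tw0_single_mem_sg.2 h)⟩
  rw [h1, Finset.sum_image (fun x _ y _ h => Finset.singleton_injective h)]
  apply Finset.sum_congr rfl
  intro x hx
  rw [Finset.mem_filter] at hx
  rw [← Tw0_sg_insert, Tw0_tw_sg (i + 1) A (insert x U) (by rw [Finset.card_insert_of_notMem hx.2, hU])]

/-- the boundary at a family of singletons -/
lemma tw_bd_sg {i : ℕ} (hi : i < Fintype.card V) (A U : Finset V) (hU : U.card = i) :
    bd (tw (i + 1)) A (sg U) = (if ∀ y, y ∉ U → pf A U y = 0 then (1 : ZMod 2) else 0) +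
      (if ∀ y, y ∉ U → pf A U y = 1 then 1 else 0) := by
  rw [Tw0_bd_sum A U hU]
  let f : ℕ → ZMod 2 := fun n => if h : n < Fintype.card V then pf A U ((Fintype.equivFin V).symm ⟨n, h⟩) else 0
  have hf : ∀ y : V, f (Fintype.equivFin V y : ℕ) = pf A U y := by
    intro y
    have h : (Fintype.equivFin V y : ℕ) < Fintype.card V := (Fintype.equivFin V y).isLt
    simp only [f, dif_pos h, Fin.eta, Equiv.symm_apply_apply]
  let S : Finset ℕ := (univ.filter (fun x => x ∉ U)).image (fun x => (Fintype.equivFin V x : ℕ))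
  have hS : ∀ (P : ℕ → Prop), (∀ y ∈ S, P y) ↔ ∀ y : V, y ∉ U → P (Fintype.equivFin V y : ℕ) := by
    intro P
    constructor
    · intro h y hy
      exact h _ (Finset.mem_image.2 ⟨y, Finset.mem_filter.2 ⟨Finset.mem_univ _, hy⟩, rfl⟩)
    · intro h y hy
      obtain ⟨x, hx, rfl⟩ := Finset.mem_image.1 hy
      exact h x (Finset.mem_filter.1 hx).2
  have hj := jump_sum S f
  have h0 : (∀ y ∈ S, f y = 0) ↔ ∀ y, y ∉ U → pf A U y = 0 := by
    rw [hS (fun n => f n = 0)]
    simp only [hf]
  have h1 : (∀ y ∈ S, f y = 1) ↔ ∀ y, y ∉ U → pf A U y = 1 := by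
    rw [hS (fun n => f n = 1)]
    simp only [hf]
  simp only [h0, h1] at hj
  rw [← hj]
  show _ = ∑ x ∈ (univ.filter (fun x => x ∉ U)).image (fun x => (Fintype.equivFin V x : ℕ)), _
  rw [Finset.sum_image (fun x _ y _ h => Tw0_rho_inj h)]
  apply Finset.sum_congr rfl
  intro x hx
  rw [Finset.mem_filter] at hx
  have hiff : (∀ y, y ∉ insert x U → pf A (insert x U) y = 0) ↔
      ∀ y ∈ S, (y < (Fintype.equivFin V x : ℕ) → f y = 1) ∧ ((Fintype.equivFin V x : ℕ) < y → f y = 0) := by
    rw [hS (fun n => (n < (Fintype.equivFin V x : ℕ) → f n = 1) ∧ ((Fintype.equivFin V x : ℕ) < n → f n = 0))]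
    simp only [hf]
    constructor
    · intro h y hy
      constructor
      · intro hlt
        have hne : y ≠ x := fun h' => by rw [h'] at hlt; exact lt_irrefl _ hlt
        have := h y (fun h' => (Finset.mem_insert.1 h').elim hne hy)
        rw [Tw0_pf_insert A U hx.2, if_pos hlt] at this
        have h2 : pf A U y = -1 := eq_neg_of_add_eq_zero_left this
        rw [h2]
        decide
      · intro hlt
        have hne : y ≠ x := fun h' => by rw [h'] at hlt; exact lt_irrefl _ hlt
        have := h y (fun h' => (Finset.mem_insert.1 h').elim hne hy)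
        rw [Tw0_pf_insert A U hx.2, if_neg (not_lt.2 hlt.le), add_zero] at this
        exact this
    · intro h y hy
      rw [Finset.mem_insert, not_or] at hy
      rw [Tw0_pf_insert A U hx.2]
      rcases lt_trichotomy (Fintype.equivFin V y : ℕ) (Fintype.equivFin V x : ℕ) with h' | h' | h'
      · rw [if_pos h', (h y hy.2).1 h']
        decide
      · exact absurd (Tw0_rho_inj h') hy.1
      · rw [if_neg (not_lt.2 h'.le), (h y hy.2).2 h', add_zero]
  simp only [hiff]

private lemma Tw0_pf_compl (A U : Finset V) (y : V) : pf Aᶜ U y = pf A U y + 1 := by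
  unfold pf
  by_cases h : y ∈ A
  · rw [if_neg (by simpa using h), if_pos h]
    have : (1 : ZMod 2) + 1 = 0 := by decide
    calc (0 : ZMod 2) + _ = _ := zero_add _
      _ = ((1 : ZMod 2) + 1) + _ := by rw [this, zero_add]
      _ = _ := by ring
  · rw [if_pos (by simpa using h), if_neg h]
    ring

lemma tw_bd {i : ℕ} (hi : i < Fintype.card V) : bd (tw (V := V) (i + 1)) = tw i + nu (tw i) := by
  funext A W
  by_cases hW : ∃ U : Finset V, U.card = i ∧ W = sg U
  · obtain ⟨U, hU, rfl⟩ := hW
    rw [tw_bd_sg hi A U hU]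
    show _ = tw i A (sg U) + tw i Aᶜ (sg U)
    rw [Tw0_tw_sg i A U hU, Tw0_tw_sg i Aᶜ U hU]
    have : (∀ y, y ∉ U → pf Aᶜ U y = 0) ↔ (∀ y, y ∉ U → pf A U y = 1) := by
      constructor
      · intro h y hy
        have := h y hy
        rw [Tw0_pf_compl] at this
        rw [eq_neg_of_add_eq_zero_left this]
        decide
      · intro h y hy
        rw [Tw0_pf_compl, h y hy]
        decide
    simp only [this]
  · have h1 : ∀ B : Finset V, tw i B W = 0 := by
      intro B
      unfold tw
      rw [if_neg]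
      rintro ⟨U, h1, h2, -⟩
      exact hW ⟨U, h1, h2⟩
    show bd (tw (i + 1)) A W = tw i A W + tw i Aᶜ W
    rw [h1, h1, add_zero]
    unfold bd
    apply Finset.sum_eq_zero
    intro D hD
    rw [Finset.mem_filter] at hD
    unfold tw
    rw [if_neg]
    rintro ⟨U', h1, h2, -⟩
    have hD1 : D ∈ sg U' := by
      rw [← h2]
      exact Finset.mem_insert_self _ _
    obtain ⟨x, hx, rfl⟩ := Tw0_mem_sg.1 hD1
    apply hW
    refine ⟨U'.erase x, ?_, ?_⟩
    · rw [Finset.card_erase_of_mem hx, h1]
      rfl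
    · ext D
      constructor
      · intro hDW
        have h3 : D ∈ sg U' := by
          rw [← h2]
          exact Finset.mem_insert_of_mem hDW
        obtain ⟨y, hy, rfl⟩ := Tw0_mem_sg.1 h3
        rw [Tw0_single_mem_sg, Finset.mem_erase]
        refine ⟨?_, hy⟩
        rintro rfl
        exact hD.2 hDW
      · intro hDs
        obtain ⟨y, hy, rfl⟩ := Tw0_mem_sg.1 hDs
        rw [Finset.mem_erase] at hy
        have h3 : ({y} : Finset V) ∈ insert {x} W := by
          rw [h2]
          exact Tw0_single_mem_sg.2 hy.2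
        rcases Finset.mem_insert.1 h3 with h4 | h4
        · exact absurd (Finset.singleton_injective h4) hy.1
        · exact h4

theorem tower0 {s m : ℕ} (hs : 1 ≤ s) (hm : m ≤ Fintype.card V) : HasT (V := V) s m (fun _ => True) :=
  ⟨tw, fun i _ => tw_isCh hs i, tw_one, fun _ hi => tw_bd (lt_of_lt_of_le hi hm), fun _ _ _ _ _ => trivial⟩

end H49.LS
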